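import Pool.Agent.Lib.FS80.Blue

namespace Pool.Agent.Lib.FS80

open MvPolynomial

namespace AUT_

noncomputable def tau0 (i : Fin 3) : PP →ₐ[ℚ] PP :=
  aeval (fun j => if j = i then X i else X j * X i)

noncomputable def sig0 (i : Fin 3) : PP →ₐ[ℚ] KK :=
  aeval (fun j => if j = i then xx i else xx j / xx i)

theorem tau0_X (i j : Fin 3) : tau0 i (X j) = if j = i then X i else X j * X i := by
  simp only [tau0, aeval_X]

theorem sig0_X (i j : Fin 3) : sig0 i (X j) = if j = i then xx i else xx j / xx i := by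
  simp only [sig0, aeval_X]

theorem comp_eq (i : Fin 3) : (sig0 i).comp (tau0 i) = IsScalarTower.toAlgHom ℚ PP KK := by
  refine MvPolynomial.algHom_ext fun j => ?_
  rw [AlgHom.comp_apply, tau0_X, IsScalarTower.toAlgHom_apply]
  by_cases h : j = i
  · rw [if_pos h, sig0_X, if_pos rfl, h]
    rfl
  · rw [if_neg h, map_mul, sig0_X, sig0_X, if_neg h, if_pos rfl, div_mul_cancel₀ _ (xx_ne i)]
    rfl

theorem tau0_inj (i : Fin 3) : Function.Injective (tau0 i) := by
  intro p q h
  have h1 : ((sig0 i).comp (tau0 i)) p = ((sig0 i).comp (tau0 i)) q := by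
    rw [AlgHom.comp_apply, AlgHom.comp_apply, h]
  rw [comp_eq] at h1
  exact IsFractionRing.injective PP KK h1

noncomputable def g (i : Fin 3) : PP →+* KK := (algebraMap PP KK).comp (tau0 i : PP →+* PP)

theorem g_inj (i : Fin 3) : Function.Injective (g i) :=
  (IsFractionRing.injective PP KK).comp (tau0_inj i)

noncomputable def tau (i : Fin 3) : KK →+* KK := IsFractionRing.lift (g_inj i)

theorem tau_alg (i : Fin 3) (p : PP) :
    tau i (algebraMap PP KK p) = algebraMap PP KK (tau0 i p) :=
  IsFractionRing.lift_algebraMap (g_inj i) p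

theorem tau_xx (i j : Fin 3) : tau i (if j = i then xx i else xx j / xx i) = xx j := by
  have hi : tau i (xx i) = xx i := by
    rw [xx, tau_alg, tau0_X, if_pos rfl]
  by_cases h : j = i
  · rw [if_pos h, hi, h]
  · have hj : tau i (xx j) = xx j * xx i := by
      rw [xx, tau_alg, tau0_X, if_neg h, map_mul]
      rfl
    rw [if_neg h, map_div₀, hi, hj, mul_div_cancel_right₀ _ (xx_ne i)]

theorem alg_range (i : Fin 3) (p : PP) : ∃ f, tau i f = algebraMap PP KK p := by
  induction p using MvPolynomial.induction_on with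
  | C a =>
    refine ⟨algebraMap PP KK (C a), ?_⟩
    rw [tau_alg]
    exact congrArg _ ((tau0 i).commutes a)
  | add p q hp hq =>
    obtain ⟨f, hf⟩ := hp
    obtain ⟨f', hf'⟩ := hq
    exact ⟨f + f', by rw [map_add, hf, hf', map_add]⟩
  | mul_X p j hp =>
    obtain ⟨f, hf⟩ := hp
    refine ⟨f * (if j = i then xx i else xx j / xx i), ?_⟩
    rw [map_mul, hf, tau_xx, map_mul]
    rfl

theorem tau_surj (i : Fin 3) : Function.Surjective (tau i) := by
  intro f
  obtain ⟨p, q, _, rfl⟩ := IsFractionRing.div_surjective (A := PP) f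
  obtain ⟨a, ha⟩ := alg_range i p
  obtain ⟨b, hb⟩ := alg_range i q
  exact ⟨a / b, by rw [map_div₀, ha, hb]⟩

end AUT_

theorem bAUT : AUT := by
  intro i
  refine ⟨(RingEquiv.ofBijective (AUT_.tau i) ⟨(AUT_.tau i).injective, AUT_.tau_surj i⟩).symm,
    fun j => ?_⟩
  rw [RingEquiv.symm_apply_eq]
  exact (AUT_.tau_xx i j).symm

end Pool.Agent.Lib.FS80
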