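import Pool.Agent.Lib.FS80.Blue

/-! Row DER: the three coordinate derivations of the function field preserve the local ring. -/

namespace Pool.Agent.Lib.FS80

open MvPolynomial

namespace DER_

theorem mkDer {K : Type} [Field K] (a : Algebra ℤ K) (m : Module ℤ K) (d : K → K)
    (h1 : ∀ x y, d (x + y) = d x + d y) (h2 : ∀ x y, d (x * y) = x * d y + y * d x) :
    ∃ D : @Derivation ℤ K K _ _ _ a _ m, ∀ f, D f = d f := by
  obtain rfl : a = Ring.toIntAlgebra K := Subsingleton.elim _ _
  obtain rfl : m = AddCommGroup.toIntModule K := Subsingleton.elim _ _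
  exact ⟨Derivation.mk' (AddMonoidHom.mk' d h1).toIntLinearMap h2, fun _ => rfl⟩

theorem exD {K : Type} [Field K] [Algebra PP K] [IsFractionRing PP K] (k : Fin 3) :
    ∃ d : K → K, (∀ x y, d (x + y) = d x + d y) ∧ (∀ x y, d (x * y) = x * d y + y * d x) ∧
      (∀ c, d (algebraMap PP K (C c)) = 0) ∧
      ∀ i, d (algebraMap PP K (X i)) = if i = k then 1 else 0 := by
  let ph : PP →+* TrivSqZeroExt K K :=
    eval₂Hom ((TrivSqZeroExt.inlHom K K).comp ((algebraMap PP K).comp C)) fun i =>
      TrivSqZeroExt.inl (algebraMap PP K (X i)) + TrivSqZeroExt.inr (if i = k then (1 : K) else 0)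
  let fs : TrivSqZeroExt K K →+* K := (TrivSqZeroExt.fstHom K K K).toRingHom
  have hfs : ∀ z, fs z = z.fst := fun _ => rfl
  have pC : ∀ c, ph (C c) = TrivSqZeroExt.inl (algebraMap PP K (C c)) := fun c =>
    eval₂Hom_C _ _ c
  have pX : ∀ i, ph (X i) = TrivSqZeroExt.inl (algebraMap PP K (X i)) +
      TrivSqZeroExt.inr (if i = k then (1 : K) else 0) := fun i => eval₂Hom_X' _ _ i
  have h : fs.comp ph = algebraMap PP K := by
    refine MvPolynomial.ringHom_ext (fun c => ?_) (fun i => ?_)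
    · rw [RingHom.comp_apply, pC, hfs, TrivSqZeroExt.fst_inl]
    · rw [RingHom.comp_apply, pX, hfs, TrivSqZeroExt.fst_add, TrivSqZeroExt.fst_inl,
        TrivSqZeroExt.fst_inr, add_zero]
  have hu : ∀ y : nonZeroDivisors PP, IsUnit (ph y) := fun y => by
    rw [TrivSqZeroExt.isUnit_iff_isUnit_fst]
    have : (ph y).fst = algebraMap PP K y := RingHom.congr_fun h y
    rw [this]
    exact IsLocalization.map_units K y
  let lf : K →+* TrivSqZeroExt K K := IsLocalization.lift (M := nonZeroDivisors PP) hu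
  have la : ∀ p, lf (algebraMap PP K p) = ph p := IsLocalization.lift_eq hu
  have h' : fs.comp lf = RingHom.id K := by
    refine IsLocalization.ringHom_ext (nonZeroDivisors PP) (RingHom.ext fun p => ?_)
    show fs (lf (algebraMap PP K p)) = algebraMap PP K p
    rw [la]
    exact RingHom.congr_fun h p
  have l1 : ∀ f, (lf f).fst = f := fun f => RingHom.congr_fun h' f
  refine ⟨fun f => (lf f).snd, fun x y => ?_, fun x y => ?_, fun c => ?_, fun i => ?_⟩
  · simp only [map_add, TrivSqZeroExt.snd_add]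
  · simp only [map_mul, TrivSqZeroExt.snd_mul, l1]
    simp [mul_comm]
  · simp only [la, pC, TrivSqZeroExt.snd_inl]
  · simp only [la, pX, TrivSqZeroExt.snd_add, TrivSqZeroExt.snd_inl, TrivSqZeroExt.snd_inr,
      zero_add]

theorem mem_of (d : KK → KK) (h1 : ∀ x y, d (x + y) = d x + d y)
    (h2 : ∀ x y, d (x * y) = x * d y + y * d x) (h3 : ∀ c, d (algebraMap PP KK (C c)) = 0)
    (h4 : ∀ i, d (algebraMap PP KK (X i)) ∈ R0) (f : KK) (hf : f ∈ R0) : d f ∈ R0 := by
  have hp : ∀ p : PP, d (algebraMap PP KK p) ∈ R0 := fun p => by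
    induction p using MvPolynomial.induction_on with
    | C c => rw [h3]; exact R0.zero_mem
    | add p q hp hq => rw [map_add, h1]; exact R0.add_mem hp hq
    | mul_X p i hp =>
      rw [map_mul, h2]
      exact R0.add_mem (R0.mul_mem (alg_mem p) (h4 i)) (R0.mul_mem (alg_mem _) hp)
  obtain ⟨p, q, hq, h⟩ := (mem_R0 f).1 hf
  have h0 := alg_ne hq
  have e1 : f * algebraMap PP KK q = algebraMap PP KK p := by rw [h, div_mul_cancel₀ _ h0]
  have e2 := h2 f (algebraMap PP KK q)
  rw [e1] at e2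
  have e3 : d f = (d (algebraMap PP KK p) - f * d (algebraMap PP KK q)) *
      (algebraMap PP KK 1 / algebraMap PP KK q) := by
    rw [e2, map_one, add_sub_cancel_left, mul_one_div, mul_div_cancel_left₀ _ h0]
  rw [e3]
  exact R0.mul_mem (R0.sub_mem (hp p) (R0.mul_mem hf (hp q))) ((mem_R0 _).2 ⟨1, q, hq, rfl⟩)

end DER_

theorem bDER : DER := by
  have h : ∀ k : Fin 3, ∃ D : Derivation ℤ KK KK,
      (∀ i, D (xx i) = if i = k then 1 else 0) ∧ ∀ f ∈ R0, D f ∈ R0 := fun k => by
    obtain ⟨d, h1, h2, h3, h4⟩ := DER_.exD (K := KK) k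
    obtain ⟨D, hD⟩ := DER_.mkDer (K := KK) inferInstance inferInstance d h1 h2
    refine ⟨D, fun i => (hD _).trans (h4 i), fun f hf => ?_⟩
    have hm := DER_.mem_of d h1 h2 h3 (fun i => by
      rw [h4]
      split_ifs
      · exact R0.one_mem
      · exact R0.zero_mem) f hf
    exact (hD f).symm ▸ hm
  choose D h1 h2 using h
  exact ⟨D, h1, h2⟩

end Pool.Agent.Lib.FS80
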