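import Pool.Agent.Lib.FS80.Blue

namespace Pool.Agent.Lib.FS80

namespace DERb_

theorem grad_ex : ∃ D : KK → Fin 3 → KK, (∀ a b, D (a + b) = D a + D b) ∧
    (∀ a b, D (a * b) = a • D b + b • D a) ∧
      ∀ (f : PP) (i : Fin 3), D (algebraMap _ KK f) i = algebraMap _ KK (MvPolynomial.pderiv i f) := by
  let b := (KaehlerDifferential.mvPolynomialBasis ℚ (Fin 3)).ofIsLocalizedModule KK
    (nonZeroDivisors PP) (KaehlerDifferential.map ℚ ℚ PP KK)
  refine ⟨fun a => b.equivFun (KaehlerDifferential.D ℚ KK a), fun a c => by simp only [map_add],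
    fun a c => by simp only [Derivation.leibniz, map_add, map_smul], fun f i => ?_⟩
  beta_reduce
  rw [Module.Basis.equivFun_apply, ← KaehlerDifferential.map_D ℚ ℚ PP KK,
    Module.Basis.ofIsLocalizedModule_repr_apply,
    KaehlerDifferential.mvPolynomialBasis_repr_apply]

theorem mkD {K : Type} [Field K] (inst : Algebra ℤ K) (d : K → K)
    (h1 : ∀ a b, d (a + b) = d a + d b) (h2 : ∀ a b, d (a * b) = a • d b + b • d a) :
    ∃ E : @Derivation ℤ K K _ _ _ inst _ (AddCommGroup.toIntModule K), ∀ a, E a = d a := by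
  obtain rfl : inst = Ring.toIntAlgebra K := Subsingleton.elim _ _
  exact ⟨Derivation.mk' (AddMonoidHom.mk' d h1).toIntLinearMap h2, fun _ => rfl⟩

end DERb_

theorem bDERb : DER := by
  obtain ⟨D, h1, h2, h3⟩ := DERb_.grad_ex
  have hE : ∀ k, ∃ E : Derivation ℤ KK KK, ∀ a, E a = D a k := fun k =>
    DERb_.mkD _ (fun a => D a k) (fun a b => by rw [h1]; rfl) (fun a b => by rw [h2]; rfl)
  choose E hE using hE
  refine ⟨E, fun k i => ?_, fun k f hf => ?_⟩
  · rw [hE]
    show D (algebraMap PP KK (MvPolynomial.X i)) k = _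
    rw [h3, MvPolynomial.pderiv_X]
    by_cases h : i = k
    · subst h; simp
    · simp [h]
  · obtain ⟨p, q, hq, rfl⟩ := (mem_R0 f).1 hf
    rw [hE]
    have hq0 := alg_ne hq
    have hqi : (algebraMap PP KK q)⁻¹ ∈ R0 := (mem_R0 _).2 ⟨1, q, hq, by simp⟩
    have e := congrFun (h2 (algebraMap PP KK p / algebraMap PP KK q) (algebraMap PP KK q)) k
    rw [div_mul_cancel₀ _ hq0, h3] at e
    simp only [Pi.add_apply, Pi.smul_apply, smul_eq_mul, h3] at e
    have e2 : D (algebraMap PP KK p / algebraMap PP KK q) k = (algebraMap PP KK q)⁻¹ *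
        (algebraMap PP KK (MvPolynomial.pderiv k p) - algebraMap PP KK p / algebraMap PP KK q *
          algebraMap PP KK (MvPolynomial.pderiv k q)) := by
      rw [e]; field_simp; ring
    rw [e2]
    exact R0.mul_mem hqi (R0.sub_mem (alg_mem _) (R0.mul_mem hf (alg_mem _)))

end Pool.Agent.Lib.FS80
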