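import Pool.Agent.Lib.FS80.Blue

namespace Pool.Agent.Lib.FS80

theorem bFIN (hWV : WV) (hMEM : MEM) (hSUP : SUP) (hICL : ICL) (hFS : FS) (hNFS : NFS)
    (hUP : UP) (hLOW : LOW) : FIN := by
  choose v hv using hWV
  refine ⟨MI A0, hSUP.2.2 _, ?_, ?_, ?_, hFS, fun c h1 h2 => ?_⟩
  · unfold MI gen
    rw [Submodule.span_eq]
  · intro h
    have h3 : mon ![0, 3, 0] ∈ MI A0 :=
      Submodule.subset_span ⟨_, by simp [A0, dot, Fin.sum_univ_three], rfl⟩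
    rw [h] at h3
    exact Finset.prod_ne_zero_iff.2 (fun i _ => pow_ne_zero _ (xx_ne i)) h3
  · intro f hf
    let w : Fin 4 → Fin 3 → ℕ := ![![1, 1, 1], ![1, 2, 2], ![2, 3, 4], ![4, 6, 7]]
    let t : Fin 4 → ℕ := ![3, 5, 9, 18]
    have hA : A0 = {a | ∀ i, t i ≤ dot (w i) a} := by
      ext a
      simp [A0, w, t, Fin.forall_fin_succ]
    rw [hA]
    refine hSUP.1 (Fin 4) w (fun i => v (w i)) t (fun i => hv _) f hf.1 fun hf0 i => ?_
    refine hICL (w i) (v (w i)) (hv _) (MI A0) (t i) ?_ f hf hf0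
    exact (hMEM _ _ (hv _)).2.2.2 A0 (t i) fun a ha => (hA ▸ ha : a ∈ {a | ∀ i, t i ≤ dot (w i) a}) i
  · exact hNFS _ (hLOW c (by linarith) h2) (hUP c h1)

end Pool.Agent.Lib.FS80
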