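import Pool.Agent.Lib.FS80.Blue2

namespace Pool.Agent.Lib.FS80

theorem bFIN2 (hWV : WV) (hMEM : MEM) (hSUP : SUP) (hICL : ICL) (hNUM : NUM) (hFS : FS2)
    (hNFS : NFSB) (hUP : UP2) (hLOW : LOW2) (c : ℝ) (hc : 0 < c) (h2 : ∀ k : ℤ, 2 * c ≠ k)
    (h3 : ∀ k : ℤ, 3 * c ≠ k) : ∃ I : Set KK, I ⊆ R0 ∧ gen R0 I = I ∧ I ≠ {0} ∧
      icl R0 I ⊆ I ∧ (supp R0 I).Finite ∧ ¬ (supp R0 (adj c R0 I)).Finite := by
  choose v hv using hWV
  obtain ⟨n, m, u, hm, hn, hu, hu'⟩ := hNUM c hc h2 h3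
  have h5 : 5 ≤ u := by
    have h1 : (5 : ℝ) * m ≤ n := by exact_mod_cast hn
    have h4 : (4 : ℝ) < u := by nlinarith
    have h4' : 4 < u := by exact_mod_cast h4
    omega
  refine ⟨MI (A2 n m), hSUP.2.2 _, ?_, ?_, ?_, hFS n m hn, ?_⟩
  · unfold MI gen
    rw [Submodule.span_eq]
  · intro h
    have h3 : mon ![0, n, 0] ∈ MI (A2 n m) :=
      Submodule.subset_span ⟨_, by simp [A2, dot, Fin.sum_univ_three], rfl⟩
    rw [h] at h3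
    exact Finset.prod_ne_zero_iff.2 (fun i _ => pow_ne_zero _ (xx_ne i)) h3
  · intro f hf
    let w : Fin 6 → Fin 3 → ℕ :=
      ![![1, 1, 1], ![1, 2, 2], ![2, 3, 4], ![4, 6, 7], ![6, 9, 10], ![8, 12, 13]]
    let t : Fin 6 → ℕ := ![n, 2 * n - m, 3 * n, 6 * n, 9 * n, 12 * n]
    have hA : A2 n m = {a | ∀ i, t i ≤ dot (w i) a} := by
      ext a
      simp [A2, w, t, Fin.forall_fin_succ]
    rw [hA]
    refine hSUP.1 (Fin 6) w (fun i => v (w i)) t (fun i => hv _) f hf.1 fun hf0 i => ?_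
    refine hICL (w i) (v (w i)) (hv _) (MI (A2 n m)) (t i) ?_ f hf hf0
    exact (hMEM _ _ (hv _)).2.2.2 (A2 n m) (t i)
      fun a ha => (hA ▸ ha : a ∈ {a | ∀ i, t i ≤ dot (w i) a}) i
  · refine hNFS _ _ (u - 2) (hLOW c n m u h5 hm hn hu') ?_ (hUP c n m u h5 hu)
    simp [sz, Fin.sum_univ_three]
    omega

end Pool.Agent.Lib.FS80
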