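import Pool.Agent.Lib.FS80.Blue

/-! The ideal of the example is finitely supported. -/

namespace Pool.Agent.Lib.FS80

namespace FS_

lemma mem0 (a : Fin 3 → ℕ) : a ∈ A0 ↔ 3 ≤ a 0 + a 1 + a 2 ∧ 5 ≤ a 0 + 2 * a 1 + 2 * a 2 ∧
    9 ≤ 2 * a 0 + 3 * a 1 + 4 * a 2 ∧ 18 ≤ 4 * a 0 + 6 * a 1 + 7 * a 2 := by
  simp [A0, dot, Fin.sum_univ_three]

lemma sz3 (a : Fin 3 → ℕ) : sz a = a 0 + a 1 + a 2 := by
  simp [sz, Fin.sum_univ_three]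

lemma m030 : ![0, 3, 0] ∈ A0 := (mem0 _).2 (by decide)
lemma m003 : ![0, 0, 3] ∈ A0 := (mem0 _).2 (by decide)
lemma m500 : ![5, 0, 0] ∈ A0 := (mem0 _).2 (by decide)
lemma m102 : ![1, 0, 2] ∈ A0 := (mem0 _).2 (by decide)
lemma m310 : ![3, 1, 0] ∈ A0 := (mem0 _).2 (by decide)

end FS_

open FS_ in
theorem bFS (hU : UNIT) (hS : STEP) : FS := by
  refine hS 0 A0 3 (fun a ha => ?_) (fun j hj => ?_) ?_
  · rw [sz3]
    exact ((mem0 a).1 ha).1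
  · fin_cases j
    · exact absurd rfl hj
    · exact (mem0 _).2 (by decide)
    · exact (mem0 _).2 (by decide)
  refine hS 1 _ 2 ?_ (fun j hj => ?_) ?_
  · rintro _ ⟨a, ha, rfl⟩
    have h := (mem0 a).1 ha
    simp [TT, sz3]
    omega
  · fin_cases j
    · exact ⟨_, m500, by decide⟩
    · exact absurd rfl hj
    · exact ⟨_, m102, by decide⟩
  refine hS 2 _ 1 ?_ (fun j hj => ?_) ?_
  · rintro _ ⟨_, ⟨a, ha, rfl⟩, rfl⟩
    have h := (mem0 a).1 ha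
    simp [TT, sz3]
    omega
  · fin_cases j
    · exact ⟨_, ⟨_, m310, rfl⟩, by decide⟩
    · exact ⟨_, ⟨_, m030, rfl⟩, by decide⟩
    · exact absurd rfl hj
  refine hS 0 _ 1 ?_ (fun j hj => ?_) ?_
  · rintro _ ⟨_, ⟨_, ⟨a, ha, rfl⟩, rfl⟩, rfl⟩
    have h := (mem0 a).1 ha
    simp [TT, sz3]
    omega
  · fin_cases j
    · exact absurd rfl hj
    · exact ⟨_, ⟨_, ⟨_, m030, rfl⟩, rfl⟩, by decide⟩
    · exact ⟨_, ⟨_, ⟨_, m102, rfl⟩, rfl⟩, by decide⟩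
  rw [hU.1]
  · exact Set.finite_empty
  · refine Submodule.subset_span ⟨0, ⟨_, ⟨_, ⟨_, ⟨_, m310, rfl⟩, rfl⟩, rfl⟩, by decide⟩, ?_⟩
    simp [mon]

end Pool.Agent.Lib.FS80
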