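import Pool.Agent.Lib.FS80.Blue2

/-! The ideals of the two-parameter family are finitely supported. -/

namespace Pool.Agent.Lib.FS80

namespace FS2_

lemma mem2 (n m : ℕ) (a : Fin 3 → ℕ) : a ∈ A2 n m ↔ n ≤ a 0 + a 1 + a 2 ∧
    2 * n - m ≤ a 0 + 2 * a 1 + 2 * a 2 ∧ 3 * n ≤ 2 * a 0 + 3 * a 1 + 4 * a 2 ∧
    6 * n ≤ 4 * a 0 + 6 * a 1 + 7 * a 2 ∧ 9 * n ≤ 6 * a 0 + 9 * a 1 + 10 * a 2 ∧
    12 * n ≤ 8 * a 0 + 12 * a 1 + 13 * a 2 := by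
  simp [A2, dot, Fin.sum_univ_three]

lemma sz3 (a : Fin 3 → ℕ) : sz a = a 0 + a 1 + a 2 := by
  simp [sz, Fin.sum_univ_three]

lemma t0 (r p q s : ℕ) : TT 0 r ![p, q, s] = ![p + q + s - r, q, s] := by
  funext k; fin_cases k <;> simp [TT, sz3]

lemma t1 (r p q s : ℕ) : TT 1 r ![p, q, s] = ![p, p + q + s - r, s] := by
  funext k; fin_cases k <;> simp [TT, sz3]

lemma t2 (r p q s : ℕ) : TT 2 r ![p, q, s] = ![p, q, p + q + s - r] := by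
  funext k; fin_cases k <;> simp [TT, sz3]

lemma s0 (r : ℕ) : (Pi.single 0 r : Fin 3 → ℕ) = ![r, 0, 0] := by
  funext k; fin_cases k <;> simp

lemma s1 (r : ℕ) : (Pi.single 1 r : Fin 3 → ℕ) = ![0, r, 0] := by
  funext k; fin_cases k <;> simp

lemma s2 (r : ℕ) : (Pi.single 2 r : Fin 3 → ℕ) = ![0, 0, r] := by
  funext k; fin_cases k <;> simp

lemma ve {p q s p' q' s' : ℕ} (h0 : p = p') (h1 : q = q') (h2 : s = s') :
    (![p, q, s] : Fin 3 → ℕ) = ![p', q', s'] := by rw [h0, h1, h2]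

lemma i0 {A : Set (Fin 3 → ℕ)} {r p q s p' : ℕ} (h : ![p, q, s] ∈ A) (e : p + q + s - r = p') :
    ![p', q, s] ∈ TT 0 r '' A := ⟨_, h, by rw [t0, e]⟩

lemma i1 {A : Set (Fin 3 → ℕ)} {r p q s q' : ℕ} (h : ![p, q, s] ∈ A) (e : p + q + s - r = q') :
    ![p, q', s] ∈ TT 1 r '' A := ⟨_, h, by rw [t1, e]⟩

lemma i2 {A : Set (Fin 3 → ℕ)} {r p q s s' : ℕ} (h : ![p, q, s] ∈ A) (e : p + q + s - r = s') :
    ![p, q, s'] ∈ TT 2 r '' A := ⟨_, h, by rw [t2, e]⟩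

lemma st0 (hS : STEP) {A : Set (Fin 3 → ℕ)} {r : ℕ} (h : ∀ a ∈ A, r ≤ sz a) (h1 : ![0, r, 0] ∈ A)
    (h2 : ![0, 0, r] ∈ A) (hf : (supp R0 (MI (TT 0 r '' A))).Finite) : (supp R0 (MI A)).Finite :=
  hS 0 A r h (fun j hj => by
    fin_cases j
    · exact absurd rfl hj
    · exact (s1 r).symm ▸ h1
    · exact (s2 r).symm ▸ h2) hf

lemma st1 (hS : STEP) {A : Set (Fin 3 → ℕ)} {r : ℕ} (h : ∀ a ∈ A, r ≤ sz a) (h1 : ![r, 0, 0] ∈ A)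
    (h2 : ![0, 0, r] ∈ A) (hf : (supp R0 (MI (TT 1 r '' A))).Finite) : (supp R0 (MI A)).Finite :=
  hS 1 A r h (fun j hj => by
    fin_cases j
    · exact (s0 r).symm ▸ h1
    · exact absurd rfl hj
    · exact (s2 r).symm ▸ h2) hf

lemma st2 (hS : STEP) {A : Set (Fin 3 → ℕ)} {r : ℕ} (h : ∀ a ∈ A, r ≤ sz a) (h1 : ![r, 0, 0] ∈ A)
    (h2 : ![0, r, 0] ∈ A) (hf : (supp R0 (MI (TT 2 r '' A))).Finite) : (supp R0 (MI A)).Finite :=
  hS 2 A r h (fun j hj => by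
    fin_cases j
    · exact (s0 r).symm ▸ h1
    · exact (s1 r).symm ▸ h2
    · exact absurd rfl hj) hf

end FS2_

open FS2_ in
theorem bFS2 (hU : UNIT) (hS : STEP) : FS2 := by
  intro n m hn
  have y0 : ![0, n, 0] ∈ A2 n m := (mem2 _ _ _).2 (by simp)
  have z0 : ![0, 0, n] ∈ A2 n m := (mem2 _ _ _).2 (by simp; omega)
  have x0 : ![2 * n - m, 0, 0] ∈ A2 n m := (mem2 _ _ _).2 (by simp; omega)
  have v0 : ![m, 0, n - m] ∈ A2 n m := (mem2 _ _ _).2 (by simp; omega)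
  have w0 : ![3 * m, n - 2 * m, 0] ∈ A2 n m := (mem2 _ _ _).2 (by simp; omega)
  have g0 : ![m, n - 5 * m, 4 * m] ∈ A2 n m := (mem2 _ _ _).2 (by simp; omega)
  have y2 := i1 (r := n - m) (q' := m) (i0 (r := n) (p' := 0) y0 (by omega)) (by omega)
  have w2 := i1 (r := n - m) (q' := 0) (i0 (r := n) (p' := m) w0 (by omega)) (by omega)
  have g2 := i1 (r := n - m) (q' := 0) (i0 (r := n) (p' := 0) g0 (by omega)) (by omega)
  have y3 := i2 (r := m) (s' := 0) y2 (by omega)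
  have w3 := i2 (r := m) (s' := 0) w2 (by omega)
  have y4 := i2 (r := m) (s' := 0) y3 (by omega)
  have w4 := i2 (r := m) (s' := 0) w3 (by omega)
  have y5 := i2 (r := m) (s' := 0) y4 (by omega)
  have w5 := i2 (r := m) (s' := 0) w4 (by omega)
  have g5 := i2 (r := m) (s' := m) (i2 (r := m) (s' := 2 * m) (i2 (r := m) (s' := 3 * m) g2
    (by omega)) (by omega)) (by omega)
  refine st0 hS (fun a ha => by rw [sz3]; exact ((mem2 _ _ a).1 ha).1) y0 z0 ?_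
  refine st1 hS ?_ (i0 (r := n) (p' := n - m) x0 (by omega))
    (i0 (r := n) (p' := 0) v0 (by omega)) ?_
  · rintro _ ⟨a, ha, rfl⟩
    have h := (mem2 _ _ a).1 ha
    simp [TT, sz3]
    omega
  refine st2 hS ?_ w2 y2 ?_
  · rintro _ ⟨_, ⟨a, ha, rfl⟩, rfl⟩
    have h := (mem2 _ _ a).1 ha
    simp [TT, sz3]
    omega
  refine st2 hS ?_ w3 y3 ?_
  · rintro _ ⟨_, ⟨_, ⟨a, ha, rfl⟩, rfl⟩, rfl⟩
    have h := (mem2 _ _ a).1 ha
    simp [TT, sz3]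
    omega
  refine st2 hS ?_ w4 y4 ?_
  · rintro _ ⟨_, ⟨_, ⟨_, ⟨a, ha, rfl⟩, rfl⟩, rfl⟩, rfl⟩
    have h := (mem2 _ _ a).1 ha
    simp [TT, sz3]
    omega
  refine st0 hS ?_ y5 g5 ?_
  · rintro _ ⟨_, ⟨_, ⟨_, ⟨_, ⟨a, ha, rfl⟩, rfl⟩, rfl⟩, rfl⟩, rfl⟩
    have h := (mem2 _ _ a).1 ha
    simp [TT, sz3]
    omega
  rw [hU.1]
  · exact Set.finite_empty
  · refine Submodule.subset_span ⟨_, i0 (r := m) (p' := 0) w5 (by omega), ?_⟩
    simp [mon, Fin.prod_univ_three]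

end Pool.Agent.Lib.FS80
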