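import Pool.Agent.Lib.FS80.Blue

namespace Pool.Agent.Lib.FS80

namespace ICL_

variable {w : Fin 3 → ℕ} {v : KK → ℤ}

theorem v_one (h : IsWV w v) : v 1 = 0 := by
  have h1 := h.1 1 1 one_ne_zero one_ne_zero
  rw [mul_one] at h1
  omega

theorem v_pow (h : IsWV w v) {f : KK} (hf : f ≠ 0) (n : ℕ) : v (f ^ n) = n * v f := by
  induction n with
  | zero => rw [pow_zero, v_one h, Nat.cast_zero, zero_mul]
  | succ n ih => rw [pow_succ, h.1 _ _ (pow_ne_zero n hf) hf, ih, Nat.cast_succ, add_mul, one_mul]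

theorem ge_mul (h : IsWV w v) {f g : KK} {m n : ℤ} (hf : f = 0 ∨ m ≤ v f)
    (hg : g = 0 ∨ n ≤ v g) : f * g = 0 ∨ m + n ≤ v (f * g) := by
  by_cases hf0 : f = 0
  · exact Or.inl (by rw [hf0, zero_mul])
  by_cases hg0 : g = 0
  · exact Or.inl (by rw [hg0, mul_zero])
  rw [h.1 f g hf0 hg0]
  exact Or.inr (add_le_add (hf.resolve_left hf0) (hg.resolve_left hg0))

/-- the elements of value at least `n` -/
def G (h : IsWV w v) (h0 : ∀ f ∈ R0, f ≠ 0 → 0 ≤ v f) (n : ℤ) : Submodule R0 KK where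
  carrier := {g | g = 0 ∨ n ≤ v g}
  zero_mem' := Or.inl rfl
  add_mem' := by
    intro a b ha hb
    by_cases ha0 : a = 0
    · rw [ha0, zero_add]; exact hb
    by_cases hb0 : b = 0
    · rw [hb0, add_zero]; exact ha
    by_cases hab : a + b = 0
    · exact Or.inl hab
    exact Or.inr ((le_min (ha.resolve_left ha0) (hb.resolve_left hb0)).trans (h.2.1 a b ha0 hb0 hab))
  smul_mem' := by
    intro c x hx
    have hc : (c : KK) = 0 ∨ 0 ≤ v (c : KK) := or_iff_not_imp_left.2 (h0 c c.2)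
    have h1 := ge_mul h hc hx
    rw [zero_add] at h1
    exact h1

theorem pw_ge (h : IsWV w v) (h0 : ∀ f ∈ R0, f ≠ 0 → 0 ≤ v f) (J : Set KK) (t : ℤ)
    (hJ : ∀ f ∈ J, f ≠ 0 → t ≤ v f) (r : ℕ) : Submodule.span R0 J ^ r ≤ G h h0 (r * t) := by
  have h1 : Submodule.span R0 J ≤ G h h0 t :=
    Submodule.span_le.2 fun f hf => or_iff_not_imp_left.2 (hJ f hf)
  induction r with
  | zero =>
    rw [pow_zero, Submodule.one_le]
    exact Or.inr (by rw [v_one h, Nat.cast_zero, zero_mul])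
  | succ r ih =>
    rw [pow_succ, Submodule.mul_le]
    intro a ha b hb
    have h2 := ge_mul h (ih ha) (h1 hb)
    rw [Nat.cast_succ, add_mul, one_mul]
    exact h2

end ICL_

theorem bICL (hMEM : MEM) : ICL := by
  intro w v h J t hJ f hf hf0
  obtain ⟨-, n, c, hc, he⟩ := hf
  have h0 := (hMEM w v h).2.2.1
  by_contra hlt
  have hlt' : v f + 1 ≤ t := by omega
  have hs : ∑ i ∈ Finset.range (n + 1), c i * f ^ (n - i) ∈
      ICL_.G h h0 (((n + 1 : ℕ) : ℤ) * v f + 1) := by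
    refine Submodule.sum_mem _ fun i hi => ?_
    have hi' : i ≤ n := Nat.lt_succ_iff.1 (Finset.mem_range.1 hi)
    have h1 := ICL_.ge_mul h (ICL_.pw_ge h h0 J t hJ (i + 1) (hc i))
      (Or.inr (ICL_.v_pow h hf0 (n - i)).ge)
    refine h1.imp_right fun h2 => le_trans ?_ h2
    have h3 : ((i + 1 : ℕ) : ℤ) * (v f + 1) ≤ ((i + 1 : ℕ) : ℤ) * t :=
      mul_le_mul_of_nonneg_left hlt' (Nat.cast_nonneg _)
    have h4 : (0 : ℤ) ≤ i := Nat.cast_nonneg i
    rw [Nat.cast_sub hi']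
    rw [Nat.cast_succ] at h3 ⊢
    rw [Nat.cast_succ]
    linarith
  have h5 := (ICL_.G h h0 _).neg_mem hs
  rw [← eq_neg_of_add_eq_zero_left he] at h5
  rcases h5 with h6 | h6
  · exact pow_ne_zero _ hf0 h6
  · rw [ICL_.v_pow h hf0] at h6
    omega

end Pool.Agent.Lib.FS80
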