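import Pool.Agent.Lib.FS80.Blue

/-! The log discrepancy bound. -/

namespace Pool.Agent.Lib.FS80

namespace LD_

theorem xx_mem (i : Fin 3) : xx i ∈ R0 :=
  Subring.subset_closure ⟨MvPolynomial.X i, 1, by simp, by simp [xx]⟩

theorem xx_ne (i : Fin 3) : xx i ≠ 0 := by
  unfold xx
  exact (map_ne_zero_iff _ (IsFractionRing.injective (MvPolynomial (Fin 3) ℚ) KK)).2
    (MvPolynomial.X_ne_zero i)

theorem expand {K : Type} [Field K] (l : Matrix (Fin 3) (Fin 3) K) (α a x : Fin 3 → K) (p : K)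
    (hp : p ≠ 0) (hx : ∀ i, x i ≠ 0)
    (h : ∀ i k, l i k = (if i = k then 1 else 0) / x i - a i * α k / p) :
    p / (x 0 * x 1 * x 2) = p * l.det + a 0 * (l.updateRow 0 α).det +
      a 1 * (l.updateRow 1 α).det + a 2 * (l.updateRow 2 α).det := by
  have h0 := hx 0
  have h1 := hx 1
  have h2 := hx 2
  simp [Matrix.det_fin_three, Matrix.updateRow_apply, h]
  field_simp
  ring

end LD_

theorem bLD (hD : DER) (hL : LIFT) (hN : LIN) : LD := by
  intro V h hPD j hj q hq
  obtain ⟨D, hDx, hDR⟩ := hD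
  obtain ⟨-, hval, hdvr, -⟩ := hPD
  obtain ⟨n, P, N, rfl, hNV, hrel, hlat⟩ := hL D hDR V h j hj
  obtain ⟨p, hp⟩ := IsDiscreteValuationRing.exists_irreducible V
  have hp0 : (p : KK) ≠ 0 := fun e => hp.ne_zero (Subtype.ext e)
  have hfac : ∀ i, ∃ (a : ℕ) (u : Vˣ), (⟨xx i, h (LD_.xx_mem i)⟩ : V) = u * p ^ a := fun i =>
    IsDiscreteValuationRing.eq_unit_mul_pow_irreducible
      (fun e => LD_.xx_ne i (congrArg Subtype.val e)) hp
  choose a u hu using hfac
  have hx : ∀ i, xx i = ((u i : V) : KK) * (p : KK) ^ a i := fun i => by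
    simpa using congrArg Subtype.val (hu i)
  have huw : ∀ i, (((u i)⁻¹ : Vˣ) : V) * ((u i : V) : KK) = 1 := fun i => by
    exact_mod_cast congrArg Subtype.val (u i).inv_mul
  obtain ⟨w, hw⟩ : ∃ w : V, q = p * w := by
    obtain ⟨hqV, hq0⟩ := hq
    have hnu : ¬ IsUnit (⟨q, hqV⟩ : V) := by
      intro hu'
      obtain ⟨r, hr⟩ := hu'.exists_right_inv
      have e : q * (r : KK) = 1 := congrArg Subtype.val hr
      rcases hq0 with h0 | h0
      · simp [h0] at e
      · exact h0 (eq_inv_of_mul_eq_one_right e ▸ r.2)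
    have hm : (⟨q, hqV⟩ : V) ∈ Ideal.span {p} := hp.maximalIdeal_eq ▸ hnu
    obtain ⟨w, hw⟩ := Ideal.mem_span_singleton.1 hm
    exact ⟨w, congrArg Subtype.val hw⟩
  let α : Fin 3 → KK := fun k => D k p
  let l : Matrix (Fin 3) (Fin 3) KK := fun i => (((u i)⁻¹ : Vˣ) : V) • fun k => D k (u i : V)
  have hα : α ∈ lat V P := hlat _ p.2
  have hl : ∀ i, l i ∈ lat V P := fun i => Submodule.smul_mem _ _ (hlat _ (u i : V).2)
  have hup : ∀ i, N.det * (l.updateRow i α).det ∈ V := fun i =>
    hN V hval n P N hNV hrel _ fun m => by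
      by_cases e : m = i
      · rw [e, Matrix.updateRow_self]
        exact hα
      · rw [Matrix.updateRow_ne e]
        exact hl m
  have hpow : ∀ (k : Fin 3) (m : ℕ), (p : KK) * D k ((p : KK) ^ m) = m * (p : KK) ^ m * D k p := by
    intro k m
    induction m with
    | zero => simp
    | succ m ih =>
      rw [pow_succ, Derivation.leibniz, smul_eq_mul, smul_eq_mul]
      push_cast
      linear_combination (p : KK) * ih
  have hform : ∀ i k, l i k = (if i = k then 1 else 0) / xx i - (a i : KK) * α k / p := by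
    intro i k
    have e1 := hDx k i
    rw [hx i, Derivation.leibniz, smul_eq_mul, smul_eq_mul] at e1
    have hu0 : ((u i : V) : KK) ≠ 0 := right_ne_zero_of_mul_eq_one (huw i)
    change ((((u i)⁻¹ : Vˣ) : V) : KK) * D k (u i : V) = _
    rw [← e1, hx i, eq_inv_of_mul_eq_one_left (huw i)]
    have e2 := hpow k (a i)
    simp only [α]
    field_simp
    linear_combination -((u i : V) : KK) * e2
  have key := LD_.expand l α (fun i => (a i : KK)) xx p hp0 LD_.xx_ne hform
  have e : N.det * q / (xx 0 * xx 1 * xx 2) = w * (p * (N.det * l.det) +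
      a 0 * (N.det * (l.updateRow 0 α).det) + a 1 * (N.det * (l.updateRow 1 α).det) +
      a 2 * (N.det * (l.updateRow 2 α).det)) := by
    rw [hw]
    linear_combination N.det * (w : KK) * key
  rw [e]
  exact mul_mem w.2 (add_mem (add_mem (add_mem (mul_mem p.2 (hN V hval n P N hNV hrel l hl))
    (mul_mem (natCast_mem V _) (hup 0))) (mul_mem (natCast_mem V _) (hup 1)))
    (mul_mem (natCast_mem V _) (hup 2)))

end Pool.Agent.Lib.FS80
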