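import Pool.Agent.Lib.FS80.Blue

/-! The gradient, read modulo integral vectors, factors through the differentials. -/

namespace Pool.Agent.Lib.FS80

namespace LIFT_

/-- vectors with entries in `V` -/
def W (V : Subring KK) : Submodule V (Fin 3 → KK) where
  carrier := {u | ∀ k, u k ∈ V}
  add_mem' ha hb k := V.add_mem (ha k) (hb k)
  zero_mem' _ := V.zero_mem
  smul_mem' c _ hu k := V.mul_mem c.2 (hu k)

end LIFT_

open LIFT_ in
theorem bLIFT : LIFT := by
  intro D hD V h j hj
  obtain ⟨n, g, N, hg, hN, rfl⟩ := hj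
  let _ : Algebra R0 V := (Subring.inclusion h).toAlgebra
  let _ : Module R0 ((Fin 3 → KK) ⧸ W V) := Module.compHom _ (algebraMap R0 V)
  have : IsScalarTower R0 V ((Fin 3 → KK) ⧸ W V) :=
    ⟨fun r v q => mul_smul (algebraMap R0 V r) v q⟩
  let L : V →ₗ[R0] (Fin 3 → KK) ⧸ W V :=
    { toFun := fun f => (W V).mkQ fun k => D k f
      map_add' := fun a b => by
        rw [← map_add]
        exact congrArg _ (funext fun k => map_add (D k) (a : KK) b)
      map_smul' := fun r f => by
        change _ = (algebraMap R0 V r) • (W V).mkQ fun k => D k f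
        rw [← map_smul, ← sub_eq_zero, ← map_sub, Submodule.mkQ_apply,
          Submodule.Quotient.mk_eq_zero]
        intro k
        change D k ((r : KK) * f) - (r : KK) * D k f ∈ V
        rw [Derivation.leibniz, smul_eq_mul, smul_eq_mul, add_sub_cancel_left]
        exact V.mul_mem f.2 (h (hD k r r.2)) }
  let δ : Derivation R0 V ((Fin 3 → KK) ⧸ W V) := Derivation.mk' L fun a b => by
    change (W V).mkQ _ = a • (W V).mkQ _ + b • (W V).mkQ _
    rw [← map_smul, ← map_smul, ← map_add]
    exact congrArg _ (funext fun k => (D k).leibniz (a : KK) b)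
  have hφ : ∀ f : V, δ.liftKaehlerDifferential (KaehlerDifferential.D R0 V f) =
      (W V).mkQ fun k => D k f := fun f => δ.liftKaehlerDifferential_comp_D f
  choose P hP using fun b => (W V).mkQ_surjective (δ.liftKaehlerDifferential (g b))
  have hsum : ∀ c : Fin n → V, (W V).mkQ (∑ b, c b • P b) =
      δ.liftKaehlerDifferential (∑ b, c b • g b) := fun c => by
    rw [map_sum, map_sum]
    exact Finset.sum_congr rfl fun b _ => by rw [map_smul, map_smul, hP]
  refine ⟨n, P, N.map V.subtype, V.subtype.map_det N, fun a b => (N a b).2, fun a k => ?_,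
    fun f hf => ?_⟩
  · have h1 := hsum (N a)
    rw [hN a, map_zero, Submodule.mkQ_apply, Submodule.Quotient.mk_eq_zero] at h1
    have h2 := h1 k
    rw [Finset.sum_apply] at h2
    exact h2
  · have hm : KaehlerDifferential.D R0 V ⟨f, hf⟩ ∈ Submodule.span V (Set.range g) := by
      rw [hg]
      exact Submodule.mem_top
    obtain ⟨c, hc⟩ := (Submodule.mem_span_range_iff_exists_fun V).1 hm
    have h1 := hsum c
    rw [hc, hφ, eq_comm, ← sub_eq_zero, ← map_sub, Submodule.mkQ_apply,
      Submodule.Quotient.mk_eq_zero] at h1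
    have h2 : ((fun k => D k f) - ∑ b, c b • P b) + ∑ b, c b • P b ∈
        Submodule.span V (Set.range P ∪ {u | ∀ k, u k ∈ V}) :=
      Submodule.add_mem _ (Submodule.subset_span (Or.inr h1)) (Submodule.sum_mem _ fun b _ =>
        Submodule.smul_mem _ _ (Submodule.subset_span (Or.inl ⟨b, rfl⟩)))
    rw [sub_add_cancel] at h2
    exact h2

end Pool.Agent.Lib.FS80
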