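import Pool.Agent.Lib.FS80.Blue

namespace Pool.Agent.Lib.FS80

namespace LIN_

theorem det_mem {ι : Type} [Fintype ι] [DecidableEq ι] (V : Subring KK) (M : Matrix ι ι KK)
    (h : ∀ a b, M a b ∈ V) : M.det ∈ V := by
  rw [Matrix.det_apply']
  refine V.sum_mem fun σ _ => V.mul_mem (intCast_mem V _) ?_
  exact V.prod_mem fun i _ => h _ _

theorem split (V : Subring KK) {n : ℕ} (P : Fin n → Fin 3 → KK) (u : Fin 3 → KK)
    (hu : u ∈ lat V P) : ∃ (A : Fin n → KK) (G : Fin 3 → KK), (∀ b, A b ∈ V) ∧ (∀ k, G k ∈ V) ∧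
      ∀ k, u k = ∑ b, A b * P b k + G k := by
  unfold lat at hu
  induction hu using Submodule.span_induction with
  | mem x hx =>
    rcases hx with ⟨j, rfl⟩ | hx
    · refine ⟨fun b => if b = j then 1 else 0, 0, fun b => ?_, fun _ => V.zero_mem, fun k => ?_⟩
      · by_cases hb : b = j
        · simp only [hb, if_true]
          exact V.one_mem
        · simp only [hb, if_false]
          exact V.zero_mem
      · simp
    · exact ⟨0, x, fun _ => V.zero_mem, hx, fun k => by simp⟩
  | zero => exact ⟨0, 0, fun _ => V.zero_mem, fun _ => V.zero_mem, fun k => by simp⟩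
  | add x y _ _ hx hy =>
    obtain ⟨A, G, hA, hG, e⟩ := hx
    obtain ⟨A', G', hA', hG', e'⟩ := hy
    refine ⟨A + A', G + G', fun b => V.add_mem (hA b) (hA' b), fun k => V.add_mem (hG k) (hG' k),
      fun k => ?_⟩
    simp only [Pi.add_apply, e k, e' k, add_mul, Finset.sum_add_distrib]
    ring
  | smul c x _ hx =>
    obtain ⟨A, G, hA, hG, e⟩ := hx
    refine ⟨fun b => (c : KK) * A b, fun k => (c : KK) * G k, fun b => V.mul_mem c.2 (hA b),
      fun k => V.mul_mem c.2 (hG k), fun k => ?_⟩
    have h : (c • x) k = (c : KK) * x k := rfl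
    rw [h, e k, mul_add, Finset.mul_sum]
    simp only [mul_assoc]

end LIN_

theorem bLIN : LIN := by
  intro V _ n P N hN hM l hl
  choose A G hA hG e using fun i => LIN_.split V P (l i) (hl i)
  have hlm : Matrix.of A * Matrix.of P + Matrix.of G = l := by
    ext i k
    rw [e i k, Matrix.add_apply, Matrix.mul_apply]
    rfl
  have key : Matrix.fromBlocks N (-(N * Matrix.of P)) (Matrix.of A) (Matrix.of G) *
      Matrix.fromBlocks (1 : Matrix (Fin n) (Fin n) KK) (Matrix.of P) 0
        (1 : Matrix (Fin 3) (Fin 3) KK) = Matrix.fromBlocks N 0 (Matrix.of A) l := by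
    rw [Matrix.fromBlocks_multiply, ← hlm]
    simp
  have hd := congrArg Matrix.det key
  rw [Matrix.det_mul, Matrix.det_fromBlocks_zero₂₁, Matrix.det_fromBlocks_zero₁₂, Matrix.det_one,
    Matrix.det_one, mul_one, mul_one] at hd
  rw [← hd]
  refine LIN_.det_mem V _ fun a b => ?_
  rcases a with a | a <;> rcases b with b | b
  · exact hN a b
  · exact V.neg_mem (hM a b)
  · exact hA a b
  · exact hG a b

end Pool.Agent.Lib.FS80
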