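import Pool.Agent.Lib.FS80.Blue

namespace Pool.Agent.Lib.FS80

namespace LOW_

theorem unif (V : Subring KK) (hV : IsDiscreteValuationRing V) : ∃ π : KK, π ∈ V ∧ π ≠ 0 ∧
    π⁻¹ ∉ V ∧ ∀ a ∈ V, a ≠ 0 → ∃ (k : ℕ) (u : KK), u ∈ V ∧ u⁻¹ ∈ V ∧ u ≠ 0 ∧ a = u * π ^ k := by
  obtain ⟨ϖ, hϖ⟩ := IsDiscreteValuationRing.exists_irreducible V
  have h0 : (ϖ : KK) ≠ 0 := fun h => hϖ.ne_zero (Subtype.ext h)
  refine ⟨ϖ, ϖ.2, h0, fun hi => hϖ.not_isUnit ?_, fun a ha ha0 => ?_⟩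
  · exact IsUnit.of_mul_eq_one (⟨_, hi⟩ : V) (Subtype.ext (mul_inv_cancel₀ h0))
  · obtain ⟨k, u, hu⟩ := IsDiscreteValuationRing.eq_unit_mul_pow_irreducible
      (x := (⟨a, ha⟩ : V)) (fun h => ha0 (congrArg Subtype.val h)) hϖ
    have h1 : ((u : V) : KK) * ((u⁻¹ : Vˣ) : V) = 1 := congrArg Subtype.val u.mul_inv
    refine ⟨k, (u : V), (u : V).2, ?_, left_ne_zero_of_mul_eq_one h1, congrArg Subtype.val hu⟩
    rw [← eq_inv_of_mul_eq_one_right h1]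
    exact ((u⁻¹ : Vˣ) : V).2

theorem mem_pw {V : Subring KK} {π : KK} (h1 : π ∈ V) (h2 : π⁻¹ ∉ V)
    (h3 : ∀ a ∈ V, a ≠ 0 → ∃ (k : ℕ) (u : KK), u ∈ V ∧ u⁻¹ ∈ V ∧ u ≠ 0 ∧ a = u * π ^ k)
    (r : ℕ) (f : KK) : f ∈ pw V (mx V) r ↔ ∃ g ∈ V, f = g * π ^ r := by
  have e : Submodule.span V (mx V) = Submodule.span V {π} := by
    refine le_antisymm (Submodule.span_le.2 fun a ha => ?_)
      (Submodule.span_mono (Set.singleton_subset_iff.2 ⟨h1, Or.inr h2⟩))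
    by_cases ha0 : a = 0
    · rw [ha0]
      exact Submodule.zero_mem _
    obtain ⟨k, u, hu, hu', -, rfl⟩ := h3 a ha.1 ha0
    cases k with
    | zero => exact absurd (by simpa using hu') (ha.2.resolve_left ha0)
    | succ k =>
      exact Submodule.mem_span_singleton.2 ⟨⟨u * π ^ k, V.mul_mem hu (V.pow_mem h1 k)⟩,
        (by rw [pow_succ, ← mul_assoc] : u * π ^ k * π = u * π ^ (k + 1))⟩
  unfold pw
  rw [e, Submodule.span_pow, Set.singleton_pow, SetLike.mem_coe, Submodule.mem_span_singleton]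
  exact ⟨fun ⟨g, hg⟩ => ⟨g, g.2, hg.symm⟩, fun ⟨g, hg, hf⟩ => ⟨⟨g, hg⟩, hf.symm⟩⟩

theorem le_exp {V : Subring KK} {π u g : KK} (h1 : π ∈ V) (h0 : π ≠ 0) (h2 : π⁻¹ ∉ V)
    (hu : u⁻¹ ∈ V) (hu0 : u ≠ 0) (hg : g ∈ V) {k n : ℕ} (h : u * π ^ k = g * π ^ n) : n ≤ k := by
  by_contra hlt
  obtain ⟨d, rfl⟩ : ∃ d, n = k + 1 + d := ⟨n - (k + 1), by omega⟩
  have e1 : u = g * π ^ d * π := mul_right_cancel₀ (pow_ne_zero k h0) (by rw [h]; ring)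
  have e2 : π⁻¹ = u⁻¹ * (g * π ^ d) := by
    rw [eq_inv_mul_iff_mul_eq₀ hu0, mul_inv_eq_iff_eq_mul₀ h0]
    exact e1
  exact h2 (e2 ▸ V.mul_mem hu (V.mul_mem hg (V.pow_mem h1 d)))

theorem mon_mem (a : Fin 3 → ℕ) (ha : a ∈ A0) : mon a ∈ MI A0 :=
  Submodule.subset_span ⟨a, ha, rfl⟩

end LOW_

open LOW_ in
theorem bLOW (hLD : LD) : LOW := by
  intro c hc0 hc
  refine ⟨alg_mem _, fun V h hPD j hj => ?_⟩
  obtain ⟨π, h1, h0, h2, h3⟩ := unif V hPD.2.2.1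
  have hx : ∀ i, xx i ∈ V := fun i => h (alg_mem _)
  rw [mem_pw h1 h2 h3]
  by_cases hn : ord V (MI A0) = 0
  · obtain ⟨n, g, N, -, -, rfl⟩ := hj
    exact ⟨_, V.mul_mem (hx 2) N.det.2, by rw [hn]; simp⟩
  have hI : MI A0 ⊆ pw V (mx V) (ord V (MI A0)) :=
    Nat.sSup_mem (s := {r | MI A0 ⊆ pw V (mx V) r})
      (Set.nonempty_iff_ne_empty.2 fun he => hn (by unfold ord; rw [he]; simp))
      (by_contra fun hb => hn (Nat.sSup_of_not_bddAbove hb))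
  obtain ⟨a, u0, hu0, hu0', n0, e0⟩ := h3 _ (hx 0) (xx_ne 0)
  obtain ⟨b, u1, hu1, hu1', n1, e1⟩ := h3 _ (hx 1) (xx_ne 1)
  obtain ⟨e, u2, hu2, hu2', n2, e2⟩ := h3 _ (hx 2) (xx_ne 2)
  obtain ⟨g1, hg1, k1⟩ := (mem_pw h1 h2 h3 _ _).1 (hI (mon_mem ![1, 0, 2]
    (by simp [A0, dot, Fin.sum_univ_three])))
  obtain ⟨g2, hg2, k2⟩ := (mem_pw h1 h2 h3 _ _).1 (hI (mon_mem ![0, 3, 0]
    (by simp [A0, dot, Fin.sum_univ_three])))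
  have m1 : mon ![1, 0, 2] = u0 * u2 ^ 2 * π ^ (a + 2 * e) := by
    have : mon ![1, 0, 2] = xx 0 * xx 2 ^ 2 := by simp [mon, Fin.prod_univ_three]
    rw [this, e0, e2]
    ring
  have m2 : mon ![0, 3, 0] = u1 ^ 3 * π ^ (3 * b) := by
    have : mon ![0, 3, 0] = xx 1 ^ 3 := by simp [mon, Fin.prod_univ_three]
    rw [this, e1]
    ring
  have l1 := le_exp h1 h0 h2 (u := u0 * u2 ^ 2) (by
    rw [mul_inv, ← inv_pow]
    exact V.mul_mem hu0' (V.pow_mem hu2' 2)) (mul_ne_zero n0 (pow_ne_zero 2 n2)) hg1 (m1.symm.trans k1)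
  have l2 := le_exp h1 h0 h2 (u := u1 ^ 3) (by
    rw [← inv_pow]
    exact V.pow_mem hu1' 3) (pow_ne_zero 3 n1) hg2 (m2.symm.trans k2)
  have l3 : ⌊c * (ord V (MI A0) : ℝ)⌋₊ < a + b + 2 * e := by
    rw [Nat.floor_lt (mul_nonneg hc0 (Nat.cast_nonneg _))]
    have p0 : (0 : ℝ) < ord V (MI A0) := Nat.cast_pos.2 (Nat.pos_of_ne_zero hn)
    have p1 : (4 * ord V (MI A0) : ℝ) ≤ 3 * ((a + b + 2 * e : ℕ) : ℝ) := by
      exact_mod_cast (by omega : 4 * ord V (MI A0) ≤ 3 * (a + b + 2 * e))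
    have p2 := mul_lt_mul_of_pos_right hc p0
    linarith
  obtain ⟨d, hd⟩ : ∃ d, a + b + 2 * e = ⌊c * (ord V (MI A0) : ℝ)⌋₊ + 1 + d := ⟨_, (Nat.add_sub_of_le l3).symm⟩
  have hw := hLD V h hPD j hj π ⟨h1, Or.inr h2⟩
  refine ⟨j * π / (xx 0 * xx 1 * xx 2) * (u0 * u1 * u2 ^ 2 * π ^ d),
    V.mul_mem hw (V.mul_mem (V.mul_mem (V.mul_mem hu0 hu1) (V.pow_mem hu2 2)) (V.pow_mem h1 d)), ?_⟩
  have q : xx 0 * xx 1 * xx 2 * xx 2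
      = u0 * u1 * u2 ^ 2 * π ^ d * π ^ ⌊c * (ord V (MI A0) : ℝ)⌋₊ * π := by
    have q1 : xx 0 * xx 1 * xx 2 * xx 2 = u0 * u1 * u2 ^ 2 * π ^ (a + b + 2 * e) := by
      rw [e0, e1, e2]
      ring
    rw [q1, hd]
    ring
  have hne : xx 0 * xx 1 * xx 2 ≠ 0 := mul_ne_zero (mul_ne_zero (xx_ne 0) (xx_ne 1)) (xx_ne 2)
  rw [div_mul_eq_mul_div, div_mul_eq_mul_div, eq_div_iff hne]
  linear_combination j * q

end Pool.Agent.Lib.FS80
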