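import Pool.Agent.Lib.FS80.Blue2
import Pool.Agent.Lib.FS80.B_LOW

namespace Pool.Agent.Lib.FS80

open LOW_ in
theorem bLOW2 (hLD : LD) : LOW2 := by
  intro c n m u hu hm hn5 hc
  have hc0 : 0 ≤ c := by
    by_contra hneg
    have := mul_nonpos_of_nonpos_of_nonneg (not_le.1 hneg).le (Nat.cast_nonneg (α := ℝ) m)
    linarith
  have hm0 : 0 < m := Nat.pos_of_ne_zero fun e => by
    rw [e] at hm
    norm_num at hm
  have hmu : n ≤ m * (u + 1) := by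
    have a1 : (0 : ℝ) ≤ n := Nat.cast_nonneg n
    have a2 : (0 : ℝ) ≤ m := Nat.cast_nonneg m
    have : (n : ℝ) ≤ m * (u + 1) := by nlinarith
    exact_mod_cast this
  have mR : ∀ a, mon a ∈ R0 := fun a =>
    R0.prod_mem fun i _ => R0.pow_mem (alg_mem _) _
  obtain ⟨u', rfl⟩ : ∃ u', u = u' + 5 := ⟨u - 5, by omega⟩
  obtain ⟨n', rfl⟩ : ∃ n', n = n' + 5 * m := ⟨n - 5 * m, by omega⟩
  rw [Nat.add_sub_cancel]
  refine ⟨mR _, fun V h hPD j hj => ?_⟩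
  obtain ⟨π, h1, h0, h2, h3⟩ := unif V hPD.2.2.1
  have hx : ∀ i, xx i ∈ V := fun i => h (alg_mem _)
  rw [mem_pw h1 h2 h3]
  by_cases hn : ord V (MI (A2 (n' + 5 * m) m)) = 0
  · obtain ⟨n, g, N, -, -, rfl⟩ := hj
    exact ⟨_, V.mul_mem (h (mR _)) N.det.2, by rw [hn, Nat.cast_zero, mul_zero, Nat.floor_zero, pow_zero, mul_one]⟩
  have hI : MI (A2 (n' + 5 * m) m) ⊆ pw V (mx V) (ord V (MI (A2 (n' + 5 * m) m))) :=
    Nat.sSup_mem (s := {r | MI (A2 (n' + 5 * m) m) ⊆ pw V (mx V) r})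
      (Set.nonempty_iff_ne_empty.2 fun he => hn (by unfold ord; rw [he]; simp))
      (by_contra fun hb => hn (Nat.sSup_of_not_bddAbove hb))
  obtain ⟨a, u0, hu0, hu0', n0, e0⟩ := h3 _ (hx 0) (xx_ne 0)
  obtain ⟨b, u1, hu1, hu1', n1, e1⟩ := h3 _ (hx 1) (xx_ne 1)
  obtain ⟨e, u2, hu2, hu2', n2, e2⟩ := h3 _ (hx 2) (xx_ne 2)
  generalize ord V (MI (A2 (n' + 5 * m) m)) = N at hn hI ⊢
  obtain ⟨g1, hg1, k1⟩ := (mem_pw h1 h2 h3 _ _).1 (hI (a := mon ![m, n', 4 * m])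
    (Submodule.subset_span ⟨_, by simp [A2, dot, Fin.sum_univ_three]; omega, rfl⟩))
  obtain ⟨g2, hg2, k2⟩ := (mem_pw h1 h2 h3 _ _).1 (hI (a := mon ![0, n' + 5 * m, 0])
    (Submodule.subset_span ⟨_, by simp [A2, dot, Fin.sum_univ_three], rfl⟩))
  have mm : ∀ p q r : ℕ, mon ![p, q, r] = u0 ^ p * u1 ^ q * u2 ^ r * π ^ (p * a + q * b + r * e) := by
    intro p q r
    have : mon ![p, q, r] = xx 0 ^ p * xx 1 ^ q * xx 2 ^ r := by simp [mon, Fin.prod_univ_three]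
    rw [this, e0, e1, e2]
    ring
  have ll : ∀ (p q r : ℕ) (g : KK), g ∈ V → mon ![p, q, r] = g * π ^ N →
      N ≤ p * a + q * b + r * e := fun p q r g hg k =>
    le_exp h1 h0 h2 (u := u0 ^ p * u1 ^ q * u2 ^ r) (by
      rw [mul_inv, mul_inv, ← inv_pow, ← inv_pow, ← inv_pow]
      exact V.mul_mem (V.mul_mem (V.pow_mem hu0' _) (V.pow_mem hu1' _)) (V.pow_mem hu2' _))
      (mul_ne_zero (mul_ne_zero (pow_ne_zero _ n0) (pow_ne_zero _ n1)) (pow_ne_zero _ n2)) hg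
      ((mm p q r).symm.trans k)
  have l1 := ll _ _ _ _ hg1 k1
  have l2 := ll _ _ _ _ hg2 k2
  have l3 : ⌊c * (N : ℝ)⌋₊ < a + (u' + 1) * b + 4 * e := by
    rw [Nat.floor_lt (mul_nonneg hc0 (Nat.cast_nonneg _))]
    obtain ⟨d, hd⟩ := Nat.exists_eq_add_of_le hmu
    have s1 : m * ((u' + 5 + 1) * N) ≤ m * ((n' + 5 * m) * (a + (u' + 1) * b + 4 * e)) := by
      have t1 := Nat.mul_le_mul_left (n' + 5 * m) l1
      have t2 := Nat.mul_le_mul_left d l2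
      have t3 : m * ((u' + 5 + 1) * N) = (n' + 5 * m) * N + d * N := by
        rw [← mul_assoc, hd]
        ring
      have t4 : m * (u' + 1) = n' + d := by
        have : m * (u' + 5 + 1) = m * (u' + 1) + 5 * m := by ring
        omega
      have t5 : m * ((n' + 5 * m) * (a + (u' + 1) * b + 4 * e)) =
          (n' + 5 * m) * (m * a + (m * (u' + 1)) * b + 4 * m * e) := by ring
      rw [t3, t5, t4]
      refine (Nat.add_le_add t1 t2).trans (le_of_eq ?_)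
      ring
    have s2 := Nat.le_of_mul_le_mul_left s1 hm0
    have p0 : (0 : ℝ) < N := Nat.cast_pos.2 (Nat.pos_of_ne_zero hn)
    have p1 : (0 : ℝ) < (n' + 5 * m : ℕ) := Nat.cast_pos.2 (by omega)
    have p2 : (((u' + 5 : ℕ) : ℝ) + 1) * N ≤
        (n' + 5 * m : ℕ) * ((a + (u' + 1) * b + 4 * e : ℕ) : ℝ) := by exact_mod_cast s2
    have p3 := mul_lt_mul_of_pos_right hc p0
    refine lt_of_mul_lt_mul_left ?_ p1.le
    linarith
  obtain ⟨d, hd⟩ : ∃ d, a + (u' + 1) * b + 4 * e = ⌊c * (N : ℝ)⌋₊ + 1 + d :=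
    ⟨_, (Nat.add_sub_of_le l3).symm⟩
  have hw := hLD V h hPD j hj π ⟨h1, Or.inr h2⟩
  refine ⟨j * π / (xx 0 * xx 1 * xx 2) * (u0 ^ 1 * u1 ^ (u' + 1) * u2 ^ 4 * π ^ d),
    V.mul_mem hw (V.mul_mem (V.mul_mem (V.mul_mem (V.pow_mem hu0 _) (V.pow_mem hu1 _))
      (V.pow_mem hu2 _)) (V.pow_mem h1 d)), ?_⟩
  have q : xx 0 * xx 1 * xx 2 * mon ![0, u', 3]
      = u0 ^ 1 * u1 ^ (u' + 1) * u2 ^ 4 * π ^ d * π ^ ⌊c * (N : ℝ)⌋₊ * π := by
    have q1 : xx 0 * xx 1 * xx 2 * mon ![0, u', 3] = mon ![1, u' + 1, 4] := by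
      simp [mon, Fin.prod_univ_three]
      ring
    rw [q1, mm, one_mul, hd]
    ring
  have hne : xx 0 * xx 1 * xx 2 ≠ 0 := mul_ne_zero (mul_ne_zero (xx_ne 0) (xx_ne 1)) (xx_ne 2)
  rw [div_mul_eq_mul_div, div_mul_eq_mul_div, eq_div_iff hne]
  linear_combination j * q

end Pool.Agent.Lib.FS80
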