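import Pool.Agent.Lib.FS80.Blue

/-! Row MEM: values of a monomial valuation. -/

namespace Pool.Agent.Lib.FS80

open MvPolynomial

namespace MEM_

theorem mon_eq (a : Fin 3 → ℕ) :
    mon a = algebraMap PP KK (monomial (Finsupp.equivFunOnFinite.symm a) (1 : ℚ)) := by
  rw [monomial_eq, C_1, one_mul, Finsupp.prod_fintype _ _ (fun i => pow_zero _), map_prod]
  unfold mon xx
  refine Finset.prod_congr rfl fun i _ => ?_
  rw [map_pow]; rfl

theorem v_mon {w : Fin 3 → ℕ} {v : KK → ℤ} (h : IsWV w v) (a : Fin 3 → ℕ) :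
    v (mon a) = dot w a := by
  have hne : (monomial (Finsupp.equivFunOnFinite.symm a) (1 : ℚ) : PP) ≠ 0 := by
    rw [Ne, monomial_eq_zero]; exact one_ne_zero
  have hs : (monomial (Finsupp.equivFunOnFinite.symm a) (1 : ℚ) : PP).support =
      {Finsupp.equivFunOnFinite.symm a} := by
    rw [support_monomial, if_neg one_ne_zero]
  have key : ∀ t : ℕ, (t : ℤ) ≤ v (mon a) ↔ t ≤ dot w a := by
    intro t
    rw [mon_eq, h.2.2 _ hne t, hs]
    simp only [Finset.mem_singleton, forall_eq]; rfl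
  have h1 := (key (dot w a)).2 le_rfl
  have h2 := (key (dot w a + 1)).not.2 (by omega)
  push_cast at h2; omega

theorem v_alg {w : Fin 3 → ℕ} {v : KK → ℤ} (h : IsWV w v) (p : PP) (hp : p ≠ 0) :
    0 ≤ v (algebraMap PP KK p) := by
  have := (h.2.2 p hp 0).2 fun a _ => Nat.zero_le _
  simpa using this

theorem v_unit {w : Fin 3 → ℕ} {v : KK → ℤ} (h : IsWV w v) (q : PP)
    (hq : constantCoeff q ≠ 0) : v (algebraMap PP KK q) = 0 := by
  have hne : q ≠ 0 := fun e => hq (by rw [e, map_zero])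
  have h0 := v_alg h q hne
  have h1 : ¬ ((1 : ℕ) : ℤ) ≤ v (algebraMap PP KK q) := by
    intro h1
    have h2 := (h.2.2 q hne 1).1 h1 0 (by rw [mem_support_iff]; exact hq)
    simp [dot] at h2
  push_cast at h1; omega

theorem v_R0 {w : Fin 3 → ℕ} {v : KK → ℤ} (h : IsWV w v) (f : KK) (hf : f ∈ R0) (h0 : f ≠ 0) :
    0 ≤ v f := by
  obtain ⟨p, q, hq, rfl⟩ := (mem_R0 f).1 hf
  have hp : p ≠ 0 := fun e => h0 (by rw [e, map_zero, zero_div])
  have e := h.1 _ _ h0 (alg_ne hq)
  rw [div_mul_cancel₀ _ (alg_ne hq), v_unit h q hq] at e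
  have := v_alg h p hp
  omega

end MEM_

theorem bMEM : MEM := by
  intro w v h
  refine ⟨MEM_.v_mon h, MEM_.v_unit h, MEM_.v_R0 h, ?_⟩
  intro A t hA f hf
  have hf' : f ∈ Submodule.span R0 (mon '' A) := hf
  clear hf
  induction hf' using Submodule.span_induction with
  | mem x hx =>
    obtain ⟨a, ha, rfl⟩ := hx
    intro _
    rw [MEM_.v_mon h]
    exact_mod_cast hA a ha
  | zero => exact fun h0 => absurd rfl h0
  | add x y _ _ hx hy =>
    intro h0
    by_cases hx0 : x = 0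
    · rw [hx0, zero_add] at h0 ⊢; exact hy h0
    by_cases hy0 : y = 0
    · rw [hy0, add_zero]; exact hx hx0
    exact le_trans (le_min (hx hx0) (hy hy0)) (h.2.1 x y hx0 hy0 h0)
  | smul r x _ hx =>
    intro h0
    have e : r • x = (r : KK) * x := rfl
    rw [e] at h0 ⊢
    have hr : (r : KK) ≠ 0 := left_ne_zero_of_mul h0
    have hx0 : x ≠ 0 := right_ne_zero_of_mul h0
    rw [h.1 _ _ hr hx0]
    have := MEM_.v_R0 h r r.2 hr
    have := hx hx0
    omega

end Pool.Agent.Lib.FS80
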