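import Pool.Agent.Lib.FS80.Blue

/-! An ideal between `(z)` and `(z, x², x y, y²)` is not finitely supported. -/

namespace Pool.Agent.Lib.FS80

namespace NFS_

/-- exponents of the monomials in the prime ideal `(x, z)` -/
def Cw : Set (Fin 3 → ℕ) := {a | 1 ≤ dot ![1, 0, 1] a}

lemma mem_Cw (a : Fin 3 → ℕ) : a ∈ Cw ↔ 1 ≤ a 0 + a 2 := by
  simp [Cw, dot, Fin.sum_univ_three]

lemma mon_single (i : Fin 3) : mon (Pi.single i 1) = xx i := by
  fin_cases i <;> simp [mon, Fin.prod_univ_three]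

lemma im_inj (σ : KK ≃+* KK) : Function.Injective (im σ) := fun _ _ h =>
  SetLike.coe_injective (Set.image_injective.2 σ.injective
    (congrArg (fun U : Subring KK => (U : Set KK)) h))

lemma step (hS : SUP) (hO : ORD) (hQ : QT0) (hT : TRANS) (hR : REC) (hM : TRM) {i : Fin 3}
    (hi : i ≠ 2) {σ : KK ≃+* KK} (hσ : IsSig i σ) {A : Set (Fin 3 → ℕ)} (hA : ∀ a ∈ A, 1 ≤ sz a)
    (hC : ∀ a ∈ A, TT i 1 a ∈ Cw) {J : Set KK} (hz : xx 2 ∈ J) (hJ : J ⊆ MI A) :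
    ∃ J', xx 2 ∈ J' ∧ J' ⊆ MI Cw ∧ im σ '' supp R0 J' ⊆ supp R0 J := by
  have s1 : sz (Pi.single 2 1) = 1 := by simp [sz]
  have hz' : mon (Pi.single 2 1) ∈ J := by rwa [mon_single]
  have one : xx i / xx i ∈ im σ R0 := by rw [div_self (xx_ne i)]; exact one_mem _
  obtain ⟨J', e, h1, -, h2⟩ := hM i σ hσ J A 1 (xx i) hJ hA (hO J A 1 _ hJ hA hz' s1) (xx_ne i)
    one one
  refine ⟨J', ?_, h1.trans (hS.2.1 _ _ ?_), ?_⟩
  · have := h2 _ hz' s1.ge
    rwa [TT, s1, Function.update_eq_self_iff.2 (by simp [hi]), mon_single] at this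
  · rintro _ ⟨a, ha, rfl⟩
    exact ⟨_, hC a ha, le_rfl⟩
  · rw [← hT, ← e]
    exact (hR R0 J).2.2 _ _ (hQ i σ hσ)

end NFS_

open NFS_ in
theorem bNFS (hW : WV) (hE : MEM) (hS : SUP) (hO : ORD) (hI : ICL) (hU : UNIT) (hA : AUT)
    (hQ : QT0) (hT : TRANS) (hR : REC) (hM : TRM) : NFS := by
  have c1 : ∀ a ∈ Cw, 1 ≤ sz a := fun a ha => by
    rw [mem_Cw] at ha
    rw [sz, Fin.sum_univ_three]
    omega
  have base : ∀ J, xx 2 ∈ J → J ⊆ MI Cw → R0 ∈ supp R0 J := by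
    intro J hz hJ
    obtain ⟨v, hv⟩ := hW ![1, 0, 1]
    refine ⟨J, Near.base, ?_⟩
    have k1 : icl R0 J ⊆ MI Cw := fun f hf => by
      have := hS.1 Unit (fun _ => ![1, 0, 1]) (fun _ => v) (fun _ => 1) (fun _ => hv) f hf.1
        fun h0 _ => hI _ v hv J 1
          (fun g hg => (hE _ v hv).2.2.2 Cw 1 (fun _ h => h) g (hJ hg)) f hf h0
      refine hS.2.1 _ _ ?_ this
      exact fun a ha => ⟨a, ha (), le_rfl⟩
    have k2 : mon (Pi.single 2 1) ∈ icl R0 J := by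
      rw [mon_single]
      exact hU.2 R0 J (hJ.trans (hS.2.2 _)) hz
    rw [hO (icl R0 J) Cw 1 (Pi.single 2 1) k1 c1 k2 (by simp [sz])]
    exact one_ne_zero
  have nq : xx 0 / xx 1 ∉ R0 := fun h => by
    obtain ⟨v, hv⟩ := hW ![0, 1, 0]
    have n0 := div_ne_zero (xx_ne 0) (xx_ne 1)
    have a := (hE _ v hv).2.2.1 _ h n0
    have b := hv.1 _ _ n0 (xx_ne 1)
    have c := (hE _ v hv).1 (Pi.single 0 1)
    have d := (hE _ v hv).1 (Pi.single 1 1)
    rw [mon_single] at c d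
    rw [div_mul_cancel₀ _ (xx_ne 1), c, d] at b
    simp [dot, Fin.sum_univ_three] at b
    omega
  have main : ∀ (n : ℕ) (J : Set KK), xx 2 ∈ J → J ⊆ MI Cw → (supp R0 J).Finite →
      (supp R0 J).ncard = n → False := by
    obtain ⟨σ, hσ⟩ := hA 1
    intro n
    induction n using Nat.strong_induction_on with
    | _ n ih =>
      intro J hz hJ hf hn
      obtain ⟨J', z', j', hs⟩ := step hS hO hQ hT hR hM (by decide) hσ c1 (fun a ha => by
        rw [mem_Cw] at ha ⊢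
        simpa [TT] using ha) hz hJ
      refine ih _ ?_ J' z' j' ((hf.subset hs).of_finite_image (im_inj σ).injOn) rfl
      rw [← hn, ← Set.ncard_image_of_injective _ (im_inj σ)]
      refine Set.ncard_lt_ncard ⟨hs, fun h => ?_⟩ hf
      obtain ⟨S, h1, h2⟩ := h (base J hz hJ)
      apply nq
      rw [← h2]
      exact ⟨xx 0, (hR R0 J').1 S h1 (alg_mem _), (hσ 0).trans (if_neg (by decide))⟩
  intro J hz hJ hf
  obtain ⟨σ, hσ⟩ := hA 0
  obtain ⟨J', z', j', hs⟩ := step hS hO hQ hT hR hM (by decide) hσ (A := B0) (by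
    rintro a (rfl | rfl | rfl | rfl) <;> simp [sz, Fin.sum_univ_three]) (by
    rintro a (rfl | rfl | rfl | rfl) <;> simp [mem_Cw, TT, sz, Fin.sum_univ_three]) hz hJ
  exact main _ J' z' j' ((hf.subset hs).of_finite_image (im_inj σ).injOn) rfl

end Pool.Agent.Lib.FS80
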