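import Pool.Agent.Lib.FS80.Blue2
import Pool.Agent.Lib.FS80.B_NFS

/-! Ideals inside the prime `(y, z)`, or sent into it by the chart of `y`. -/

namespace Pool.Agent.Lib.FS80

namespace NFSA_

lemma d1 (a : Fin 3 → ℕ) : dot ![1, 1, 1] a = sz a := by
  simp [dot, sz, Fin.sum_univ_three]

lemma mon_ne (a : Fin 3 → ℕ) : mon a ≠ 0 :=
  Finset.prod_ne_zero_iff.2 (fun i _ => pow_ne_zero _ (xx_ne i))

lemma ordspec (hW : WV) (hE : MEM) (hS : SUP) (hP : PW) {J : Set KK} {a : Fin 3 → ℕ}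
    (ha : mon a ∈ J) (hJ : J ⊆ R0) : J ⊆ MI {b | ord R0 J ≤ sz b} ∧ ord R0 J ≤ sz a ∧
      ∀ k, J ⊆ MI {b | k ≤ sz b} → k ≤ ord R0 J := by
  obtain ⟨v, hv⟩ := hW ![1, 1, 1]
  have hb : ∀ r ∈ {r | J ⊆ pw R0 (mx R0) r}, r ≤ sz a := fun r hr => by
    have h1 : J ⊆ MI {b | r ≤ sz b} := hP.2.2 r ▸ hr
    have h2 := (hE _ v hv).2.2.2 _ r (fun b hb => by rw [d1]; exact hb) _ (h1 ha) (mon_ne a)
    rw [(hE _ v hv).1, d1] at h2
    exact_mod_cast h2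
  have h0 : 0 ∈ {r | J ⊆ pw R0 (mx R0) r} := by
    intro f hf
    rw [hP.2.2]
    exact hS.2.1 _ _ (fun b _ => ⟨b, Nat.zero_le _, le_rfl⟩)
      (hS.1 Empty (fun _ => 0) (fun _ => v) (fun _ => 0) (fun i => i.elim) f (hJ hf)
        fun _ i => i.elim)
  have hm := Nat.sSup_mem ⟨0, h0⟩ ⟨_, hb⟩
  exact ⟨hP.2.2 _ ▸ hm, hb _ hm, fun k hk => le_csSup ⟨_, hb⟩ (by
    show J ⊆ pw R0 (mx R0) k
    rw [hP.2.2]
    exact hk)⟩

lemma step (hW : WV) (hE : MEM) (hS : SUP) (hP : PW) (hQ : QT0) (hT : TRANS) (hR : REC)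
    (hM : TRM) {i : Fin 3} {σ : KK ≃+* KK} (hσ : IsSig i σ) (w : Fin 3 → ℕ) (t : ℕ) {J : Set KK}
    {a : Fin 3 → ℕ} (ha : mon a ∈ J) (hJ : J ⊆ MI {b | t ≤ dot w b}) (C : Set (Fin 3 → ℕ))
    (hC : ∀ r, r ≤ sz a → ∀ b, t ≤ dot w b → r ≤ sz b → TT i r b ∈ C) :
    ∃ J' a', mon a' ∈ J' ∧ J' ⊆ MI C ∧ im σ '' supp R0 J' ⊆ supp R0 J := by
  have hJ0 : J ⊆ R0 := hJ.trans (hS.2.2 _)
  obtain ⟨o1, o2, -⟩ := ordspec hW hE hS hP ha hJ0
  obtain ⟨v, hv⟩ := hW ![1, 1, 1]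
  obtain ⟨v', hv'⟩ := hW w
  have hA : J ⊆ MI {b | t ≤ dot w b ∧ ord R0 J ≤ sz b} := fun f hf => by
    refine hS.2.1 _ _ ?_ (hS.1 Bool (fun c => cond c w ![1, 1, 1]) (fun c => cond c v' v)
      (fun c => cond c t (ord R0 J)) (fun c => by cases c <;> assumption) f (hJ0 hf)
      fun h0 c => ?_)
    · exact fun b hb => ⟨b, ⟨hb true, d1 b ▸ hb false⟩, le_rfl⟩
    · cases c
      · exact (hE _ v hv).2.2.2 _ _ (fun b hb => by rw [d1]; exact hb) _ (o1 hf) h0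
      · exact (hE _ v' hv').2.2.2 _ _ (fun b hb => hb) _ (hJ hf) h0
  have one : xx i / xx i ∈ im σ R0 := by rw [div_self (xx_ne i)]; exact one_mem _
  obtain ⟨J', e, h1, -, h2⟩ := hM i σ hσ J _ _ (xx i) hA (fun b hb => hb.2) rfl (xx_ne i) one one
  refine ⟨J', _, h2 a ha o2, h1.trans (hS.2.1 _ _ ?_), ?_⟩
  · rintro _ ⟨b, hb, rfl⟩
    exact ⟨_, hC _ o2 b hb.1 hb.2, le_rfl⟩
  · rw [← hT, ← e]
    exact (hR R0 J).2.2 _ _ (hQ i σ hσ)

end NFSA_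

open NFSA_ in
theorem bNFSA (hW : WV) (hE : MEM) (hS : SUP) (hP : PW) (hI : ICL) (hU : UNIT) (hA : AUT)
    (hQ : QT0) (hT : TRANS) (hR : REC) (hM : TRM) : NFSA := by
  have base : ∀ (J : Set KK) a, mon a ∈ J → J ⊆ MI {b | 1 ≤ dot ![0, 1, 1] b} →
      R0 ∈ supp R0 J := by
    intro J a hz hJ
    obtain ⟨v, hv⟩ := hW ![0, 1, 1]
    refine ⟨J, Near.base, ?_⟩
    have k1 : icl R0 J ⊆ MI {b | 1 ≤ sz b} := fun f hf => by
      have := hS.1 Unit (fun _ => ![0, 1, 1]) (fun _ => v) (fun _ => 1) (fun _ => hv) f hf.1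
        fun h0 _ => hI _ v hv J 1
          (fun g hg => (hE _ v hv).2.2.2 _ 1 (fun _ h => h) g (hJ hg)) f hf h0
      refine hS.2.1 _ _ (fun b hb => ⟨b, ?_, le_rfl⟩) this
      have h := hb ()
      simp [dot, sz, Fin.sum_univ_three] at h ⊢
      omega
    have := (ordspec hW hE hS hP (hU.2 R0 J (hJ.trans (hS.2.2 _)) hz) fun f hf => hf.1).2.2 1 k1
    omega
  have nq : xx 1 / xx 0 ∉ R0 := fun h => by
    obtain ⟨v, hv⟩ := hW ![1, 0, 0]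
    have n0 := div_ne_zero (xx_ne 1) (xx_ne 0)
    have a := (hE _ v hv).2.2.1 _ h n0
    have b := hv.1 _ _ n0 (xx_ne 0)
    have c := (hE _ v hv).1 (Pi.single 0 1)
    have d := (hE _ v hv).1 (Pi.single 1 1)
    rw [NFS_.mon_single] at c d
    rw [div_mul_cancel₀ _ (xx_ne 0), c, d] at b
    simp [dot, Fin.sum_univ_three] at b
    omega
  obtain ⟨σ, hσ⟩ := hA 0
  have main : ∀ (n : ℕ) (J : Set KK) a, mon a ∈ J → J ⊆ MI {b | 1 ≤ dot ![0, 1, 1] b} →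
      (supp R0 J).Finite → (supp R0 J).ncard = n → False := by
    intro n
    induction n using Nat.strong_induction_on with
    | _ n ih =>
      intro J a hz hJ hf hn
      obtain ⟨J', a', z', j', hs⟩ := step hW hE hS hP hQ hT hR hM hσ _ _ hz hJ
        {b | 1 ≤ dot ![0, 1, 1] b} (fun r _ b hb _ => by
          simpa [TT, dot, Fin.sum_univ_three] using hb)
      refine ih _ ?_ J' a' z' j' ((hf.subset hs).of_finite_image (NFS_.im_inj σ).injOn) rfl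
      rw [← hn, ← Set.ncard_image_of_injective _ (NFS_.im_inj σ)]
      refine Set.ncard_lt_ncard ⟨hs, fun h => ?_⟩ hf
      obtain ⟨S, h1, h2⟩ := h (base J a hz hJ)
      apply nq
      rw [← h2]
      exact ⟨xx 1, (hR R0 J').1 S h1 (alg_mem _), (hσ 1).trans (if_neg (by decide))⟩
  exact fun J a hz hJ hf => main _ J a hz hJ hf rfl

open NFSA_ in
theorem bNFSB (hW : WV) (hE : MEM) (hS : SUP) (hP : PW) (hA : AUT) (hQ : QT0) (hT : TRANS)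
    (hR : REC) (hM : TRM) (hN : NFSA) : NFSB := by
  intro J a ρ ha hρ hJ hf
  obtain ⟨σ, hσ⟩ := hA 1
  obtain ⟨J', a', z', j', hs⟩ := step hW hE hS hP hQ hT hR hM hσ _ _ ha hJ
    {b | 1 ≤ dot ![0, 1, 1] b} (fun r hr b hb hb' => by
      simp [TT, dot, sz, Fin.sum_univ_three] at hb hb' hr hρ ⊢
      omega)
  exact hN J' a' z' j' ((hf.subset hs).of_finite_image (NFS_.im_inj σ).injOn)

end Pool.Agent.Lib.FS80
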