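import Pool.Agent.Lib.FS80.Blue2

namespace Pool.Agent.Lib.FS80

namespace NUM_

theorem small (c : ℝ) (h2 : ∀ k : ℤ, 2 * c ≠ k) (h3 : ∀ k : ℤ, 3 * c ≠ k) :
    ∃ (k : ℕ) (M : ℤ) (e : ℝ), 1 ≤ k ∧ c * k = M + e ∧ e ≠ 0 ∧ -(1 / 4) ≤ e ∧ e ≤ 1 / 4 := by
  have f0 := Int.floor_le c
  have f1 := Int.lt_floor_add_one c
  have key : ∀ (k : ℕ) (M : ℤ), 1 ≤ k → c * k ≠ M → -(1 / 4) ≤ c * k - M → c * k - M ≤ 1 / 4 →
      ∃ (k : ℕ) (M : ℤ) (e : ℝ), 1 ≤ k ∧ c * k = M + e ∧ e ≠ 0 ∧ -(1 / 4) ≤ e ∧ e ≤ 1 / 4 :=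
    fun k M a b c' d => ⟨k, M, c * k - M, a, by ring, sub_ne_zero.2 b, c', d⟩
  have n1 : ∀ M : ℤ, c * (1 : ℕ) ≠ M := fun M h => h2 (2 * M) (by push_cast at h ⊢; linarith)
  have n2 : ∀ M : ℤ, c * (2 : ℕ) ≠ M := fun M h => h2 M (by push_cast at h ⊢; linarith)
  have n3 : ∀ M : ℤ, c * (3 : ℕ) ≠ M := fun M h => h3 M (by push_cast at h ⊢; linarith)
  by_cases a1 : c - ⌊c⌋ ≤ 1 / 4
  · exact key 1 ⌊c⌋ le_rfl (n1 _) (by push_cast; linarith) (by push_cast; linarith)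
  by_cases a2 : c - ⌊c⌋ ≤ 3 / 8
  · exact key 3 (3 * ⌊c⌋ + 1) (by norm_num) (n3 _) (by push_cast; linarith) (by push_cast; linarith)
  by_cases a3 : c - ⌊c⌋ ≤ 5 / 8
  · exact key 2 (2 * ⌊c⌋ + 1) (by norm_num) (n2 _) (by push_cast; linarith) (by push_cast; linarith)
  by_cases a4 : c - ⌊c⌋ ≤ 3 / 4
  · exact key 3 (3 * ⌊c⌋ + 2) (by norm_num) (n3 _) (by push_cast; linarith) (by push_cast; linarith)
  exact key 1 (⌊c⌋ + 1) le_rfl (n1 _) (by push_cast; linarith) (by push_cast; linarith)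

theorem hit (e : ℝ) (h0 : e ≠ 0) (h1 : -(1 / 4) ≤ e) (h2 : e ≤ 1 / 4) (B : ℕ) :
    ∃ (j : ℕ) (L : ℤ), B ≤ j ∧ (L : ℝ) + 3 / 4 ≤ j * e ∧ j * e < L + 1 := by
  have b0 : (0 : ℝ) ≤ B := Nat.cast_nonneg B
  rcases h0.lt_or_gt with h | h
  · have hp : 0 < -e := by linarith
    have q0 : (0 : ℝ) ≤ B / -e := div_nonneg b0 hp.le
    have g0 := (le_div_iff₀ hp).1 (Nat.floor_le q0)
    have g1 := (div_lt_iff₀ hp).1 (Nat.lt_floor_add_one (B / -e))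
    have g2 : B ≤ ⌊B / -e⌋₊ := Nat.le_floor ((le_div_iff₀ hp).2 (by nlinarith))
    refine ⟨⌊B / -e⌋₊ + 1, -B - 1, by omega, ?_, ?_⟩ <;> push_cast <;> nlinarith
  · have q0 : (0 : ℝ) < (B + 1) / e := div_pos (by linarith) h
    have g0 := (div_le_iff₀ h).1 (Nat.le_ceil (((B : ℝ) + 1) / e))
    have g1 := (lt_div_iff₀ h).1 (sub_lt_iff_lt_add.2 (Nat.ceil_lt_add_one q0.le))
    have g2 : B + 1 ≤ ⌈((B : ℝ) + 1) / e⌉₊ := by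
      have : ((B + 1 : ℕ) : ℝ) ≤ ⌈((B : ℝ) + 1) / e⌉₊ :=
        le_trans ((le_div_iff₀ h).2 (by push_cast; nlinarith)) (Nat.le_ceil _)
      exact_mod_cast this
    obtain ⟨j, hj⟩ : ∃ j, ⌈((B : ℝ) + 1) / e⌉₊ = j + 1 := ⟨_, (Nat.sub_add_cancel (by omega)).symm⟩
    rw [hj] at g0 g1 g2
    push_cast at g0 g1
    refine ⟨j, B, by omega, ?_, ?_⟩ <;> push_cast <;> nlinarith

end NUM_

theorem bNUM : NUM := by
  intro c hc h2 h3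
  obtain ⟨k, M, e, hk, he, e0, e1, e2⟩ := NUM_.small c h2 h3
  obtain ⟨m, hm⟩ := exists_nat_ge (1 / c)
  obtain ⟨j, L, hj, l1, l2⟩ := NUM_.hit e e0 e1 e2 (5 * m)
  have hn : c * (k * j : ℕ) = (j * M + L : ℤ) + (j * e - L) := by
    push_cast
    rw [← mul_assoc, he]
    ring
  have p0 : 0 ≤ c * (k * j : ℕ) := mul_nonneg hc.le (Nat.cast_nonneg _)
  have p1 : (-1 : ℝ) < (j * M + L : ℤ) := by linarith
  have p2 : (-1 : ℤ) < j * M + L := by exact_mod_cast p1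
  obtain ⟨u, hu⟩ := Int.eq_ofNat_of_zero_le (by omega : 0 ≤ j * M + L)
  rw [hu, Int.cast_natCast] at hn
  refine ⟨k * j, m, u, ?_, hj.trans (Nat.le_mul_of_pos_left j hk), by linarith, by linarith⟩
  rw [div_le_iff₀ hc] at hm
  linarith

end Pool.Agent.Lib.FS80
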