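import Pool.Agent.Lib.FS80.Blue

/-! Row ORD: the order of an ideal between a monomial and a monomial ideal. -/

namespace Pool.Agent.Lib.FS80

theorem bORD (hW : WV) (hM : MEM) (hS : SUP) (hP : PW) : ORD := by
  intro J A r a hJ hA ha hr
  obtain ⟨v, hv⟩ := hW fun _ => 1
  obtain ⟨m1, -, -, m4⟩ := hM _ v hv
  have e : ∀ b, dot (fun _ => 1) b = sz b := fun b => by simp [dot, sz]
  have h0 : mon a ≠ 0 := Finset.prod_ne_zero_iff.2 fun i _ => pow_ne_zero _ (xx_ne i)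
  refine IsGreatest.csSup_eq ⟨?_, fun s hs => ?_⟩
  · show J ⊆ pw R0 (mx R0) r
    rw [hP.2.2]
    exact hJ.trans (hS.2.1 _ _ fun b hb => ⟨b, hA b hb, le_rfl⟩)
  · have hs' : J ⊆ pw R0 (mx R0) s := hs
    rw [hP.2.2] at hs'
    have := m4 _ s (fun b hb => (e b).symm ▸ hb) _ (hs' ha) h0
    rw [m1, e, hr] at this
    exact_mod_cast this

end Pool.Agent.Lib.FS80
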