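import Pool.Agent.Lib.FS80.Blue

/-! Powers of the maximal ideal are monomial ideals. -/

namespace Pool.Agent.Lib.FS80

open MvPolynomial

namespace PW_

theorem dot_one (a : Fin 3 → ℕ) : dot ![1, 1, 1] a = sz a := by
  simp [dot, sz, Fin.sum_univ_three]

theorem mon_add (a b : Fin 3 → ℕ) : mon (a + b) = mon a * mon b := by
  simp only [mon, Pi.add_apply, pow_add, Finset.prod_mul_distrib]

theorem mon_zero : mon 0 = 1 := by simp [mon]

theorem mon_single (i : Fin 3) : mon (Pi.single i 1) = xx i := by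
  fin_cases i <;> simp [mon, Fin.prod_univ_three]

theorem sz_add (a b : Fin 3 → ℕ) : sz (a + b) = sz a + sz b := by
  simp only [sz, Pi.add_apply, Finset.sum_add_distrib]

theorem sz_single (i : Fin 3) : sz (Pi.single i 1) = 1 := by
  fin_cases i <;> simp [sz]

theorem ex_single (a : Fin 3 → ℕ) (h : 1 ≤ sz a) : ∃ i, Pi.single i 1 ≤ a := by
  by_contra hc
  have h0 : ∀ i, a i = 0 := fun i => by
    by_contra hi
    refine hc ⟨i, fun j => ?_⟩
    by_cases hj : j = i
    · subst hj
      rw [Pi.single_eq_same]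
      exact Nat.one_le_iff_ne_zero.2 hi
    · rw [Pi.single_eq_of_ne hj]
      exact Nat.zero_le _
  simp [sz, h0] at h

theorem one (hWV : WV) (hMEM : MEM) (hSUP : SUP) : mx R0 = MI {a | 1 ≤ sz a} := by
  obtain ⟨v, hv⟩ := hWV ![1, 1, 1]
  obtain ⟨-, hq0, hR, hA⟩ := hMEM _ v hv
  have h1 : v 1 = 0 := by
    have := hq0 1 (by simp)
    rwa [map_one] at this
  ext f
  constructor
  · rintro ⟨hf, hn⟩
    have key : f ≠ 0 → ∀ _ : Unit, ((1 : ℕ) : ℤ) ≤ v f := by
      intro h0 _
      obtain ⟨p, q, hq, rfl⟩ := (mem_R0 f).1 hf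
      have hp : p ≠ 0 := by
        rintro rfl
        exact h0 (by rw [map_zero, zero_div])
      have hc : constantCoeff p = 0 := by
        by_contra hc
        exact (hn.resolve_left h0) ((mem_R0 _).2 ⟨q, p, hc, by rw [inv_div]⟩)
      have h2 := hv.1 _ _ h0 (alg_ne hq)
      rw [div_mul_cancel₀ _ (alg_ne hq), hq0 q hq, add_zero] at h2
      rw [← h2]
      refine (hv.2.2 p hp 1).2 fun a ha => ?_
      rw [dot_one]
      by_contra hlt
      have ha0 : a = 0 := by
        ext i
        have : a i ≤ sz a := Finset.single_le_sum (f := fun i => a i)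
          (fun _ _ => Nat.zero_le _) (Finset.mem_univ i)
        rw [Finsupp.zero_apply]
        omega
      subst ha0
      exact (mem_support_iff.1 ha) hc
    have h3 := hSUP.1 Unit (fun _ => ![1, 1, 1]) (fun _ => v) (fun _ => 1) (fun _ => hv) f hf key
    exact hSUP.2.1 _ _ (fun a ha => ⟨a, (ha ()).trans (dot_one a).le, le_rfl⟩) h3
  · intro hf
    refine ⟨hSUP.2.2 _ hf, ?_⟩
    by_cases h0 : f = 0
    · exact Or.inl h0
    refine Or.inr fun hi => ?_
    have h2 := hA _ 1 (fun a ha => le_trans ha (dot_one a).ge) f hf h0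
    have h3 := hR _ hi (inv_ne_zero h0)
    have h4 := hv.1 _ _ h0 (inv_ne_zero h0)
    rw [mul_inv_cancel₀ h0, h1] at h4
    omega

open Pointwise in
theorem img (r : ℕ) :
    mon '' {a | r ≤ sz a} * mon '' {a | 1 ≤ sz a} = mon '' {a | r + 1 ≤ sz a} := by
  ext f
  constructor
  · rintro ⟨_, ⟨a, ha, rfl⟩, _, ⟨b, hb, rfl⟩, rfl⟩
    exact ⟨a + b, (Nat.add_le_add ha hb).trans (sz_add a b).ge, mon_add a b⟩
  · rintro ⟨a, ha, rfl⟩
    have ha' : r + 1 ≤ sz a := ha
    obtain ⟨i, hi⟩ := ex_single a (by omega)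
    have e : a - Pi.single i 1 + Pi.single i 1 = a := tsub_add_cancel_of_le hi
    have hs := sz_add (a - Pi.single i 1) (Pi.single i 1)
    rw [e, sz_single] at hs
    refine ⟨_, ⟨a - Pi.single i 1, ?_, rfl⟩, _, ⟨Pi.single i 1, (sz_single i).ge, rfl⟩, ?_⟩
    · change r ≤ sz _
      omega
    · exact (mon_add _ _).symm.trans (congrArg mon e)

end PW_

open PW_ in
theorem bPW (hWV : WV) (hMEM : MEM) (hSUP : SUP) : PW := by
  have h1 := one hWV hMEM hSUP
  refine ⟨h1, ?_, fun r => ?_⟩
  · have e : Set.range xx = mon '' Set.range (fun i : Fin 3 => Pi.single i 1) := by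
      rw [← Set.range_comp]
      exact congrArg Set.range (funext fun i => (mon_single i).symm)
    rw [h1, e]
    refine Set.Subset.antisymm (hSUP.2.1 _ _ fun a ha => ?_) (hSUP.2.1 _ _ ?_)
    · obtain ⟨i, hi⟩ := ex_single a ha
      exact ⟨_, ⟨i, rfl⟩, hi⟩
    · rintro _ ⟨i, rfl⟩
      exact ⟨_, (sz_single i).ge, le_rfl⟩
  · have e : Submodule.span R0 (mx R0) = Submodule.span R0 (mon '' {a | 1 ≤ sz a}) := by
      rw [h1]
      exact Submodule.span_eq _
    unfold pw
    rw [e]
    induction r with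
    | zero =>
      have e0 : ({1} : Set KK) = mon '' {0} := by rw [Set.image_singleton, mon_zero]
      rw [pow_zero, Submodule.one_eq_span, e0]
      exact Set.Subset.antisymm (hSUP.2.1 _ _ fun a _ => ⟨a, Nat.zero_le _, le_rfl⟩)
        (hSUP.2.1 _ _ fun a _ => ⟨0, rfl, zero_le⟩)
    | succ r ih =>
      have ih' : Submodule.span R0 (mon '' {a | 1 ≤ sz a}) ^ r =
          Submodule.span R0 (mon '' {a | r ≤ sz a}) := SetLike.coe_injective ih
      rw [pow_succ, ih', Submodule.span_mul_span, img]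
      rfl

end Pool.Agent.Lib.FS80
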