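import Pool.Agent.Lib.FS80.Blue

/-! Row QT0: the image of the local ring under a chart automorphism is a quadratic transform. -/

namespace Pool.Agent.Lib.FS80

open MvPolynomial

namespace QT0_

theorem fixC (φ : KK →+* KK) (c : ℚ) : φ (algebraMap PP KK (C c)) = algebraMap PP KK (C c) :=
  DFunLike.congr_fun (RingHom.ext_rat (φ.comp ((algebraMap PP KK).comp C))
    ((algebraMap PP KK).comp C)) c

theorem symm_xx {i : Fin 3} {σ : KK ≃+* KK} (h : IsSig i σ) (j : Fin 3) :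
    σ.symm (xx j) = if j = i then xx i else xx j * xx i := by
  rw [RingEquiv.symm_apply_eq]
  split_ifs with hj
  · rw [h i, if_pos rfl, hj]
  · rw [map_mul, h j, h i, if_neg hj, if_pos rfl, div_mul_cancel₀ _ (xx_ne i)]

theorem symm_alg {i : Fin 3} {σ : KK ≃+* KK} (h : IsSig i σ) (p : PP) :
    ∃ q : PP, σ.symm (algebraMap PP KK p) = algebraMap PP KK q ∧
      constantCoeff q = constantCoeff p := by
  induction p using MvPolynomial.induction_on with
  | C c => exact ⟨C c, fixC (σ.symm : KK →+* KK) c, rfl⟩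
  | add p q hp hq =>
    obtain ⟨⟨p', e, c⟩, q', e', c'⟩ := And.intro hp hq
    exact ⟨p' + q', by rw [map_add, map_add, map_add, e, e'], by rw [map_add, map_add, c, c']⟩
  | mul_X p j hp =>
    obtain ⟨p', e, c⟩ := hp
    have e2 := symm_xx h j
    by_cases hj : j = i
    · rw [if_pos hj] at e2
      exact ⟨p' * X i, by rw [map_mul, map_mul, map_mul, e]; exact congrArg _ e2, by simp⟩
    · rw [if_neg hj] at e2
      exact ⟨p' * (X j * X i),
        by rw [map_mul, map_mul, map_mul, map_mul, e]; exact congrArg _ e2, by simp⟩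

theorem symm_R0 {i : Fin 3} {σ : KK ≃+* KK} (h : IsSig i σ) {f : KK} (hf : f ∈ R0) :
    σ.symm f ∈ R0 := by
  obtain ⟨p, q, hq, rfl⟩ := (mem_R0 f).1 hf
  obtain ⟨p', e, -⟩ := symm_alg h p
  obtain ⟨q', e', c⟩ := symm_alg h q
  exact (mem_R0 _).2 ⟨p', q', by rw [c]; exact hq, by rw [map_div₀, e, e']⟩

theorem mem_im (σ : KK ≃+* KK) (f : KK) : f ∈ im σ R0 ↔ σ.symm f ∈ R0 :=
  ⟨fun ⟨g, hg, e⟩ => by rw [← e]; exact (σ.symm_apply_apply g).symm ▸ hg,
    fun h => ⟨_, h, σ.apply_symm_apply f⟩⟩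

theorem xx_R0 (j : Fin 3) : xx j ∈ R0 := alg_mem _

theorem unit_of {a : KK} (ha : a ∈ R0) (h : a ∉ mx R0) : a ≠ 0 ∧ a⁻¹ ∈ R0 :=
  ⟨fun e => h ⟨ha, Or.inl e⟩, by_contra fun e => h ⟨ha, Or.inr e⟩⟩

end QT0_

open QT0_ in
theorem bQT0 (hPW : PW) : QT0 := by
  intro i σ h
  have hm : ∀ a, a ∈ mx R0 ↔ a ∈ Submodule.span R0 (Set.range xx) := fun a => hPW.2.1 ▸ Iff.rfl
  have hx : ∀ j, xx j ∈ mx R0 := fun j => (hm _).2 (Submodule.subset_span ⟨j, rfl⟩)
  have hs : ∀ c ∈ R0, ∀ a ∈ mx R0, c * a ∈ mx R0 := fun c hc a ha =>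
    (hm _).2 (Submodule.smul_mem _ (⟨c, hc⟩ : R0) ((hm _).1 ha))
  have ha : ∀ a ∈ mx R0, ∀ b ∈ mx R0, a + b ∈ mx R0 := fun a ha b hb =>
    (hm _).2 (add_mem ((hm _).1 ha) ((hm _).1 hb))
  have h0 : (0 : KK) ∈ mx R0 := ⟨zero_mem _, Or.inl rfl⟩
  have key : ∀ a ∈ mx R0, σ.symm a ∈ mx R0 ∧ σ.symm (a / xx i) ∈ R0 := fun a hA => by
    have hA' := (hm a).1 hA
    clear hA
    induction hA' using Submodule.span_induction with
    | mem x hx' =>
      obtain ⟨j, rfl⟩ := hx'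
      rw [map_div₀, symm_xx h j, symm_xx h i, if_pos rfl]
      split_ifs with hj
      · exact ⟨hx i, by rw [div_self (xx_ne i)]; exact one_mem _⟩
      · exact ⟨hs _ (xx_R0 j) _ (hx i), by rw [mul_div_cancel_right₀ _ (xx_ne i)]; exact xx_R0 j⟩
    | zero => rw [zero_div, map_zero]; exact ⟨h0, zero_mem _⟩
    | add x y _ _ e e' => rw [add_div, map_add, map_add]; exact ⟨ha _ e.1 _ e'.1, add_mem e.2 e'.2⟩
    | smul c x _ e =>
      rw [show c • x = (c : KK) * x from rfl, mul_div_assoc, map_mul, map_mul]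
      exact ⟨hs _ (symm_R0 h c.2) _ e.1, mul_mem (symm_R0 h c.2) e.2⟩
  have hc : ∀ a ∈ chart R0 (xx i), σ.symm a ∈ R0 := fun a hA => by
    refine (mem_im σ a).1 ((Subring.closure_le.2 ?_ : chart R0 (xx i) ≤ im σ R0) hA)
    rintro f (hf | ⟨g, hg, rfl⟩)
    · exact (mem_im σ f).2 (symm_R0 h hf)
    · exact (mem_im σ _).2 (key g hg).2
  have hR : ∀ a ∈ R0, a ∈ chart R0 (xx i) := fun a hA => Subring.subset_closure (Or.inl hA)
  have hp : ∀ p : PP, σ (algebraMap PP KK p) ∈ chart R0 (xx i) := fun p => by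
    induction p using MvPolynomial.induction_on with
    | C c => exact (fixC (σ : KK →+* KK) c).symm ▸ hR _ (alg_mem _)
    | add p q hp hq => rw [map_add, map_add]; exact add_mem hp hq
    | mul_X p j hp =>
      rw [map_mul, map_mul]
      refine mul_mem hp ?_
      rw [show σ (algebraMap PP KK (X j)) = if j = i then xx i else xx j / xx i from h j]
      split_ifs with hj
      · exact hR _ (xx_R0 i)
      · exact Subring.subset_closure (Or.inr ⟨xx j, hx j, rfl⟩)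
  let P : Ideal (chart R0 (xx i)) :=
    { carrier := {a | σ.symm (a : KK) ∈ mx R0}
      add_mem' := fun {a b} e e' =>
        show σ.symm ((a : KK) + (b : KK)) ∈ mx R0 by rw [map_add]; exact ha _ e _ e'
      zero_mem' := show σ.symm (0 : KK) ∈ mx R0 by rw [map_zero]; exact h0
      smul_mem' := fun c a e =>
        show σ.symm ((c : KK) * (a : KK)) ∈ mx R0 by rw [map_mul]; exact hs _ (hc _ c.2) _ e }
  have hP : ∀ a : chart R0 (xx i), a ∈ P ↔ σ.symm (a : KK) ∈ mx R0 := fun a => Iff.rfl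
  refine ⟨hx i, xx_ne i, ?_, P, ⟨?_, ?_⟩, fun a e => (hP a).2 (key _ e).1, fun f => ⟨?_, ?_⟩⟩
  · exact (ringKrullDim_eq_of_ringEquiv
      (Subring.equivMapOfInjective R0 (σ : KK →+* KK) σ.injective)).symm
  · rw [Ideal.ne_top_iff_one, hP, Subring.coe_one, map_one]
    exact fun e => e.2.elim one_ne_zero fun e => e (by rw [inv_one]; exact one_mem _)
  · intro a b e
    by_contra hn
    rw [not_or, hP, hP] at hn
    obtain ⟨a0, a1⟩ := unit_of (hc _ a.2) hn.1
    obtain ⟨b0, b1⟩ := unit_of (hc _ b.2) hn.2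
    rw [hP, Subring.coe_mul, map_mul] at e
    exact e.2.elim (mul_ne_zero a0 b0) fun e => e (by rw [mul_inv]; exact mul_mem a1 b1)
  · rintro ⟨g, hg, rfl⟩
    obtain ⟨p, q, hq, rfl⟩ := (mem_R0 g).1 hg
    refine ⟨⟨_, hp p⟩, ⟨_, hp q⟩, ?_, map_div₀ σ _ _⟩
    rw [hP, σ.symm_apply_apply]
    exact fun e => e.2.elim (alg_ne hq) fun e =>
      e ((mem_R0 _).2 ⟨1, q, hq, by rw [map_one, one_div]⟩)
  · rintro ⟨a, b, hb, rfl⟩
    rw [mem_im, map_div₀, div_eq_mul_inv]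
    exact mul_mem (hc _ a.2) (unit_of (hc _ b.2) hb).2

end Pool.Agent.Lib.FS80
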