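import Pool.Agent.Lib.FS80.Blue

namespace Pool.Agent.Lib.FS80

open MvPolynomial

namespace QTU_

theorem coe_ne {C : Subring KK} {P : Ideal C} {b : C} (hb : b ∉ P) : (b : KK) ≠ 0 := fun h =>
  hb (by rw [show b = 0 from Subtype.ext h]; exact P.zero_mem)

theorem nonunits {C S : Subring KK} {P : Ideal C} (hP : P.IsPrime)
    (hS : ∀ f, f ∈ S ↔ ∃ a b : C, b ∉ P ∧ f = (a : KK) / (b : KK)) :
    ∃ N : Set KK, (∀ f ∈ N, ∀ g ∈ N, f + g ∈ N) ∧ (∀ f ∈ S, ∀ g ∈ N, f * g ∈ N) ∧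
      (∀ f ∈ S, f ∉ N → f⁻¹ ∈ S) ∧ (∀ f, f ≠ 0 → f⁻¹ ∈ S → f ∉ N) ∧
      ∀ a : C, a ∈ P → (a : KK) ∈ N := by
  have h1 : (1 : C) ∉ P := (Ideal.ne_top_iff_one P).1 hP.ne_top
  have hm : ∀ {b d : C}, b ∉ P → d ∉ P → b * d ∉ P := fun hb hd h =>
    (hP.mem_or_mem h).elim hb hd
  have hmul : ∀ f ∈ S, ∀ g ∈ {f : KK | ∃ a b : C, a ∈ P ∧ b ∉ P ∧ f = (a : KK) / (b : KK)},
      f * g ∈ {f : KK | ∃ a b : C, a ∈ P ∧ b ∉ P ∧ f = (a : KK) / (b : KK)} := by
    rintro f hf g ⟨c, d, hc, hd, rfl⟩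
    obtain ⟨a, b, hb, rfl⟩ := (hS f).1 hf
    exact ⟨a * c, b * d, P.mul_mem_left _ hc, hm hb hd, by push_cast; rw [div_mul_div_comm]⟩
  refine ⟨{f | ∃ a b : C, a ∈ P ∧ b ∉ P ∧ f = (a : KK) / (b : KK)}, ?_, hmul, ?_, ?_,
    fun a ha => ⟨a, 1, ha, h1, by simp⟩⟩
  · rintro f ⟨a, b, ha, hb, rfl⟩ g ⟨c, d, hc, hd, rfl⟩
    exact ⟨a * d + b * c, b * d, P.add_mem (P.mul_mem_right _ ha) (P.mul_mem_left _ hc), hm hb hd,
      by push_cast; rw [div_add_div _ _ (coe_ne hb) (coe_ne hd)]⟩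
  · intro f hf hn
    obtain ⟨a, b, hb, rfl⟩ := (hS f).1 hf
    exact (hS _).2 ⟨b, a, fun ha => hn ⟨a, b, ha, hb, rfl⟩, inv_div _ _⟩
  · intro f h0 hf hn
    obtain ⟨a, b, ha, hb, e⟩ := hmul _ hf _ hn
    rw [inv_mul_cancel₀ h0, eq_div_iff (coe_ne hb), one_mul] at e
    exact hb (by rw [show b = a from Subtype.ext e]; exact ha)

theorem alg_C (c : ℚ) : algebraMap PP KK (C c) = (c : KK) :=
  eq_ratCast ((algebraMap PP KK).comp C) c

theorem span_div {T : Subring KK} (hR : R0 ≤ T) {y : KK} (h : ∀ j, xx j / y ∈ T) {a : KK}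
    (ha : a ∈ gen R0 (Set.range xx)) : a / y ∈ T := by
  induction ha using Submodule.span_induction with
  | mem x hx => obtain ⟨j, rfl⟩ := hx; exact h j
  | zero => rw [zero_div]; exact T.zero_mem
  | add x z _ _ hx hz => rw [add_div]; exact T.add_mem hx hz
  | smul r x _ hx =>
    rw [show r • x = (r : KK) * x from rfl, mul_div_assoc]
    exact T.mul_mem (hR r.2) hx

end QTU_

open QTU_

theorem bQTU (hPW : PW) : QTU := by
  rintro S t ⟨ht, ht0, -, P, hP, hmP, hS⟩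
  have h1 : (1 : chart R0 t) ∉ P := (Ideal.ne_top_iff_one P).1 hP.ne_top
  have hCS : chart R0 t ≤ S := fun f hf => (hS f).2 ⟨⟨f, hf⟩, 1, h1, by simp⟩
  have hRC : R0 ≤ chart R0 t := fun f hf => Subring.subset_closure (Or.inl hf)
  have hRS := hRC.trans hCS
  have hx : ∀ j, xx j ∈ mx R0 := fun j => hPW.2.1 ▸ Submodule.subset_span ⟨j, rfl⟩
  have hxC : ∀ j, xx j / t ∈ chart R0 t := fun j => Subring.subset_closure (Or.inr ⟨_, hx j, rfl⟩)
  obtain ⟨N, nadd, nmul, ninv, nunit, nP⟩ := nonunits hP hS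
  obtain ⟨i, hi⟩ : ∃ i, xx i / t ∉ N := by
    by_contra hc
    push Not at hc
    have key : ∀ a ∈ gen R0 (Set.range xx), a / t ∈ N := fun a ha => by
      induction ha using Submodule.span_induction with
      | mem x hx => obtain ⟨j, rfl⟩ := hx; exact hc j
      | zero => rw [zero_div]; exact nP 0 P.zero_mem
      | add x z _ _ hx hz => rw [add_div]; exact nadd _ hx _ hz
      | smul r x _ hx =>
        rw [show r • x = (r : KK) * x from rfl, mul_div_assoc]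
        exact nmul _ (hRS r.2) _ hx
    have := key t (hPW.2.1 ▸ ht)
    rw [div_self ht0] at this
    exact nunit 1 one_ne_zero (by rw [inv_one]; exact S.one_mem) this
  have hti : t / xx i ∈ S := by simpa using ninv _ (hCS (hxC i)) hi
  have hji : ∀ j, xx j / xx i ∈ S := fun j => by
    have := S.mul_mem (hCS (hxC j)) hti
    rwa [div_mul_div_cancel₀ ht0] at this
  refine ⟨hRS, i, hCS (hxC i), hti, hji, fun σ hσ hn => ?_⟩
  have hC : ∀ c : ℚ, (c : KK) ∈ R0 := fun c => alg_C c ▸ alg_mem _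
  have s1 : ∀ j, σ (xx j) ∈ S ∧ σ (xx j) ∈ N := fun j => by
    rw [hσ j]
    split_ifs with e
    · exact ⟨hRS (hx i).1, nP ⟨xx i, hRC (hx i).1⟩ (hmP _ (hx i))⟩
    · exact ⟨hji j, by_contra fun h => hn j e (by simpa using ninv _ (hji j) h)⟩
  have s2 : ∀ p : PP, σ (algebraMap PP KK p) ∈ S ∧
      σ (algebraMap PP KK p) - ((constantCoeff p : ℚ) : KK) ∈ N := fun p => by
    induction p using MvPolynomial.induction_on with
    | C c =>
      rw [alg_C, map_ratCast, constantCoeff_C, sub_self]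
      exact ⟨hRS (hC c), nP 0 P.zero_mem⟩
    | add p q hp hq =>
      rw [map_add, map_add, map_add, Rat.cast_add, add_sub_add_comm]
      exact ⟨S.add_mem hp.1 hq.1, nadd _ hp.2 _ hq.2⟩
    | mul_X p j hp =>
      rw [map_mul, map_mul, map_mul, constantCoeff_X, mul_zero, Rat.cast_zero, sub_zero]
      exact ⟨S.mul_mem hp.1 (s1 j).1, nmul _ hp.1 _ (s1 j).2⟩
  have s3 : ∀ q : PP, constantCoeff q ≠ 0 → (σ (algebraMap PP KK q))⁻¹ ∈ S := fun q hq =>
    ninv _ (s2 q).1 fun h => by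
      have := nadd _ h _ (nmul _ (S.neg_mem S.one_mem) _ (s2 q).2)
      rw [neg_one_mul, neg_sub, add_sub_cancel] at this
      exact nunit _ (Rat.cast_ne_zero.2 hq) (by rw [← Rat.cast_inv]; exact hRS (hC _)) this
  have mT : ∀ f, f ∈ im σ R0 ↔ ∃ g ∈ R0, σ g = f := fun f => Subring.mem_map
  have dom : ∀ f ∈ im σ R0, f ≠ 0 → f⁻¹ ∈ S → f⁻¹ ∈ im σ R0 := fun f hf h0 hf' => by
    obtain ⟨g, hg, rfl⟩ := (mT f).1 hf
    obtain ⟨p, q, hq, rfl⟩ := (mem_R0 g).1 hg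
    refine (mT _).2 ⟨_, (mem_R0 _).2 ⟨q, p, fun hp => nunit _ h0 hf' ?_, rfl⟩, by
      rw [← map_inv₀, inv_div]⟩
    have := nmul _ (s3 q hq) _ (s2 p).2
    rwa [hp, Rat.cast_zero, sub_zero, mul_comm, ← div_eq_mul_inv, ← map_div₀] at this
  have tx : ∀ j, xx j / xx i ∈ im σ R0 := fun j => by
    by_cases e : j = i
    · rw [e, div_self (xx_ne i)]; exact Subring.one_mem _
    · exact (mT _).2 ⟨_, (hx j).1, by rw [hσ j, if_neg e]⟩
  have ti : xx i ∈ im σ R0 := (mT _).2 ⟨_, (hx i).1, by rw [hσ i, if_pos rfl]⟩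
  have tp : ∀ p : PP, algebraMap PP KK p ∈ im σ R0 := fun p => by
    induction p using MvPolynomial.induction_on with
    | C c => rw [alg_C]; exact (mT _).2 ⟨_, hC c, map_ratCast σ c⟩
    | add p q hp hq => rw [map_add]; exact Subring.add_mem _ hp hq
    | mul_X p j hp =>
      have := Subring.mul_mem _ (tx j) ti
      rw [div_mul_cancel₀ _ (xx_ne i)] at this
      rw [map_mul]
      exact Subring.mul_mem _ hp this
  have hRT : R0 ≤ im σ R0 := fun f hf => by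
    obtain ⟨p, q, hq, rfl⟩ := (mem_R0 f).1 hf
    rw [div_eq_mul_inv]
    exact Subring.mul_mem _ (tp p) (dom _ (tp q) (alg_ne hq)
      (hRS ((mem_R0 _).2 ⟨1, q, hq, by rw [map_one, one_div]⟩)))
  have hit : xx i / t ∈ im σ R0 := by
    simpa using dom _ (span_div hRT tx (hPW.2.1 ▸ ht)) (div_ne_zero ht0 (xx_ne i))
      (by simpa using hCS (hxC i))
  have hCT : chart R0 t ≤ im σ R0 := Subring.closure_le.2 (Set.union_subset hRT (by
    rintro _ ⟨a, ha, rfl⟩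
    have := Subring.mul_mem _ (span_div hRT tx (hPW.2.1 ▸ ha)) hit
    rwa [div_mul_div_cancel₀ (xx_ne i)] at this))
  refine le_antisymm (fun f hf => ?_) fun f hf => ?_
  · obtain ⟨a, b, hb, rfl⟩ := (hS f).1 hf
    rw [div_eq_mul_inv]
    exact Subring.mul_mem _ (hCT a.2) (dom _ (hCT b.2) (coe_ne hb)
      ((hS _).2 ⟨1, b, hb, by simp⟩))
  · obtain ⟨g, hg, rfl⟩ := (mT f).1 hf
    obtain ⟨p, q, hq, rfl⟩ := (mem_R0 g).1 hg
    rw [map_div₀, div_eq_mul_inv]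
    exact S.mul_mem (s2 p).1 (s3 q hq)

end Pool.Agent.Lib.FS80
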