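import Pool.Agent.Lib.FS80.Blue

/-! Recursion for the support of the point basis. -/

namespace Pool.Agent.Lib.FS80

namespace REC_

variable {K : Type} [Field K]

lemma qt_le {S S' : Subring K} {x : K} (h : QT S S' x) : S ≤ S' := by
  obtain ⟨-, -, -, P, hP, -, hm⟩ := h
  intro a ha
  exact (hm a).2 ⟨⟨a, Subring.subset_closure (Or.inl ha)⟩, 1,
    (Ideal.ne_top_iff_one P).1 hP.ne_top, by simp⟩

lemma near_le {R S : Subring K} {I J : Set K} (h : Near R I S J) : R ≤ S := by
  induction h with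
  | base => exact le_rfl
  | step _ hq ih => exact ih.trans (qt_le hq)

lemma near_head {R S' : Subring K} {I J : Set K} (h : Near R I S' J) :
    (S' = R ∧ J = I) ∨ ∃ S x, QT R S x ∧ Near S (tr R S x I) S' J := by
  induction h with
  | base => exact Or.inl ⟨rfl, rfl⟩
  | step _ hq ih =>
    rcases ih with ⟨rfl, rfl⟩ | ⟨S, y, h1, h2⟩
    · exact Or.inr ⟨_, _, hq, Near.base⟩
    · exact Or.inr ⟨S, y, h1, h2.step hq⟩

lemma near_cons {R S S' : Subring K} {I J : Set K} {x : K} (hq : QT R S x)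
    (h : Near S (tr R S x I) S' J) : Near R I S' J := by
  induction h with
  | base => exact Near.base.step hq
  | step _ hq' ih => exact ih.step hq'

end REC_

theorem bREC : REC := by
  intro R I
  refine ⟨fun S ⟨_, h, _⟩ => REC_.near_le h, fun S' ⟨J, h, ho⟩ => ?_,
    fun S x hq S' ⟨J, h, ho⟩ => ⟨J, REC_.near_cons hq h, ho⟩⟩
  rcases REC_.near_head h with ⟨e, -⟩ | ⟨S, x, h1, h2⟩
  · exact Or.inl e
  · exact Or.inr ⟨S, x, h1, J, h2, ho⟩

end Pool.Agent.Lib.FS80
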