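import Pool.Agent.Lib.FS80.Blue

/-! Row STEP: one step of the finite support recursion. -/

namespace Pool.Agent.Lib.FS80

namespace STEP_

theorem mon_mem {A : Set (Fin 3 → ℕ)} {a : Fin 3 → ℕ} (ha : a ∈ A) : mon a ∈ MI A :=
  Submodule.subset_span (Set.mem_image_of_mem _ ha)

theorem mon_single (j : Fin 3) (r : ℕ) : mon (Pi.single j r) = xx j ^ r := by
  unfold mon
  rw [Finset.prod_eq_single j]
  · rw [Pi.single_eq_same]
  · intro b _ hb
    rw [Pi.single_eq_of_ne hb, pow_zero]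
  · intro h
    exact absurd (Finset.mem_univ j) h

theorem sz_single (j : Fin 3) (r : ℕ) : sz (Pi.single j r) = r := by
  unfold sz
  rw [Finset.sum_eq_single j]
  · rw [Pi.single_eq_same]
  · intro b _ hb
    rw [Pi.single_eq_of_ne hb]
  · intro h
    exact absurd (Finset.mem_univ j) h

theorem one_mem {S : Subring KK} {t : KK} {I : Set KK} {r : ℕ} {j : Fin 3} (ht : t ≠ 0)
    (hord : ord R0 I = r) (hI : xx j ^ r ∈ I) (hj : t / xx j ∈ S) : (1 : KK) ∈ tr R0 S t I := by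
  have h1 : xx j ^ r / t ^ r ∈ Submodule.span S ((fun a => a / t ^ ord R0 I) '' I) :=
    Submodule.subset_span ⟨xx j ^ r, hI, by rw [hord]⟩
  have h2 := Submodule.smul_mem _ (⟨(t / xx j) ^ r, S.pow_mem hj r⟩ : S) h1
  have h3 : (⟨(t / xx j) ^ r, S.pow_mem hj r⟩ : S) • (xx j ^ r / t ^ r) = 1 := by
    change (t / xx j) ^ r * (xx j ^ r / t ^ r) = 1
    rw [← div_pow, ← mul_pow, div_mul_div_cancel₀ (xx_ne j), div_self ht, one_pow]
  rw [h3] at h2
  exact h2

end STEP_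

theorem bSTEP (hORD : ORD) (hUNIT : UNIT) (hAUT : AUT) (hQTU : QTU) (hTRANS : TRANS)
    (hREC : REC) (hTRM : TRM) : STEP := by
  intro i A r hA hs hfin
  obtain ⟨σ, hσ⟩ := hAUT i
  obtain ⟨j0, hj0⟩ := exists_ne i
  have hord : ord R0 (MI A) = r :=
    hORD (MI A) A r (Pi.single j0 r) subset_rfl hA (STEP_.mon_mem (hs j0 hj0))
      (STEP_.sz_single j0 r)
  refine ((hfin.image (im σ)).insert R0).subset ?_
  intro S' hS'
  rcases (hREC R0 (MI A)).2.1 S' hS' with h | ⟨S, t, hQ, hS⟩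
  · exact Or.inl h
  right
  have ht : t ≠ 0 := hQ.2.1
  obtain ⟨_, k, hk1, hk2, _, hk4⟩ := hQTU S t hQ
  have hno : ∀ j, j ≠ i → t / xx j ∉ S := by
    intro j hj hmem
    have hx : xx j ^ r ∈ MI A := STEP_.mon_single j r ▸ STEP_.mon_mem (hs j hj)
    rw [hUNIT.1 S _ (STEP_.one_mem ht hord hx hmem)] at hS
    exact hS
  have hki : k = i := by
    by_contra hne
    exact hno k hne hk2
  subst hki
  have hSe : S = im σ R0 := by
    refine hk4 σ hσ fun j hj hmem => hno j hj ?_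
    have h := S.mul_mem hk2 hmem
    rwa [div_mul_div_cancel₀ (xx_ne k)] at h
  subst hSe
  obtain ⟨J', hJ1, hJ2, hJ3, hJ4⟩ := hTRM k σ hσ (MI A) A r t subset_rfl hA hord ht hk2 hk1
  have hJ : J' = MI (TT k r '' A) := by
    refine Set.Subset.antisymm hJ2 ?_
    rw [← hJ3]
    refine Submodule.span_mono ?_
    rintro _ ⟨_, ⟨a, ha, rfl⟩, rfl⟩
    exact hJ4 a (STEP_.mon_mem ha) (hA a ha)
  rw [hJ1, hJ, hTRANS] at hS
  exact hS

end Pool.Agent.Lib.FS80
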