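import Pool.Agent.Lib.FS80.Blue

/-! Row SUP: membership in monomial ideals of the local ring of the origin. -/

namespace Pool.Agent.Lib.FS80

open MvPolynomial

namespace SUP_

theorem mon_mem (a : Fin 3 → ℕ) : mon a ∈ R0 :=
  prod_mem fun _ _ => pow_mem (alg_mem _) _

theorem alg_monomial (a : Fin 3 →₀ ℕ) (c : ℚ) :
    algebraMap PP KK (monomial a c) = algebraMap PP KK (C c) * mon a := by
  rw [monomial_eq, map_mul, Finsupp.prod_fintype _ _ (fun i => pow_zero _), map_prod]
  simp only [map_pow, mon, xx]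

theorem mul_mem_MI {A : Set (Fin 3 → ℕ)} {r f : KK} (hr : r ∈ R0) (hf : f ∈ MI A) :
    r * f ∈ MI A :=
  (Submodule.span R0 (mon '' A)).smul_mem (⟨r, hr⟩ : R0) hf

theorem mon_mem_MI {A : Set (Fin 3 → ℕ)} {a : Fin 3 → ℕ} (ha : a ∈ A) : mon a ∈ MI A :=
  Submodule.subset_span (R := R0) ⟨a, ha, rfl⟩

theorem mon_add (a b : Fin 3 → ℕ) : mon (a + b) = mon a * mon b := by
  simp only [mon, Pi.add_apply, pow_add, Finset.prod_mul_distrib]

end SUP_

open SUP_ in
theorem bSUP (hMEM : MEM) : SUP := by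
  refine ⟨?_, ?_, ?_⟩
  · intro ι w v t hv f hf ht
    by_cases h0 : f = 0
    · rw [h0]
      exact (Submodule.span R0 (mon '' _)).zero_mem
    obtain ⟨p, q, hq, hpq⟩ := (mem_R0 f).1 hf
    have hq0 := alg_ne hq
    have hfq : f * algebraMap PP KK q = algebraMap PP KK p := by
      rw [hpq, div_mul_cancel₀ _ hq0]
    have hp : p ≠ 0 := by
      rintro rfl
      exact h0 (by rw [hpq, map_zero, zero_div])
    have hs : ∀ a ∈ p.support, ∀ i, t i ≤ dot (w i) a := by
      intro a ha i
      refine ((hv i).2.2 p hp (t i)).1 ?_ a ha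
      rw [← hfq, (hv i).1 f _ h0 hq0, (hMEM _ _ (hv i)).2.1 q hq, add_zero]
      exact ht h0 i
    have hpm : algebraMap PP KK p ∈ MI {a | ∀ i, t i ≤ dot (w i) a} := by
      rw [p.as_sum, map_sum]
      refine (Submodule.span R0 (mon '' _)).sum_mem fun a ha => ?_
      rw [alg_monomial]
      exact mul_mem_MI (alg_mem _) (mon_mem_MI (hs a ha))
    have h1 : (algebraMap PP KK q)⁻¹ ∈ R0 :=
      (mem_R0 _).2 ⟨1, q, hq, by rw [map_one, one_div]⟩
    rw [hpq, div_eq_inv_mul]
    exact mul_mem_MI h1 hpm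
  · intro A B h
    have hle : Submodule.span R0 (mon '' A) ≤ Submodule.span R0 (mon '' B) := by
      refine Submodule.span_le.2 ?_
      rintro _ ⟨a, ha, rfl⟩
      obtain ⟨b, hb, hba⟩ := h a ha
      have hab : mon a = mon (a - b) * mon b := by
        rw [← mon_add, tsub_add_cancel_of_le hba]
      rw [hab]
      exact mul_mem_MI (mon_mem _) (mon_mem_MI hb)
    exact fun f hf => hle hf
  · intro A f hf
    have hf' : f ∈ Submodule.span R0 (mon '' A) := hf
    clear hf
    induction hf' using Submodule.span_induction with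
    | mem x hx =>
      obtain ⟨a, _, rfl⟩ := hx
      exact mon_mem a
    | zero => exact R0.zero_mem
    | add x y _ _ hx hy => exact R0.add_mem hx hy
    | smul r x _ hx => exact R0.mul_mem r.2 hx

end Pool.Agent.Lib.FS80
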