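import Pool.Agent.Lib.FS80.Blue

/-! Row TRANS: transport along a field automorphism. -/

namespace Pool.Agent.Lib.FS80

namespace TRANS_

variable {K : Type} [Field K] (φ : K ≃+* K)

/-- image of a subring -/
def mp (S : Subring K) : Subring K := S.map (φ : K →+* K)

lemma mem_mp (S : Subring K) (a : K) : φ a ∈ mp φ S ↔ a ∈ S :=
  ⟨fun ⟨_, hb, h⟩ => φ.injective h ▸ hb, fun h => ⟨a, h, rfl⟩⟩

lemma mp_symm (S : Subring K) : mp φ.symm (mp φ S) = S := Subring.ext fun a => by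
  rw [← mem_mp φ S a, ← mem_mp φ.symm (mp φ S) (φ a), φ.symm_apply_apply]

lemma img_symm (I : Set K) : φ.symm '' (φ '' I) = I := φ.toEquiv.symm_image_image I

lemma mem_mx (S : Subring K) (a : K) : φ a ∈ mx (mp φ S) ↔ a ∈ mx S := by
  simp only [mx, Set.mem_ofPred_eq]
  rw [← map_inv₀, mem_mp, mem_mp, φ.map_eq_zero_iff]

lemma img_mx (S : Subring K) : φ '' mx S = mx (mp φ S) :=
  Set.ext (φ.surjective.forall.2 fun a => φ.injective.mem_set_image.trans (mem_mx φ S a).symm)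

lemma gen_sub (S : Subring K) (A : Set K) (a : K) (h : a ∈ gen S A) :
    φ a ∈ gen (mp φ S) (φ '' A) := by
  induction h using Submodule.span_induction with
  | mem x hx => exact Submodule.subset_span ⟨x, hx, rfl⟩
  | zero => rw [map_zero]; exact Submodule.zero_mem _
  | add x y _ _ hx hy => rw [map_add]; exact Submodule.add_mem _ hx hy
  | smul c x _ hx =>
    rw [Subring.smul_def, smul_eq_mul, map_mul]
    exact Submodule.smul_mem _ (⟨φ c, (mem_mp φ S c).2 c.2⟩ : mp φ S) hx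

lemma pw_sub (S : Subring K) (A : Set K) (r : ℕ) :
    ∀ a ∈ pw S A r, φ a ∈ pw (mp φ S) (φ '' A) r := by
  induction r with
  | zero =>
    intro a h
    rw [pw, pow_zero] at h ⊢
    obtain ⟨y, rfl⟩ := Submodule.mem_one.1 h
    exact Submodule.mem_one.2 ⟨⟨φ y, (mem_mp φ S y).2 y.2⟩, rfl⟩
  | succ r ih =>
    intro a h
    rw [pw, pow_succ] at h ⊢
    refine Submodule.mul_induction_on h (fun m hm n hn => ?_) fun x y hx hy => ?_
    · rw [map_mul]; exact Submodule.mul_mem_mul (ih m hm) (gen_sub φ S A n hn)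
    · rw [map_add]; exact Submodule.add_mem _ hx hy

lemma iff_of (F : Subring K → Set K → Set K)
    (h : ∀ (ψ : K ≃+* K) S A, ∀ a ∈ F S A, ψ a ∈ F (mp ψ S) (ψ '' A)) (S : Subring K) (A : Set K)
    (a : K) : φ a ∈ F (mp φ S) (φ '' A) ↔ a ∈ F S A :=
  ⟨fun h0 => by simpa only [mp_symm, img_symm, φ.symm_apply_apply] using h φ.symm _ _ _ h0,
    h φ S A a⟩

lemma ord_mp (S : Subring K) (I : Set K) : ord (mp φ S) (φ '' I) = ord S I := by
  refine congrArg sSup (Set.ext fun r => ?_)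
  rw [Set.mem_ofPred_eq, Set.mem_ofPred_eq, ← img_mx, Set.image_subset_iff]
  exact forall₂_congr fun a _ => iff_of φ (fun S A => pw S A r) (fun ψ S A => pw_sub ψ S A r) S _ a

lemma icl_sub (S : Subring K) (I : Set K) (a : K) (h : a ∈ icl S I) :
    φ a ∈ icl (mp φ S) (φ '' I) := by
  obtain ⟨ha, n, c, hc, he⟩ := h
  refine ⟨(mem_mp φ S a).2 ha, n, fun i => φ (c i), fun i => pw_sub φ S I _ _ (hc i), ?_⟩
  simpa only [map_add, map_pow, map_sum, map_mul, map_zero] using congrArg φ he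

lemma img_icl (S : Subring K) (I : Set K) : φ '' icl S I = icl (mp φ S) (φ '' I) :=
  Set.ext (φ.surjective.forall.2 fun a =>
    φ.injective.mem_set_image.trans (iff_of φ icl icl_sub S I a).symm)

lemma img_div (A : Set K) (x : K) :
    φ '' ((fun a => a / x) '' A) = (fun a => a / φ x) '' (φ '' A) := by
  rw [Set.image_image, Set.image_image]
  exact Set.image_congr fun a _ => map_div₀ φ a x

lemma chart_mp (S : Subring K) (x : K) : mp φ (chart S x) = chart (mp φ S) (φ x) := by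
  rw [chart, chart, mp, RingHom.map_closure, Set.image_union, ← img_mx, ← img_div]
  rfl

lemma prime_mp (C C' : Subring K) (hc : ∀ a, φ a ∈ C' ↔ a ∈ C) (P : Ideal C) (hP : P.IsPrime) :
    ∃ P' : Ideal C', P'.IsPrime ∧ ∀ (a : C) (b : C'), (b : K) = φ a → (b ∈ P' ↔ a ∈ P) := by
  have hc' : ∀ a : C', φ.symm a ∈ C := fun a => (hc _).1 (by rw [φ.apply_symm_apply]; exact a.2)
  refine ⟨P.comap (((φ.symm : K →+* K).comp C'.subtype).codRestrict C hc'),
    Ideal.comap_isPrime _ P, fun a b h => ?_⟩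
  have h1 : ((φ.symm : K →+* K).comp C'.subtype).codRestrict C hc' b = a :=
    Subtype.ext (φ.symm_apply_eq.2 h)
  rw [Ideal.mem_comap, h1]

lemma qt_mp {S S' : Subring K} {x : K} (h : QT S S' x) : QT (mp φ S) (mp φ S') (φ x) := by
  obtain ⟨hx, hx0, hd, P, hP, hm, hf⟩ := h
  have hc : ∀ a, φ a ∈ chart (mp φ S) (φ x) ↔ a ∈ chart S x := fun a => by
    rw [← chart_mp, mem_mp]
  have dim_mp : ∀ T : Subring K, ringKrullDim (mp φ T) = ringKrullDim T := fun T =>
    (ringKrullDim_eq_of_ringEquiv (φ.subringMap (s := T))).symm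
  obtain ⟨P', hP', hPP⟩ := prime_mp φ _ _ hc P hP
  have hs : ∀ b : chart (mp φ S) (φ x), ∃ a : chart S x, (b : K) = φ a := fun b =>
    ⟨⟨φ.symm b, (hc _).1 (by rw [φ.apply_symm_apply]; exact b.2)⟩, (φ.apply_symm_apply _).symm⟩
  refine ⟨(mem_mx φ S x).2 hx, (map_ne_zero φ).2 hx0, by rw [dim_mp, dim_mp, hd], P', hP',
    fun b hb => ?_, fun g => ?_⟩
  · obtain ⟨a, ha⟩ := hs b
    exact (hPP a b ha).2 (hm a (by rwa [ha, mem_mx] at hb))
  obtain ⟨f, rfl⟩ := φ.surjective g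
  rw [mem_mp, hf]
  refine ⟨fun ⟨a, b, hb, he⟩ => ⟨⟨φ a, (hc _).2 a.2⟩, ⟨φ b, (hc _).2 b.2⟩,
    fun hb' => hb ((hPP b _ rfl).1 hb'), by rw [he, map_div₀]⟩, fun ⟨a, b, hb, he⟩ => ?_⟩
  obtain ⟨⟨a', ha'⟩, b', hb'⟩ := And.intro (hs a) (hs b)
  exact ⟨a', b', fun h => hb ((hPP b' b hb').2 h), φ.injective (by rw [he, ha', hb', map_div₀])⟩

lemma tr_mp (S S' : Subring K) (x : K) (I : Set K) :
    φ '' tr S S' x I = tr (mp φ S) (mp φ S') (φ x) (φ '' I) := by
  refine Set.ext (φ.surjective.forall.2 fun a => ?_)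
  rw [φ.injective.mem_set_image, tr, tr, ord_mp, ← map_pow, ← img_div, iff_of φ gen gen_sub]

lemma supp_sub (R : Subring K) (I : Set K) (S : Subring K) (h : S ∈ supp R I) :
    mp φ S ∈ supp (mp φ R) (φ '' I) := by
  obtain ⟨J, hJ, ho⟩ := h
  refine ⟨φ '' J, ?_, by rwa [← img_icl, ord_mp]⟩
  clear ho
  induction hJ with
  | base => exact Near.base
  | step _ hq ih => exact tr_mp φ _ _ _ _ ▸ Near.step ih (qt_mp φ hq)

end TRANS_

theorem bTRANS : TRANS := by
  intro φ R I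
  refine Set.Subset.antisymm (fun S hS => ?_) (Set.image_subset_iff.2 (TRANS_.supp_sub φ R I))
  have h1 := TRANS_.supp_sub φ.symm (TRANS_.mp φ R) _ S hS
  rw [TRANS_.mp_symm, TRANS_.img_symm] at h1
  exact ⟨_, h1, TRANS_.mp_symm φ.symm S⟩

end Pool.Agent.Lib.FS80
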