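import Pool.Agent.Lib.FS80.Blue

/-! Row TRM: the transform of an ideal inside a monomial ideal, in a coordinate chart. -/

namespace Pool.Agent.Lib.FS80

open MvPolynomial

namespace TRM_

variable {i : Fin 3} {σ : KK ≃+* KK}

theorem symm_xx (h : IsSig i σ) (j : Fin 3) :
    σ.symm (xx j) = if j = i then xx i else xx j * xx i := by
  have hi : σ (xx i) = xx i := by rw [h i, if_pos rfl]
  rw [RingEquiv.symm_apply_eq]
  by_cases hj : j = i
  · rw [if_pos hj, hi, hj]
  · rw [if_neg hj, map_mul, hi, h j, if_neg hj, div_mul_cancel₀ _ (xx_ne i)]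

/-- the substitution on polynomials -/
noncomputable def tau (i : Fin 3) : PP →+* PP :=
  eval₂Hom C (fun j => if j = i then X i else X j * X i)

theorem symm_alg (h : IsSig i σ) (p : PP) :
    σ.symm (algebraMap PP KK p) = algebraMap PP KK (tau i p) := by
  have key : (σ.symm : KK →+* KK).comp (algebraMap PP KK) = (algebraMap PP KK).comp (tau i) := by
    refine MvPolynomial.ringHom_ext' (RingHom.ext_rat _ _) (fun j => ?_)
    show σ.symm (xx j) = algebraMap PP KK (tau i (X j))
    rw [symm_xx h j, tau, eval₂Hom_X']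
    by_cases hj : j = i
    · rw [if_pos hj, if_pos hj]; rfl
    · rw [if_neg hj, if_neg hj, map_mul]; rfl
  exact RingHom.congr_fun key p

theorem cc_tau (i : Fin 3) (p : PP) : constantCoeff (tau i p) = constantCoeff p := by
  have key : (constantCoeff : PP →+* ℚ).comp (tau i) = constantCoeff := by
    refine MvPolynomial.ringHom_ext' (RingHom.ext_rat _ _) (fun j => ?_)
    show constantCoeff (tau i (X j)) = constantCoeff (X j : PP)
    rw [tau, eval₂Hom_X']
    by_cases hj : j = i
    · rw [if_pos hj, constantCoeff_X, constantCoeff_X]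
    · rw [if_neg hj, map_mul, constantCoeff_X, constantCoeff_X, mul_zero]
  exact RingHom.congr_fun key p

theorem symm_mem (h : IsSig i σ) {f : KK} (hf : f ∈ R0) : σ.symm f ∈ R0 := by
  obtain ⟨p, q, hq, rfl⟩ := (mem_R0 f).1 hf
  refine (mem_R0 _).2 ⟨tau i p, tau i q, by rw [cc_tau]; exact hq, ?_⟩
  rw [map_div₀, symm_alg h, symm_alg h]

theorem mem_im {f : KK} : f ∈ im σ R0 ↔ σ.symm f ∈ R0 := by
  refine ⟨?_, fun hf => ⟨σ.symm f, hf, σ.apply_symm_apply f⟩⟩
  rintro ⟨g, hg, rfl⟩
  show σ.symm (σ g) ∈ R0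
  rw [σ.symm_apply_apply]; exact hg

theorem sig_mon (h : IsSig i σ) {r : ℕ} {b : Fin 3 → ℕ} (hb : r ≤ sz b) :
    σ (mon (TT i r b)) = mon b / xx i ^ r := by
  have hi : σ (xx i) = xx i := by rw [h i, if_pos rfl]
  have hs : sz b = b i + ∑ j ∈ Finset.univ.erase i, b j :=
    (Finset.add_sum_erase _ _ (Finset.mem_univ i)).symm
  have h1 : ∏ j ∈ Finset.univ.erase i, σ (xx j ^ TT i r b j) =
      (∏ j ∈ Finset.univ.erase i, xx j ^ b j) / xx i ^ ∑ j ∈ Finset.univ.erase i, b j := by
    rw [← Finset.prod_pow_eq_pow_sum, ← Finset.prod_div_distrib]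
    refine Finset.prod_congr rfl (fun j hj => ?_)
    have hji : j ≠ i := Finset.ne_of_mem_erase hj
    rw [map_pow, h j, if_neg hji, TT, Function.update_of_ne hji, div_pow]
  have h2 : xx i ^ (sz b - r) * xx i ^ r =
      xx i ^ b i * xx i ^ ∑ j ∈ Finset.univ.erase i, b j := by
    rw [← pow_add, ← pow_add, Nat.sub_add_cancel hb, hs]
  rw [mon, mon, map_prod, ← Finset.mul_prod_erase _ _ (Finset.mem_univ i),
    ← Finset.mul_prod_erase _ (fun j => xx j ^ b j) (Finset.mem_univ i), h1, map_pow, hi, TT,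
    Function.update_self, ← mul_div_assoc,
    div_eq_div_iff (pow_ne_zero _ (xx_ne i)) (pow_ne_zero _ (xx_ne i))]
  linear_combination (∏ j ∈ Finset.univ.erase i, xx j ^ b j) * h2

/-- the preimage of a module over the image ring -/
noncomputable def pre (σ : KK ≃+* KK) (M : Submodule (im σ R0) KK) : Submodule R0 KK where
  carrier := {f | σ f ∈ M}
  zero_mem' := by show σ 0 ∈ M; rw [map_zero]; exact M.zero_mem
  add_mem' := fun {a b} ha hb => by show σ (a + b) ∈ M; rw [map_add]; exact M.add_mem ha hb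
  smul_mem' := fun c a ha => by
    show σ ((c : KK) * a) ∈ M
    rw [map_mul]
    exact M.smul_mem ⟨σ c, ⟨c, c.2, rfl⟩⟩ ha

theorem gen_mem (h : IsSig i σ) {A : Set (Fin 3 → ℕ)} {r : ℕ} (hA : ∀ a ∈ A, r ≤ sz a) {f : KK}
    (hf : f ∈ Submodule.span R0 (mon '' A)) :
    σ.symm (f / xx i ^ r) ∈ Submodule.span R0 (mon '' (TT i r '' A)) := by
  induction hf using Submodule.span_induction with
  | mem x hx =>
    obtain ⟨b, hb, rfl⟩ := hx
    rw [← sig_mon h (hA b hb), σ.symm_apply_apply]
    exact Submodule.subset_span ⟨_, ⟨b, hb, rfl⟩, rfl⟩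
  | zero => rw [zero_div, map_zero]; exact Submodule.zero_mem _
  | add x y _ _ hx hy => rw [add_div, map_add]; exact Submodule.add_mem _ hx hy
  | smul c x _ hx =>
    show σ.symm ((c : KK) * x / xx i ^ r) ∈ _
    rw [mul_div_assoc, map_mul]
    exact Submodule.smul_mem _ (⟨σ.symm c, symm_mem h c.2⟩ : R0) hx

end TRM_

open TRM_ in
theorem bTRM : TRM := by
  intro i σ h J A r t hJ hA hord ht h1 h2
  have hM : tr R0 (im σ R0) t J =
      (Submodule.span (im σ R0) ((fun a => a / t ^ r) '' J) : Submodule (im σ R0) KK) := by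
    rw [tr, hord]; rfl
  refine ⟨(pre σ (Submodule.span (im σ R0) ((fun a => a / t ^ r) '' J)) : Submodule R0 KK),
    ?_, ?_, ?_, ?_⟩
  · rw [hM]
    exact (Set.image_preimage_eq _ σ.surjective).symm
  · have key : ∀ g ∈ Submodule.span (im σ R0) ((fun a => a / t ^ r) '' J),
        σ.symm g ∈ Submodule.span R0 (mon '' (TT i r '' A)) := by
      intro g hg
      induction hg using Submodule.span_induction with
      | mem x hx =>
        obtain ⟨a, ha, rfl⟩ := hx
        have e : a / t ^ r = (xx i / t) ^ r * (a / xx i ^ r) := by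
          rw [div_pow, div_mul_div_comm, mul_comm (xx i ^ r) a,
            mul_div_mul_right _ _ (pow_ne_zero _ (xx_ne i))]
        show σ.symm (a / t ^ r) ∈ _
        rw [e, map_mul, map_pow]
        exact Submodule.smul_mem _ (⟨_, R0.pow_mem (mem_im.1 h2) r⟩ : R0) (gen_mem h hA (hJ ha))
      | zero => rw [map_zero]; exact Submodule.zero_mem _
      | add x y _ _ hx hy => rw [map_add]; exact Submodule.add_mem _ hx hy
      | smul c x _ hx =>
        show σ.symm ((c : KK) * x) ∈ _
        rw [map_mul]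
        exact Submodule.smul_mem _ (⟨σ.symm c, mem_im.1 c.2⟩ : R0) hx
    intro f hf
    have := key (σ f) hf
    rw [σ.symm_apply_apply] at this
    exact this
  · rw [gen, Submodule.span_eq]
  · intro a ha hr
    show σ (mon (TT i r a)) ∈ Submodule.span (im σ R0) ((fun a => a / t ^ r) '' J)
    have e : mon a / xx i ^ r = (t / xx i) ^ r * (mon a / t ^ r) := by
      rw [div_pow, div_mul_div_comm, mul_comm (t ^ r) (mon a),
        mul_div_mul_right _ _ (pow_ne_zero _ ht)]
    rw [sig_mon h hr, e]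
    exact Submodule.smul_mem _ (⟨_, (im σ R0).pow_mem h1 r⟩ : im σ R0)
      (Submodule.subset_span ⟨_, ha, rfl⟩)

end Pool.Agent.Lib.FS80
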