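import Pool.Agent.Lib.FS80.Blue

/-! Row UNIT: the unit ideal has empty support, and an ideal lies in its integral closure. -/

namespace Pool.Agent.Lib.FS80

namespace UNIT_

theorem ord_zero (S : Subring KK) (J : Set KK) (h : (1 : KK) ∈ J) : ord S J = 0 := by
  have hle : (Submodule.span S (mx S) : Submodule S KK) ≤ 1 := by
    rw [Submodule.span_le]
    intro a ha
    exact Submodule.mem_one.2 ⟨⟨a, ha.1⟩, rfl⟩
  unfold ord
  by_cases hex : ∃ r, 0 < r ∧ J ⊆ pw S (mx S) r
  · obtain ⟨r, hr, hJ⟩ := hex
    obtain ⟨k, rfl⟩ : ∃ k, r = k + 1 := ⟨r - 1, by omega⟩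
    have hk : ∀ k : ℕ, (Submodule.span S (mx S) : Submodule S KK) ^ k ≤ 1 := by
      intro k
      induction k with
      | zero => rw [pow_zero]
      | succ k ih =>
        rw [pow_succ]
        exact (mul_le_mul' ih hle).trans (by rw [one_mul])
    have h1 : (1 : KK) ∈ (Submodule.span S (mx S) : Submodule S KK) := by
      have h2 : (Submodule.span S (mx S) : Submodule S KK) ^ (k + 1) ≤
          Submodule.span S (mx S) := by
        rw [pow_succ]
        exact (mul_le_mul' (hk k) le_rfl).trans (by rw [one_mul])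
      exact h2 (hJ h)
    have heq : (Submodule.span S (mx S) : Submodule S KK) = 1 :=
      le_antisymm hle (Submodule.one_le.2 h1)
    have huniv : {r | J ⊆ pw S (mx S) r} = Set.univ := by
      refine Set.eq_univ_of_forall fun r => ?_
      have h3 : pw S (mx S) r = pw S (mx S) (k + 1) := by
        unfold pw
        rw [heq, one_pow, one_pow]
      show J ⊆ pw S (mx S) r
      rw [h3]
      exact hJ
    rw [huniv]
    exact Nat.sSup_of_not_bddAbove not_bddAbove_univ
  · refine Nat.eq_zero_of_le_zero (csSup_le' fun r hr => ?_)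
    by_contra hlt
    exact hex ⟨r, by omega, hr⟩

theorem sub_icl (S : Subring KK) (I : Set KK) (f : KK) (hS : f ∈ S) (hf : f ∈ I) :
    f ∈ icl S I := by
  refine ⟨hS, 0, fun i => if i = 0 then -f else 0, fun i => ?_, by simp⟩
  unfold pw
  by_cases hi : i = 0
  · subst hi
    simp only [if_true, zero_add, pow_one]
    exact Submodule.neg_mem _ (Submodule.subset_span hf)
  · simp only [if_neg hi]
    exact Submodule.zero_mem _

theorem near_one (R : Subring KK) (I : Set KK) (h : (1 : KK) ∈ I) (S : Subring KK) (J : Set KK)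
    (hN : Near R I S J) : (1 : KK) ∈ J := by
  induction hN with
  | base => exact h
  | step _ _ ih =>
    unfold tr gen
    rw [ord_zero _ _ ih]
    exact Submodule.subset_span ⟨1, ih, by simp⟩

end UNIT_

theorem bUNIT : UNIT := by
  refine ⟨fun S I h => ?_, fun S I h f hf => UNIT_.sub_icl S I f (h hf) hf⟩
  refine Set.eq_empty_of_forall_notMem fun S' hS' => ?_
  obtain ⟨J, hN, hJ⟩ := hS'
  exact hJ (UNIT_.ord_zero S' _
    (UNIT_.sub_icl S' J 1 S'.one_mem (UNIT_.near_one S I h S' J hN)))

end Pool.Agent.Lib.FS80
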