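import Pool.Agent.Lib.FS80.Blue

/-! Row UP: the upper bound for the adjoint, from one prime divisor. -/

namespace Pool.Agent.Lib.FS80

namespace UP_

variable {w : Fin 3 → ℕ} {v : KK → ℤ} {V : Subring KK}

theorem v_one (h : IsWV w v) : v 1 = 0 := by
  have e := h.1 1 1 one_ne_zero one_ne_zero
  rw [mul_one] at e; omega

theorem v_inv (h : IsWV w v) {f : KK} (hf : f ≠ 0) : v f⁻¹ = -v f := by
  have e := h.1 f f⁻¹ hf (inv_ne_zero hf)
  rw [mul_inv_cancel₀ hf, v_one h] at e; omega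

theorem v_pow (h : IsWV w v) {f : KK} (hf : f ≠ 0) (n : ℕ) : v (f ^ n) = n * v f := by
  induction n with
  | zero => rw [pow_zero, v_one h, Nat.cast_zero, zero_mul]
  | succ n ih => rw [pow_succ, h.1 _ _ (pow_ne_zero n hf) hf, ih, Nat.cast_succ, add_mul, one_mul]

theorem q_add (h : IsWV w v) {t : ℤ} {a b : KK} (ha : a = 0 ∨ t ≤ v a) (hb : b = 0 ∨ t ≤ v b) :
    a + b = 0 ∨ t ≤ v (a + b) := by
  by_cases h0 : a = 0
  · rw [h0, zero_add]; exact hb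
  by_cases h1 : b = 0
  · rw [h1, add_zero]; exact ha
  by_cases h2 : a + b = 0
  · exact Or.inl h2
  exact Or.inr ((le_min (ha.resolve_left h0) (hb.resolve_left h1)).trans (h.2.1 a b h0 h1 h2))

theorem q_mul (h : IsWV w v) {s t : ℤ} {a b : KK} (ha : a = 0 ∨ s ≤ v a) (hb : b = 0 ∨ t ≤ v b) :
    a * b = 0 ∨ s + t ≤ v (a * b) := by
  by_cases h0 : a = 0
  · rw [h0, zero_mul]; exact Or.inl rfl
  by_cases h1 : b = 0
  · rw [h1, mul_zero]; exact Or.inl rfl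
  rw [h.1 a b h0 h1]
  exact Or.inr (add_le_add (ha.resolve_left h0) (hb.resolve_left h1))

theorem q_pw (h : IsWV w v) (hV : ∀ f, f ∈ V ↔ f = 0 ∨ 0 ≤ v f) (r : ℕ) :
    ∀ g ∈ pw V (mx V) r, g = 0 ∨ (r : ℤ) ≤ v g := by
  have h1 : ∀ g ∈ Submodule.span V (mx V), g = 0 ∨ 1 ≤ v g := by
    intro g hg
    induction hg using Submodule.span_induction with
    | mem a ha =>
      by_cases h0 : a = 0
      · exact Or.inl h0
      have h2 := ha.2.resolve_left h0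
      rw [hV, not_or, v_inv h h0] at h2
      exact Or.inr (by omega)
    | zero => exact Or.inl rfl
    | add a b _ _ ha hb => exact q_add h ha hb
    | smul s a _ ha => exact (q_mul h ((hV s).1 s.2) ha).imp id fun e => (zero_add _).ge.trans e
  induction r with
  | zero =>
    intro g hg
    have hg' : g ∈ (Submodule.span V (mx V) ^ 0 : Submodule V KK) := hg
    rw [pow_zero, Submodule.mem_one] at hg'
    obtain ⟨y, rfl⟩ := hg'
    exact (hV y).1 y.2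
  | succ r ih =>
    intro g hg
    have hg' : g ∈ (Submodule.span V (mx V) ^ (r + 1) : Submodule V KK) := hg
    rw [pow_succ] at hg'
    rw [Nat.cast_succ]
    exact Submodule.mul_induction_on hg' (fun m hm n hn => q_mul h (ih m hm) (h1 n hn))
      fun x y hx hy => q_add h hx hy

theorem mem_pw (h : IsWV w v) (hV : ∀ f, f ∈ V ↔ f = 0 ∨ 0 ≤ v f) {p : KK} (hp : p ≠ 0)
    (h1 : v p = 1) (r : ℕ) {g : KK} (hg : g ≠ 0 → (r : ℤ) ≤ v g) : g ∈ pw V (mx V) r := by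
  have hr := pow_ne_zero r hp
  have hm : p ∈ mx V := ⟨(hV p).2 (Or.inr (by omega)), Or.inr fun e => by
    rcases (hV _).1 e with e | e
    · exact inv_ne_zero hp e
    · rw [v_inv h hp] at e; omega⟩
  have hs : g * (p ^ r)⁻¹ ∈ V := by
    by_cases h0 : g = 0
    · rw [h0, zero_mul]; exact V.zero_mem
    have := hg h0
    rw [hV, h.1 _ _ h0 (inv_ne_zero hr), v_inv h hr, v_pow h hp, h1]
    exact Or.inr (by omega)
  have e : g = (⟨_, hs⟩ : V) • p ^ r := (inv_mul_cancel_right₀ hr g).symm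
  rw [e]
  exact Submodule.smul_mem _ _ (Submodule.pow_mem_pow _ (Submodule.subset_span hm) r)

theorem le3 {x y z : ℕ} {a : Fin 3 → ℕ} (h0 : x ≤ a 0) (h1 : y ≤ a 1) (h2 : z ≤ a 2) :
    ![x, y, z] ≤ a := by
  intro k; fin_cases k
  exacts [h0, h1, h2]

theorem dot3 (x y z : ℕ) (a : Fin 3 → ℕ) : dot ![x, y, z] a = x * a 0 + y * a 1 + z * a 2 := by
  rw [dot, Fin.sum_univ_three]; rfl

end UP_

open UP_ in
theorem bUP (hWV : WV) (hMEM : MEM) (hSUP : SUP) (hVAL1 : VAL1) (hVAL2 : VAL2) : UP := by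
  intro c hc f hf
  obtain ⟨v, hv⟩ := hWV ![4, 6, 7]
  obtain ⟨V, hV, hR, hD, vp, vs, vt, hT⟩ := hVAL1 v hv
  obtain ⟨hmon, -, -, hMI⟩ := hMEM _ v hv
  have hp : pp ≠ 0 := div_ne_zero (pow_ne_zero _ (xx_ne 0)) (xx_ne 2)
  have hs : ss ≠ 0 := div_ne_zero (pow_ne_zero _ (xx_ne 1)) (pow_ne_zero _ (xx_ne 0))
  have ht : tt ≠ 0 :=
    div_ne_zero (pow_ne_zero _ (xx_ne 2)) (mul_ne_zero (pow_ne_zero _ (xx_ne 0)) (xx_ne 1))
  have mp : pp ∈ V := (hV _).2 (Or.inr (by omega))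
  have ms : ss ∈ V := (hV _).2 (Or.inr vs.ge)
  have mt : tt ∈ V := (hV _).2 (Or.inr vt.ge)
  have hPD : PD R0 V := by
    refine ⟨hR, fun a => ?_, hD, {pp, ss, tt}, Set.toFinite _, ?_, hT⟩
    · by_cases h0 : a = 0
      · exact Or.inl ((hV a).2 (Or.inl h0))
      rw [hV, hV, v_inv hv h0]; omega
    · rintro a (rfl | rfl | rfl)
      exacts [mp, ms, mt]
  have hy : mon ![0, 3, 0] ∈ MI A0 := Submodule.subset_span ⟨_, by unfold A0; decide, rfl⟩
  have hy0 : mon ![0, 3, 0] ≠ 0 := Finset.prod_ne_zero_iff.2 fun i _ => pow_ne_zero _ (xx_ne i)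
  have ho : 18 ≤ ord V (MI A0) := by
    refine le_csSup ⟨dot ![4, 6, 7] ![0, 3, 0], fun r hr => ?_⟩ fun g hg => ?_
    · have e := (q_pw hv hV r _ (hr hy)).resolve_left hy0
      rw [hmon] at e
      exact Int.ofNat_le.1 e
    · exact mem_pw hv hV hp vp 18 (hMI A0 18 (fun a ha => ha.2.2.2) g hg)
  have hfl : 23 ≤ ⌊c * (ord V (MI A0) : ℝ)⌋₊ := by
    have e : (18 : ℝ) ≤ (ord V (MI A0) : ℝ) := by exact_mod_cast ho
    refine Nat.le_floor ?_
    rw [Nat.cast_ofNat]; nlinarith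
  have h16 := mul_ne_zero (pow_ne_zero 16 hp) (pow_ne_zero 4 hs)
  have hj0 := mul_ne_zero h16 (pow_ne_zero 8 ht)
  have h7 : f ≠ 0 → ((7 : ℕ) : ℤ) ≤ v f := fun h0 => by
    have e := (q_pw hv hV _ _ (hf.2 V hR hPD _ (hVAL2 V hR mp ms mt hT))).resolve_left
      (mul_ne_zero h0 hj0)
    rw [hv.1 _ _ h0 hj0, hv.1 _ _ h16 (pow_ne_zero 8 ht),
      hv.1 _ _ (pow_ne_zero 16 hp) (pow_ne_zero 4 hs), v_pow hv hp, v_pow hv hs, v_pow hv ht,
      vp, vs, vt] at e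
    omega
  refine hSUP.2.1 _ B0 (fun a ha => ?_) (hSUP.1 Unit (fun _ => ![4, 6, 7]) (fun _ => v)
    (fun _ => 7) (fun _ => hv) f hf.1 fun h0 _ => h7 h0)
  have e := ha ()
  rw [dot3] at e
  by_cases h2 : 1 ≤ a 2
  · exact ⟨_, Or.inl rfl, le3 (Nat.zero_le _) (Nat.zero_le _) h2⟩
  by_cases h0 : 2 ≤ a 0
  · exact ⟨_, Or.inr (Or.inl rfl), le3 h0 (Nat.zero_le _) (Nat.zero_le _)⟩
  by_cases h1 : 2 ≤ a 1
  · exact ⟨_, Or.inr (Or.inr (Or.inr rfl)), le3 (Nat.zero_le _) h1 (Nat.zero_le _)⟩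
  exact ⟨_, Or.inr (Or.inr (Or.inl rfl)), le3 (by omega) (by omega) (Nat.zero_le _)⟩

end Pool.Agent.Lib.FS80
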