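import Pool.Agent.Lib.FS80.Blue2
import Pool.Agent.Lib.FS80.B_UP

namespace Pool.Agent.Lib.FS80

open UP_ in
theorem bUP2 (hWV : WV) (hMEM : MEM) (hSUP : SUP) (hVAL1 : VALA) (hVAL2 : VALB) : UP2 := by
  intro c n m u hu hc f hf
  obtain ⟨v, hv⟩ := hWV ![8, 12, 13]
  obtain ⟨V, hV, hR, hD, vp, vs, vt, hT⟩ := hVAL1 v hv
  obtain ⟨hmon, -, -, hMI⟩ := hMEM _ v hv
  have hp : p2 ≠ 0 := div_ne_zero (xx_ne 2) (xx_ne 1)
  have hs : s2 ≠ 0 := div_ne_zero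
    (mul_ne_zero (pow_ne_zero _ (xx_ne 0)) (pow_ne_zero _ (xx_ne 1))) (pow_ne_zero _ (xx_ne 2))
  have ht : t2 ≠ 0 :=
    div_ne_zero (pow_ne_zero _ (xx_ne 1)) (mul_ne_zero (xx_ne 0) (pow_ne_zero _ (xx_ne 2)))
  have mp : p2 ∈ V := (hV _).2 (Or.inr (by omega))
  have ms : s2 ∈ V := (hV _).2 (Or.inr vs.ge)
  have mt : t2 ∈ V := (hV _).2 (Or.inr vt.ge)
  have hPD : PD R0 V := by
    refine ⟨hR, fun a => ?_, hD, {p2, s2, t2}, Set.toFinite _, ?_, hT⟩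
    · by_cases h0 : a = 0
      · exact Or.inl ((hV a).2 (Or.inl h0))
      rw [hV, hV, v_inv hv h0]; omega
    · rintro a (rfl | rfl | rfl)
      exacts [mp, ms, mt]
  have hy : mon ![0, n, 0] ∈ MI (A2 n m) :=
    Submodule.subset_span ⟨_, by simp [A2, dot, Fin.sum_univ_three], rfl⟩
  have hy0 : mon ![0, n, 0] ≠ 0 := Finset.prod_ne_zero_iff.2 fun i _ => pow_ne_zero _ (xx_ne i)
  have ho : 12 * n ≤ ord V (MI (A2 n m)) := by
    refine le_csSup ⟨dot ![8, 12, 13] ![0, n, 0], fun r hr => ?_⟩ fun g hg => ?_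
    · have e := (q_pw hv hV r _ (hr hy)).resolve_left hy0
      rw [hmon] at e
      exact Int.ofNat_le.1 e
    · exact mem_pw hv hV hp vp (12 * n) (hMI _ (12 * n) (fun a ha => ha.2.2.2.2.2) g hg)
  have hfl : 12 * u + 9 ≤ ⌊c * (ord V (MI (A2 n m)) : ℝ)⌋₊ := by
    have e : (12 * n : ℝ) ≤ (ord V (MI (A2 n m)) : ℝ) := by exact_mod_cast ho
    have u0 : (0 : ℝ) ≤ u := Nat.cast_nonneg u
    have n0 : (0 : ℝ) ≤ n := Nat.cast_nonneg n
    have c0 : 0 ≤ c := by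
      by_contra hneg
      have := mul_nonpos_of_nonpos_of_nonneg (not_le.1 hneg).le n0
      linarith
    refine Nat.le_floor ?_
    have := mul_le_mul_of_nonneg_left e c0
    push_cast
    linarith
  have h16 := mul_ne_zero (pow_ne_zero 32 hp) (pow_ne_zero 2 hs)
  have hj0 := mul_ne_zero h16 (pow_ne_zero 4 ht)
  have h7 : f ≠ 0 → ((12 * (u - 2) + 1 : ℕ) : ℤ) ≤ v f := fun h0 => by
    have e := (q_pw hv hV _ _ (hf.2 V hR hPD _ (hVAL2 V hR mp ms mt hT))).resolve_left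
      (mul_ne_zero h0 hj0)
    rw [hv.1 _ _ h0 hj0, hv.1 _ _ h16 (pow_ne_zero 4 ht),
      hv.1 _ _ (pow_ne_zero 32 hp) (pow_ne_zero 2 hs), v_pow hv hp, v_pow hv hs, v_pow hv ht,
      vp, vs, vt] at e
    omega
  refine hSUP.2.1 _ _ ?_ (hSUP.1 Unit (fun _ => ![8, 12, 13])
    (fun _ => v) (fun _ => 12 * (u - 2) + 1) (fun _ => hv) f hf.1 fun h0 _ => h7 h0)
  exact fun a ha => ⟨a, ha (), le_rfl⟩

end Pool.Agent.Lib.FS80
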