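import Pool.Agent.Lib.FS80.Blue

namespace Pool.Agent.Lib.FS80

open MvPolynomial

namespace VAL1_

variable {w : Fin 3 → ℕ} {v : KK → ℤ}

theorem v_one (h : IsWV w v) : v 1 = 0 := by
  have := h.1 1 1 one_ne_zero one_ne_zero
  rw [mul_one] at this
  omega

theorem v_neg (h : IsWV w v) {f : KK} (hf : f ≠ 0) : v (-f) = v f := by
  have h1 := h.1 (-1) (-1) (by norm_num) (by norm_num)
  rw [neg_mul_neg, mul_one, v_one h] at h1
  have h2 := h.1 (-1) f (by norm_num) hf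
  rw [neg_one_mul] at h2
  omega

theorem v_div (h : IsWV w v) {f g : KK} (hf : f ≠ 0) (hg : g ≠ 0) : v (f / g) = v f - v g := by
  have := h.1 (f / g) g (div_ne_zero hf hg) hg
  rw [div_mul_cancel₀ _ hg] at this
  omega

theorem v_pow (h : IsWV w v) {f : KK} (hf : f ≠ 0) (n : ℕ) : v (f ^ n) = n * v f := by
  induction n with
  | zero => simpa using v_one h
  | succ n ih => rw [pow_succ, h.1 _ _ (pow_ne_zero _ hf) hf, ih]; push_cast; ring

def VV (h : IsWV w v) : Subring KK where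
  carrier := {f | f = 0 ∨ 0 ≤ v f}
  zero_mem' := Or.inl rfl
  one_mem' := Or.inr (v_one h).ge
  add_mem' := by
    intro a b ha hb
    by_cases h0 : a + b = 0
    · exact Or.inl h0
    by_cases ha0 : a = 0
    · rw [ha0, zero_add]; exact hb
    by_cases hb0 : b = 0
    · rw [hb0, add_zero]; exact ha
    exact Or.inr ((le_min (ha.resolve_left ha0) (hb.resolve_left hb0)).trans
      (h.2.1 a b ha0 hb0 h0))
  neg_mem' := by
    intro a ha
    by_cases ha0 : a = 0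
    · exact Or.inl (by rw [ha0, neg_zero])
    exact Or.inr (by rw [v_neg h ha0]; exact ha.resolve_left ha0)
  mul_mem' := by
    intro a b ha hb
    by_cases ha0 : a = 0
    · exact Or.inl (by rw [ha0, zero_mul])
    by_cases hb0 : b = 0
    · exact Or.inl (by rw [hb0, mul_zero])
    exact Or.inr (by
      rw [h.1 a b ha0 hb0]; exact add_nonneg (ha.resolve_left ha0) (hb.resolve_left hb0))

theorem inv_mem (h : IsWV w v) {f : KK} (hf : f ≠ 0) (h0 : v f = 0) : f⁻¹ ∈ VV h :=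
  Or.inr (by rw [← one_div, v_div h one_ne_zero hf, v_one h, h0]; rfl)

theorem unit_of (h : IsWV w v) (a : VV h) (ha : (a : KK) ≠ 0) (h0 : v a = 0) : IsUnit a :=
  IsUnit.of_mul_eq_one ⟨_, inv_mem h ha h0⟩ (Subtype.ext (mul_inv_cancel₀ ha))

theorem dvr (h : IsWV w v) {p : KK} (hp : p ≠ 0) (h1 : v p = 1) :
    IsDiscreteValuationRing (VV h) := by
  have hpV : p ∈ VV h := Or.inr (by omega)
  refine IsDiscreteValuationRing.ofHasUnitMulPowIrreducibleFactorization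
    ⟨⟨p, hpV⟩, ⟨fun hu => ?_, fun a b hab => ?_⟩, fun {x} hx => ?_⟩
  · obtain ⟨b, hb⟩ := hu.exists_right_inv
    have hb' : p * (b : KK) = 1 := congrArg Subtype.val hb
    have hb0 : (b : KK) ≠ 0 := right_ne_zero_of_mul_eq_one hb'
    have h2 := h.1 p b hp hb0
    have h3 : 0 ≤ v b := Or.resolve_left b.2 hb0
    rw [hb', v_one h] at h2
    omega
  · have hab' : p = (a : KK) * b := congrArg Subtype.val hab
    have ha0 : (a : KK) ≠ 0 := left_ne_zero_of_mul (hab' ▸ hp)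
    have hb0 : (b : KK) ≠ 0 := right_ne_zero_of_mul (hab' ▸ hp)
    have h2 := h.1 _ _ ha0 hb0
    have h3 : 0 ≤ v a := Or.resolve_left a.2 ha0
    have h4 : 0 ≤ v b := Or.resolve_left b.2 hb0
    rw [← hab', h1] at h2
    by_cases h5 : v a = 0
    · exact Or.inl (unit_of h a ha0 h5)
    · exact Or.inr (unit_of h b hb0 (by omega))
  · have hx0 : (x : KK) ≠ 0 := fun e => hx (Subtype.ext e)
    obtain ⟨n, hn⟩ := Int.eq_ofNat_of_zero_le (Or.resolve_left x.2 hx0 : 0 ≤ v x)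
    have hn0 := pow_ne_zero n hp
    have hu : v (x / p ^ n) = 0 := by rw [v_div h hx0 hn0, v_pow h hp, h1, hn]; ring
    obtain ⟨u, hu'⟩ := unit_of h ⟨_, Or.inr hu.ge⟩ (div_ne_zero hx0 hn0) hu
    refine ⟨n, u, Subtype.ext ?_⟩
    rw [hu']
    exact mul_div_cancel₀ _ hn0

theorem pp_ne : pp ≠ 0 := div_ne_zero (pow_ne_zero _ (xx_ne 0)) (xx_ne 2)

theorem mon_eq (a : Fin 3 → ℕ) : mon a = pp ^ dot ![4, 6, 7] a *
    (ss ^ (a 0 + 2 * a 1 + 2 * a 2) * tt ^ (2 * a 0 + 3 * a 1 + 4 * a 2)) := by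
  have h0 := xx_ne 0
  have h1 := xx_ne 1
  have h2 := xx_ne 2
  have e0 : xx 0 = pp ^ 4 * ss * tt ^ 2 := by unfold pp ss tt; field_simp
  have e1 : xx 1 = pp ^ 6 * ss ^ 2 * tt ^ 3 := by unfold pp ss tt; field_simp
  have e2 : xx 2 = pp ^ 7 * ss ^ 2 * tt ^ 4 := by unfold pp ss tt; field_simp
  have hd : dot ![4, 6, 7] a = 4 * a 0 + 6 * a 1 + 7 * a 2 := by simp [dot, Fin.sum_univ_three]
  rw [mon, Fin.prod_univ_three, hd, e0, e1, e2]
  ring

theorem div_mem (P : PP) (m : ℕ) (hm : ∀ a ∈ P.support, m ≤ dot ![4, 6, 7] a) :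
    algebraMap PP KK P / pp ^ m ∈ Subring.closure ((R0 : Set KK) ∪ {pp, ss, tt}) := by
  rw [P.as_sum, map_sum, Finset.sum_div]
  refine Subring.sum_mem _ fun a ha => ?_
  obtain ⟨k, hk⟩ := Nat.exists_eq_add_of_le (hm a ha)
  have e : algebraMap PP KK (monomial a (coeff a P)) = algebraMap PP KK (C (coeff a P)) * mon a := by
    rw [monomial_eq, map_mul, Finsupp.prod_fintype _ _ (fun i => pow_zero _), map_prod]
    simp only [map_pow]
    rfl
  rw [e, mon_eq, hk, pow_add, mul_assoc, mul_div_assoc, mul_div_cancel_left₀ _ (pow_ne_zero _ pp_ne)]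
  have hs : ∀ f ∈ ((R0 : Set KK) ∪ {pp, ss, tt}),
      f ∈ Subring.closure ((R0 : Set KK) ∪ {pp, ss, tt}) := fun f hf => Subring.subset_closure hf
  exact mul_mem (hs _ (Or.inl (alg_mem _))) (mul_mem (pow_mem (hs _ (by simp)) _)
    (mul_mem (pow_mem (hs _ (by simp)) _) (pow_mem (hs _ (by simp)) _)))

end VAL1_

open VAL1_ in
theorem bVAL1 (hMEM : MEM) : VAL1 := by
  intro v h
  obtain ⟨hm, -, hR, -⟩ := hMEM _ v h
  have h0 := xx_ne 0
  have h1 := xx_ne 1
  have h2 := xx_ne 2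
  have v0 : v (xx 0) = 4 := by simpa [mon, dot, Fin.prod_univ_three, Fin.sum_univ_three] using hm ![1, 0, 0]
  have v1 : v (xx 1) = 6 := by simpa [mon, dot, Fin.prod_univ_three, Fin.sum_univ_three] using hm ![0, 1, 0]
  have v2 : v (xx 2) = 7 := by simpa [mon, dot, Fin.prod_univ_three, Fin.sum_univ_three] using hm ![0, 0, 1]
  have vp : v pp = 1 := by
    rw [pp, v_div h (pow_ne_zero _ h0) h2, v_pow h h0, v0, v2]; norm_num
  refine ⟨VV h, fun f => Iff.rfl, fun f hf => ?_, dvr h pp_ne vp, vp, ?_, ?_, fun f hf => ?_⟩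
  · by_cases hf0 : f = 0
    · exact Or.inl hf0
    · exact Or.inr (hR f hf hf0)
  · rw [ss, v_div h (pow_ne_zero _ h1) (pow_ne_zero _ h0), v_pow h h0, v_pow h h1, v0, v1]; norm_num
  · rw [tt, v_div h (pow_ne_zero _ h2) (mul_ne_zero (pow_ne_zero _ h0) h1),
      h.1 _ _ (pow_ne_zero _ h0) h1, v_pow h h0, v_pow h h2, v0, v1, v2]; norm_num
  by_cases hf0 : f = 0
  · exact ⟨0, zero_mem _, 1, one_mem _, one_ne_zero, by rw [inv_one]; exact one_mem _, by simp [hf0]⟩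
  obtain ⟨P, Q, hQ, rfl⟩ := IsFractionRing.div_surjective (A := PP) f
  have hP0 : algebraMap PP KK P ≠ 0 := fun e => hf0 (by rw [e, zero_div])
  have hQ0 : algebraMap PP KK Q ≠ 0 := fun e => hf0 (by rw [e, div_zero])
  have hP : P ≠ 0 := fun e => hP0 (by rw [e, map_zero])
  have hQ' : Q ≠ 0 := fun e => hQ0 (by rw [e, map_zero])
  obtain ⟨m, hm'⟩ := Int.eq_ofNat_of_zero_le (hR _ (alg_mem Q) hQ0)
  have hv : 0 ≤ v (algebraMap PP KK P / algebraMap PP KK Q) := Or.resolve_left hf hf0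
  rw [v_div h hP0 hQ0, hm'] at hv
  have hn0 := pow_ne_zero m pp_ne
  refine ⟨_, div_mem P m ((h.2.2 P hP m).1 (by omega)), _, div_mem Q m ((h.2.2 Q hQ' m).1 hm'.ge),
    div_ne_zero hQ0 hn0, inv_mem h (div_ne_zero hQ0 hn0) ?_, (div_div_div_cancel_right₀ hn0 _ _).symm⟩
  rw [v_div h hQ0 hn0, v_pow h pp_ne, vp, hm']
  ring

end Pool.Agent.Lib.FS80
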