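import Pool.Agent.Lib.FS80.Blue2
import Pool.Agent.Lib.FS80.B_VAL1

namespace Pool.Agent.Lib.FS80

open MvPolynomial

namespace VALA_

theorem p2_ne : p2 ≠ 0 := div_ne_zero (xx_ne 2) (xx_ne 1)

theorem mon_eq (a : Fin 3 → ℕ) : mon a = p2 ^ dot ![8, 12, 13] a *
    (s2 ^ (a 0 + a 1 + a 2) * t2 ^ (a 0 + 2 * a 1 + 2 * a 2)) := by
  have h0 := xx_ne 0
  have h1 := xx_ne 1
  have h2 := xx_ne 2
  have e0 : xx 0 = p2 ^ 8 * s2 * t2 := by unfold p2 s2 t2; field_simp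
  have e1 : xx 1 = p2 ^ 12 * s2 * t2 ^ 2 := by unfold p2 s2 t2; field_simp
  have e2 : xx 2 = p2 ^ 13 * s2 * t2 ^ 2 := by unfold p2 s2 t2; field_simp
  have hd : dot ![8, 12, 13] a = 8 * a 0 + 12 * a 1 + 13 * a 2 := by simp [dot, Fin.sum_univ_three]
  rw [mon, Fin.prod_univ_three, hd, e0, e1, e2]
  ring

theorem div_mem (P : PP) (m : ℕ) (hm : ∀ a ∈ P.support, m ≤ dot ![8, 12, 13] a) :
    algebraMap PP KK P / p2 ^ m ∈ Subring.closure ((R0 : Set KK) ∪ {p2, s2, t2}) := by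
  rw [P.as_sum, map_sum, Finset.sum_div]
  refine Subring.sum_mem _ fun a ha => ?_
  obtain ⟨k, hk⟩ := Nat.exists_eq_add_of_le (hm a ha)
  have e : algebraMap PP KK (monomial a (coeff a P)) = algebraMap PP KK (C (coeff a P)) * mon a := by
    rw [monomial_eq, map_mul, Finsupp.prod_fintype _ _ (fun i => pow_zero _), map_prod]
    simp only [map_pow]
    rfl
  rw [e, mon_eq, hk, pow_add, mul_assoc, mul_div_assoc, mul_div_cancel_left₀ _ (pow_ne_zero _ p2_ne)]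
  have hs : ∀ f ∈ ((R0 : Set KK) ∪ {p2, s2, t2}),
      f ∈ Subring.closure ((R0 : Set KK) ∪ {p2, s2, t2}) := fun f hf => Subring.subset_closure hf
  exact mul_mem (hs _ (Or.inl (alg_mem _))) (mul_mem (pow_mem (hs _ (by simp)) _)
    (mul_mem (pow_mem (hs _ (by simp)) _) (pow_mem (hs _ (by simp)) _)))

end VALA_

open VAL1_ hiding mon_eq div_mem in
open VALA_ in
theorem bVALA (hMEM : MEM) : VALA := by
  intro v h
  obtain ⟨hm, -, hR, -⟩ := hMEM _ v h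
  have h0 := xx_ne 0
  have h1 := xx_ne 1
  have h2 := xx_ne 2
  have v0 : v (xx 0) = 8 := by simpa [mon, dot, Fin.prod_univ_three, Fin.sum_univ_three] using hm ![1, 0, 0]
  have v1 : v (xx 1) = 12 := by simpa [mon, dot, Fin.prod_univ_three, Fin.sum_univ_three] using hm ![0, 1, 0]
  have v2 : v (xx 2) = 13 := by simpa [mon, dot, Fin.prod_univ_three, Fin.sum_univ_three] using hm ![0, 0, 1]
  have vp : v p2 = 1 := by
    rw [p2, v_div h h2 h1, v1, v2]; norm_num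
  refine ⟨VV h, fun f => Iff.rfl, fun f hf => ?_, dvr h p2_ne vp, vp, ?_, ?_, fun f hf => ?_⟩
  · by_cases hf0 : f = 0
    · exact Or.inl hf0
    · exact Or.inr (hR f hf hf0)
  · rw [s2, v_div h (mul_ne_zero (pow_ne_zero _ h0) (pow_ne_zero _ h1)) (pow_ne_zero _ h2),
      h.1 _ _ (pow_ne_zero _ h0) (pow_ne_zero _ h1), v_pow h h0, v_pow h h1, v_pow h h2, v0, v1, v2]
    norm_num
  · rw [t2, v_div h (pow_ne_zero _ h1) (mul_ne_zero h0 (pow_ne_zero _ h2)),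
      h.1 _ _ h0 (pow_ne_zero _ h2), v_pow h h1, v_pow h h2, v0, v1, v2]
    norm_num
  by_cases hf0 : f = 0
  · exact ⟨0, zero_mem _, 1, one_mem _, one_ne_zero, by rw [inv_one]; exact one_mem _, by simp [hf0]⟩
  obtain ⟨P, Q, hQ, rfl⟩ := IsFractionRing.div_surjective (A := PP) f
  have hP0 : algebraMap PP KK P ≠ 0 := fun e => hf0 (by rw [e, zero_div])
  have hQ0 : algebraMap PP KK Q ≠ 0 := fun e => hf0 (by rw [e, div_zero])
  have hP : P ≠ 0 := fun e => hP0 (by rw [e, map_zero])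
  have hQ' : Q ≠ 0 := fun e => hQ0 (by rw [e, map_zero])
  obtain ⟨m, hm'⟩ := Int.eq_ofNat_of_zero_le (hR _ (alg_mem Q) hQ0)
  have hv : 0 ≤ v (algebraMap PP KK P / algebraMap PP KK Q) := Or.resolve_left hf hf0
  rw [v_div h hP0 hQ0, hm'] at hv
  have hn0 := pow_ne_zero m p2_ne
  refine ⟨_, div_mem P m ((h.2.2 P hP m).1 (by omega)), _, div_mem Q m ((h.2.2 Q hQ' m).1 hm'.ge),
    div_ne_zero hQ0 hn0, inv_mem h (div_ne_zero hQ0 hn0) ?_, (div_div_div_cancel_right₀ hn0 _ _).symm⟩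
  rw [v_div h hQ0 hn0, v_pow h p2_ne, vp, hm']
  ring

end Pool.Agent.Lib.FS80
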