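import Pool.Agent.Lib.FS80.Blue2

/-! The Jacobian determinant of the monomial chart lies in the Jacobian ideal. -/

namespace Pool.Agent.Lib.FS80

theorem VALB_.ex : p2 ^ 8 * s2 * t2 = xx 0 ∧ p2 ^ 12 * s2 * t2 ^ 2 = xx 1 ∧
    p2 ^ 13 * s2 * t2 ^ 2 = xx 2 := by
  have := xx_ne 0; have := xx_ne 1; have := xx_ne 2
  unfold p2 s2 t2
  refine ⟨?_, ?_, ?_⟩ <;> field_simp

open VALB_ in
theorem bVALB : VALB := by
  intro V h hp hs ht hV
  let : Algebra R0 V := (Subring.inclusion h).toAlgebra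
  let P : V := ⟨p2, hp⟩; let S : V := ⟨s2, hs⟩; let T : V := ⟨t2, ht⟩
  let D := KaehlerDifferential.D R0 V
  have hR : ∀ a : V, (a : KK) ∈ R0 → D a = 0 := fun a ha => D.map_algebraMap ⟨a, ha⟩
  let g : Fin 3 → KaehlerDifferential R0 V := ![D P, D S, D T]
  have hcl : ∀ a ∈ Subring.closure ((R0 : Set KK) ∪ {p2, s2, t2}),
      ∃ b : V, (b : KK) = a ∧ D b ∈ Submodule.span V (Set.range g) := by
    intro a ha
    induction ha using Subring.closure_induction with
    | mem x hx =>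
      rcases hx with hx | rfl | rfl | rfl
      · exact ⟨⟨x, h hx⟩, rfl, by rw [hR _ hx]; exact Submodule.zero_mem _⟩
      · exact ⟨P, rfl, Submodule.subset_span ⟨0, rfl⟩⟩
      · exact ⟨S, rfl, Submodule.subset_span ⟨1, rfl⟩⟩
      · exact ⟨T, rfl, Submodule.subset_span ⟨2, rfl⟩⟩
    | zero => exact ⟨0, rfl, by rw [map_zero]; exact Submodule.zero_mem _⟩
    | one => exact ⟨1, rfl, by rw [D.map_one_eq_zero]; exact Submodule.zero_mem _⟩
    | add x y _ _ hx hy =>
      obtain ⟨⟨a, rfl, ha⟩, b, rfl, hb⟩ := And.intro hx hy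
      exact ⟨a + b, rfl, by rw [map_add]; exact Submodule.add_mem _ ha hb⟩
    | neg x _ hx =>
      obtain ⟨a, rfl, ha⟩ := hx
      exact ⟨-a, rfl, by rw [map_neg]; exact Submodule.neg_mem _ ha⟩
    | mul x y _ _ hx hy =>
      obtain ⟨⟨a, rfl, ha⟩, b, rfl, hb⟩ := And.intro hx hy
      exact ⟨a * b, rfl, by
        rw [D.leibniz]
        exact Submodule.add_mem _ (Submodule.smul_mem _ _ hb) (Submodule.smul_mem _ _ ha)⟩
  have hall : ∀ f : V, D f ∈ Submodule.span V (Set.range g) := by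
    intro f
    obtain ⟨a', ha', b', hb', hb0, hbi, hf⟩ := hV f f.2
    obtain ⟨a, rfl, ha⟩ := hcl a' ha'
    obtain ⟨b, rfl, hb⟩ := hcl b' hb'
    let c : V := ⟨(b : KK)⁻¹, hbi⟩
    have hc : c * b = 1 := Subtype.ext (inv_mul_cancel₀ hb0)
    have hfb : b * f = a := Subtype.ext (by
      rw [Subring.coe_mul, hf]; exact mul_div_cancel₀ _ hb0)
    have : D f = c • (D a - f • D b) := by
      rw [← hfb, D.leibniz, add_sub_cancel_right, smul_smul, hc, one_smul]
    rw [this]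
    exact Submodule.smul_mem _ _ (Submodule.sub_mem _ ha (Submodule.smul_mem _ _ hb))
  have hx : D (P ^ 8 * S * T) = 0 := hR _ (by
    change p2 ^ 8 * s2 * t2 ∈ R0; rw [ex.1]; exact alg_mem _)
  have hy : D (P ^ 12 * S * T ^ 2) = 0 := hR _ (by
    change p2 ^ 12 * s2 * t2 ^ 2 ∈ R0; rw [ex.2.1]; exact alg_mem _)
  have hz : D (P ^ 13 * S * T ^ 2) = 0 := hR _ (by
    change p2 ^ 13 * s2 * t2 ^ 2 ∈ R0; rw [ex.2.2]; exact alg_mem _)
  simp only [Derivation.leibniz, Derivation.leibniz_pow] at hx hy hz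
  refine ⟨3, g, !![8 * P ^ 7 * S * T, P ^ 8 * T, P ^ 8 * S;
    12 * P ^ 11 * S * T ^ 2, P ^ 12 * T ^ 2, 2 * P ^ 12 * S * T;
    13 * P ^ 12 * S * T ^ 2, P ^ 13 * T ^ 2, 2 * P ^ 13 * S * T], ?_, ?_, ?_⟩
  · rw [eq_top_iff, ← KaehlerDifferential.span_range_derivation, Submodule.span_le]
    rintro _ ⟨f, rfl⟩
    exact hall f
  · intro i
    rw [Fin.sum_univ_three]; fin_cases i
    · change (8 * P ^ 7 * S * T) • D P + (P ^ 8 * T) • D S + (P ^ 8 * S) • D T = 0
      linear_combination (norm := module) hx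
    · change (12 * P ^ 11 * S * T ^ 2) • D P + (P ^ 12 * T ^ 2) • D S +
        (2 * P ^ 12 * S * T) • D T = 0
      linear_combination (norm := module) hy
    · change (13 * P ^ 12 * S * T ^ 2) • D P + (P ^ 13 * T ^ 2) • D S +
        (2 * P ^ 13 * S * T) • D T = 0
      linear_combination (norm := module) hz
  · have : ((P ^ 32 * S ^ 2 * T ^ 4 : V) : KK) = p2 ^ 32 * s2 ^ 2 * t2 ^ 4 := rfl
    rw [← this, Matrix.det_fin_three]
    congr 1
    simp only [Matrix.of_apply, Matrix.cons_val', Matrix.cons_val_zero, Matrix.cons_val_one,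
      Matrix.cons_val_two, Matrix.cons_val_fin_one, Matrix.head_cons, Matrix.tail_cons,
      Matrix.empty_val', Matrix.head_fin_const]
    ring

end Pool.Agent.Lib.FS80
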