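import Pool.Agent.Lib.FS80.Blue

namespace Pool.Agent.Lib.FS80

open MvPolynomial

namespace WV_

/-- the least weight in the support -/
noncomputable def o (w : Fin 3 → ℕ) (p : PP) : ℕ :=
  (MvPowerSeries.weightedOrder w (p : MvPowerSeries (Fin 3) ℚ)).toNat

theorem o_cast (w : Fin 3 → ℕ) {p : PP} (hp : p ≠ 0) :
    (o w p : ℕ∞) = MvPowerSeries.weightedOrder w (p : MvPowerSeries (Fin 3) ℚ) :=
  (MvPowerSeries.ne_zero_iff_weightedOrder_finite w).mp
    fun h => hp (MvPolynomial.coe_eq_zero_iff.mp h)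

theorem o_mul (w : Fin 3 → ℕ) {p q : PP} (hp : p ≠ 0) (hq : q ≠ 0) :
    o w (p * q) = o w p + o w q := by
  have h := o_cast w (mul_ne_zero hp hq)
  rw [MvPolynomial.coe_mul, MvPowerSeries.weightedOrder_mul, ← o_cast w hp, ← o_cast w hq] at h
  exact_mod_cast h

theorem wt (w : Fin 3 → ℕ) (d : Fin 3 →₀ ℕ) : Finsupp.weight w d = dot w d := by
  rw [Finsupp.weight_apply, Finsupp.sum_fintype _ _ (fun i => zero_smul ℕ (w i))]
  exact Finset.sum_congr rfl fun i _ => mul_comm _ _

theorem le_o (w : Fin 3 → ℕ) {p : PP} (hp : p ≠ 0) (t : ℕ) :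
    t ≤ o w p ↔ ∀ a ∈ p.support, t ≤ dot w a := by
  rw [← Nat.cast_le (α := ℕ∞), o_cast w hp]
  constructor
  · intro h a ha
    have h1 := MvPowerSeries.weightedOrder_le w (f := (p : MvPowerSeries (Fin 3) ℚ)) (d := a)
      (by rw [MvPolynomial.coeff_coe]; exact mem_support_iff.mp ha)
    rw [wt] at h1
    exact_mod_cast h.trans h1
  · intro h
    refine MvPowerSeries.nat_le_weightedOrder w fun d hd => ?_
    rw [MvPolynomial.coeff_coe]
    by_contra h0
    rw [wt] at hd
    exact absurd (h d (mem_support_iff.mpr h0)) (not_le.mpr hd)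

theorem o_add (w : Fin 3 → ℕ) {p q : PP} (hp : p ≠ 0) (hq : q ≠ 0) (h : p + q ≠ 0) :
    min (o w p) (o w q) ≤ o w (p + q) := by
  classical
  refine (le_o w h _).mpr fun a ha => ?_
  rcases Finset.mem_union.mp (support_add ha) with h1 | h1
  · exact (le_o w hp _).mp (min_le_left _ _) a h1
  · exact (le_o w hq _).mp (min_le_right _ _) a h1

theorem an {p : PP} (hp : p ≠ 0) : algebraMap PP KK p ≠ 0 := fun h =>
  hp (IsFractionRing.injective PP KK (h.trans (map_zero _).symm))

theorem frac (f : KK) : ∃ p q : PP, q ≠ 0 ∧ f = algebraMap PP KK p / algebraMap PP KK q := by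
  obtain ⟨p, q, hq, h⟩ := IsFractionRing.div_surjective (A := PP) f
  exact ⟨p, q, nonZeroDivisors.ne_zero hq, h.symm⟩

theorem nz {p q : PP} (h : algebraMap PP KK p / algebraMap PP KK q ≠ 0) : p ≠ 0 := by
  rintro rfl
  exact h (by rw [map_zero, zero_div])

end WV_

open WV_ in
theorem bWV : WV := by
  intro w
  choose n d hd hf using frac
  have hv : ∀ p q : PP, p ≠ 0 → q ≠ 0 → ∀ f, f = algebraMap PP KK p / algebraMap PP KK q →
      (o w (n f) : ℤ) - o w (d f) = (o w p : ℤ) - o w q := by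
    intro p q hp hq f h
    have h0 : n f ≠ 0 := nz (by rw [← hf f, h]; exact div_ne_zero (an hp) (an hq))
    have h1 := (hf f).symm.trans h
    rw [div_eq_div_iff (an (hd f)) (an hq), ← map_mul, ← map_mul] at h1
    have h2 := congrArg (o w) (IsFractionRing.injective PP KK h1)
    rw [o_mul w h0 hq, o_mul w hp (hd f)] at h2
    omega
  refine ⟨fun f => (o w (n f) : ℤ) - o w (d f), fun f g h1 h2 => ?_, fun f g h1 h2 h3 => ?_,
    fun p hp t => ?_⟩
  · have a1 : n f ≠ 0 := nz (by rw [← hf f]; exact h1)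
    have a2 : n g ≠ 0 := nz (by rw [← hf g]; exact h2)
    have h := hv _ _ (mul_ne_zero a1 a2) (mul_ne_zero (hd f) (hd g)) (f * g)
      (by rw [map_mul, map_mul, ← div_mul_div_comm, ← hf f, ← hf g])
    rw [o_mul w a1 a2, o_mul w (hd f) (hd g)] at h
    beta_reduce
    omega
  · have a1 : n f ≠ 0 := nz (by rw [← hf f]; exact h1)
    have a2 : n g ≠ 0 := nz (by rw [← hf g]; exact h2)
    have e : f + g = algebraMap PP KK (n f * d g + d f * n g) / algebraMap PP KK (d f * d g) := by
      rw [map_add, map_mul, map_mul, map_mul, ← div_add_div _ _ (an (hd f)) (an (hd g)),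
        ← hf f, ← hf g]
    have a3 : n f * d g + d f * n g ≠ 0 := nz (by rw [← e]; exact h3)
    have h := hv _ _ a3 (mul_ne_zero (hd f) (hd g)) (f + g) e
    have h4 := o_add w (mul_ne_zero a1 (hd g)) (mul_ne_zero (hd f) a2) a3
    rw [o_mul w a1 (hd g), o_mul w (hd f) a2] at h4
    rw [o_mul w (hd f) (hd g)] at h
    beta_reduce
    omega
  · have h := hv p 1 hp one_ne_zero (algebraMap PP KK p) (by rw [map_one, div_one])
    have h1 := o_mul w hp (one_ne_zero (α := PP))
    rw [mul_one] at h1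
    rw [← le_o w hp t]
    beta_reduce
    omega

end Pool.Agent.Lib.FS80
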