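import Pool.Agent.Lib.FS80.Defs

/-! Rows: a finitely supported ideal whose adjoint with a real exponent is not finitely
supported. -/

namespace Pool.Agent.Lib.FS80

open MvPolynomial

abbrev PP : Type := MvPolynomial (Fin 3) ℚ

noncomputable def xx (i : Fin 3) : KK := algebraMap PP KK (X i)

noncomputable def mon (a : Fin 3 → ℕ) : KK := ∏ i, xx i ^ a i

noncomputable def MI (A : Set (Fin 3 → ℕ)) : Set KK := gen R0 (mon '' A)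

def dot (w a : Fin 3 → ℕ) : ℕ := ∑ i, w i * a i

def sz (a : Fin 3 → ℕ) : ℕ := ∑ i, a i

def TT (i : Fin 3) (r : ℕ) (a : Fin 3 → ℕ) : Fin 3 → ℕ := Function.update a i (sz a - r)

/-- a monomial valuation -/
def IsWV (w : Fin 3 → ℕ) (v : KK → ℤ) : Prop :=
  (∀ f g, f ≠ 0 → g ≠ 0 → v (f * g) = v f + v g) ∧
  (∀ f g, f ≠ 0 → g ≠ 0 → f + g ≠ 0 → min (v f) (v g) ≤ v (f + g)) ∧
  ∀ p : PP, p ≠ 0 → ∀ t : ℕ, (t : ℤ) ≤ v (algebraMap PP KK p) ↔ ∀ a ∈ p.support, t ≤ dot w a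

/-- the chart automorphism -/
def IsSig (i : Fin 3) (σ : KK ≃+* KK) : Prop :=
  ∀ j, σ (xx j) = if j = i then xx i else xx j / xx i

/-- the image of a subring -/
noncomputable def im (σ : KK ≃+* KK) (S : Subring KK) : Subring KK := S.map (σ : KK →+* KK)

def A0 : Set (Fin 3 → ℕ) :=
  {a | 3 ≤ dot ![1, 1, 1] a ∧ 5 ≤ dot ![1, 2, 2] a ∧ 9 ≤ dot ![2, 3, 4] a ∧ 18 ≤ dot ![4, 6, 7] a}

def B0 : Set (Fin 3 → ℕ) := {![0, 0, 1], ![2, 0, 0], ![1, 1, 0], ![0, 2, 0]}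

noncomputable def pp : KK := xx 0 ^ 2 / xx 2
noncomputable def ss : KK := xx 1 ^ 2 / xx 0 ^ 3
noncomputable def tt : KK := xx 2 ^ 2 / (xx 0 ^ 2 * xx 1)

theorem xx_ne (i : Fin 3) : xx i ≠ 0 := fun h =>
  X_ne_zero i (IsFractionRing.injective PP KK (h.trans (map_zero _).symm))

theorem alg_ne {q : PP} (hq : constantCoeff q ≠ 0) : algebraMap PP KK q ≠ 0 := fun h =>
  hq (by rw [IsFractionRing.injective PP KK (h.trans (map_zero _).symm), map_zero])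

theorem mem_R0 (f : KK) : f ∈ R0 ↔ ∃ p q : PP, constantCoeff q ≠ 0 ∧
    f = algebraMap PP KK p / algebraMap PP KK q := by
  refine ⟨fun h => ?_, fun h => Subring.subset_closure h⟩
  induction h using Subring.closure_induction with
  | mem x hx => exact hx
  | zero => exact ⟨0, 1, by simp, by simp⟩
  | one => exact ⟨1, 1, by simp, by simp⟩
  | add x y _ _ hx hy =>
    obtain ⟨p, q, hq, rfl⟩ := hx
    obtain ⟨p', q', hq', rfl⟩ := hy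
    refine ⟨p * q' + q * p', q * q', by rw [map_mul]; exact mul_ne_zero hq hq', ?_⟩
    rw [div_add_div _ _ (alg_ne hq) (alg_ne hq'), map_add, map_mul, map_mul, map_mul]
  | neg x _ hx =>
    obtain ⟨p, q, hq, rfl⟩ := hx
    exact ⟨-p, q, hq, by rw [map_neg, neg_div]⟩
  | mul x y _ _ hx hy =>
    obtain ⟨p, q, hq, rfl⟩ := hx
    obtain ⟨p', q', hq', rfl⟩ := hy
    refine ⟨p * p', q * q', by rw [map_mul]; exact mul_ne_zero hq hq', ?_⟩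
    rw [div_mul_div_comm, map_mul, map_mul]

theorem alg_mem (p : PP) : algebraMap PP KK p ∈ R0 := (mem_R0 _).2 ⟨p, 1, by simp, by simp⟩

def WV : Prop := ∀ w, ∃ v, IsWV w v

def MEM : Prop := ∀ w v, IsWV w v → (∀ a, v (mon a) = dot w a) ∧
  (∀ q : PP, constantCoeff q ≠ 0 → v (algebraMap PP KK q) = 0) ∧ (∀ f ∈ R0, f ≠ 0 → 0 ≤ v f) ∧
  ∀ (A : Set (Fin 3 → ℕ)) (t : ℕ), (∀ a ∈ A, t ≤ dot w a) → ∀ f ∈ MI A, f ≠ 0 → (t : ℤ) ≤ v f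

/-- uses MEM -/
def SUP : Prop := (∀ (ι : Type) (w : ι → Fin 3 → ℕ) (v : ι → KK → ℤ) (t : ι → ℕ),
  (∀ i, IsWV (w i) (v i)) → ∀ f ∈ R0, (f ≠ 0 → ∀ i, (t i : ℤ) ≤ v i f) →
    f ∈ MI {a | ∀ i, t i ≤ dot (w i) a}) ∧
  (∀ A B : Set (Fin 3 → ℕ), (∀ a ∈ A, ∃ b ∈ B, b ≤ a) → MI A ⊆ MI B) ∧ ∀ A, MI A ⊆ R0

/-- uses WV MEM SUP -/
def PW : Prop := mx R0 = MI {a | 1 ≤ sz a} ∧ mx R0 = gen R0 (Set.range xx) ∧
  ∀ r, pw R0 (mx R0) r = MI {a | r ≤ sz a}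

/-- uses WV MEM SUP PW -/
def ORD : Prop := ∀ (J : Set KK) (A : Set (Fin 3 → ℕ)) (r : ℕ) (a : Fin 3 → ℕ), J ⊆ MI A →
  (∀ b ∈ A, r ≤ sz b) → mon a ∈ J → sz a = r → ord R0 J = r

/-- uses MEM -/
def ICL : Prop := ∀ w v, IsWV w v → ∀ (J : Set KK) (t : ℕ), (∀ f ∈ J, f ≠ 0 → (t : ℤ) ≤ v f) →
  ∀ f ∈ icl R0 J, f ≠ 0 → (t : ℤ) ≤ v f

def UNIT : Prop := (∀ (S : Subring KK) (I : Set KK), (1 : KK) ∈ I → supp S I = ∅) ∧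
  ∀ (S : Subring KK) (I : Set KK), I ⊆ S → I ⊆ icl S I

def AUT : Prop := ∀ i, ∃ σ, IsSig i σ

/-- uses PW -/
def QT0 : Prop := ∀ i σ, IsSig i σ → QT R0 (im σ R0) (xx i)

/-- uses PW -/
def QTU : Prop := ∀ S t, QT R0 S t → R0 ≤ S ∧ ∃ i, xx i / t ∈ S ∧ t / xx i ∈ S ∧
  (∀ j, xx j / xx i ∈ S) ∧ ∀ σ, IsSig i σ → (∀ j, j ≠ i → xx i / xx j ∉ S) → S = im σ R0

def TRANS : Prop := ∀ (φ : KK ≃+* KK) (R : Subring KK) (I : Set KK),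
  supp (im φ R) (φ '' I) = im φ '' supp R I

def REC : Prop := ∀ (R : Subring KK) (I : Set KK), (∀ S ∈ supp R I, R ≤ S) ∧
  (∀ S' ∈ supp R I, S' = R ∨ ∃ S x, QT R S x ∧ S' ∈ supp S (tr R S x I)) ∧
  ∀ S x, QT R S x → supp S (tr R S x I) ⊆ supp R I

def TRM : Prop := ∀ i σ, IsSig i σ → ∀ (J : Set KK) (A : Set (Fin 3 → ℕ)) (r : ℕ) (t : KK),
  J ⊆ MI A → (∀ a ∈ A, r ≤ sz a) → ord R0 J = r → t ≠ 0 → t / xx i ∈ im σ R0 →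
  xx i / t ∈ im σ R0 → ∃ J' : Set KK, tr R0 (im σ R0) t J = σ '' J' ∧ J' ⊆ MI (TT i r '' A) ∧
    gen R0 J' = J' ∧ ∀ a, mon a ∈ J → r ≤ sz a → mon (TT i r a) ∈ J'

/-- uses ORD UNIT AUT QTU TRANS REC TRM -/
def STEP : Prop := ∀ (i : Fin 3) (A : Set (Fin 3 → ℕ)) (r : ℕ), (∀ a ∈ A, r ≤ sz a) →
  (∀ j, j ≠ i → Pi.single j r ∈ A) → (supp R0 (MI (TT i r '' A))).Finite →
  (supp R0 (MI A)).Finite

/-- uses UNIT STEP -/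
def FS : Prop := (supp R0 (MI A0)).Finite

/-- uses WV MEM SUP ORD ICL UNIT AUT QT0 TRANS REC TRM -/
def NFS : Prop := ∀ J : Set KK, xx 2 ∈ J → J ⊆ MI B0 → ¬ (supp R0 J).Finite

/-- uses MEM -/
def VAL1 : Prop := ∀ v, IsWV ![4, 6, 7] v → ∃ V : Subring KK, (∀ f, f ∈ V ↔ f = 0 ∨ 0 ≤ v f) ∧
  R0 ≤ V ∧ IsDiscreteValuationRing V ∧ v pp = 1 ∧ v ss = 0 ∧ v tt = 0 ∧
  ∀ f ∈ V, ∃ a ∈ Subring.closure ((R0 : Set KK) ∪ {pp, ss, tt}),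
    ∃ b ∈ Subring.closure ((R0 : Set KK) ∪ {pp, ss, tt}), b ≠ 0 ∧ b⁻¹ ∈ V ∧ f = a / b

def VAL2 : Prop := ∀ (V : Subring KK) (h : R0 ≤ V), pp ∈ V → ss ∈ V → tt ∈ V →
  (∀ f ∈ V, ∃ a ∈ Subring.closure ((R0 : Set KK) ∪ {pp, ss, tt}),
    ∃ b ∈ Subring.closure ((R0 : Set KK) ∪ {pp, ss, tt}), b ≠ 0 ∧ b⁻¹ ∈ V ∧ f = a / b) →
  pp ^ 16 * ss ^ 4 * tt ^ 8 ∈ Jac h

def DER : Prop := ∃ D : Fin 3 → Derivation ℤ KK KK,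
  (∀ k i, D k (xx i) = if i = k then 1 else 0) ∧ ∀ k, ∀ f ∈ R0, D k f ∈ R0

/-- the lattice spanned by the vectors `P j` and the vectors with entries in `V` -/
noncomputable def lat (V : Subring KK) {n : ℕ} (P : Fin n → Fin 3 → KK) : Submodule V (Fin 3 → KK) :=
  Submodule.span V (Set.range P ∪ {u | ∀ k, u k ∈ V})

def LIFT : Prop := ∀ (D : Fin 3 → Derivation ℤ KK KK), (∀ k, ∀ f ∈ R0, D k f ∈ R0) →
  ∀ (V : Subring KK) (h : R0 ≤ V), ∀ j ∈ Jac h, ∃ (n : ℕ) (P : Fin n → Fin 3 → KK)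
    (N : Matrix (Fin n) (Fin n) KK), j = N.det ∧ (∀ a b, N a b ∈ V) ∧
    (∀ a k, ∑ b, N a b * P b k ∈ V) ∧ ∀ f ∈ V, (fun k => D k f) ∈ lat V P

def LIN : Prop := ∀ (V : Subring KK), (∀ a : KK, a ∈ V ∨ a⁻¹ ∈ V) →
  ∀ (n : ℕ) (P : Fin n → Fin 3 → KK) (N : Matrix (Fin n) (Fin n) KK), (∀ a b, N a b ∈ V) →
    (∀ a k, ∑ b, N a b * P b k ∈ V) → ∀ l : Matrix (Fin 3) (Fin 3) KK, (∀ i, l i ∈ lat V P) →
    N.det * l.det ∈ V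

/-- uses DER LIFT LIN -/
def LD : Prop := ∀ (V : Subring KK) (h : R0 ≤ V), PD R0 V → ∀ j ∈ Jac h, ∀ q ∈ mx V,
  j * q / (xx 0 * xx 1 * xx 2) ∈ V

/-- uses WV MEM SUP VAL1 VAL2 -/
def UP : Prop := ∀ c : ℝ, 23 / 18 ≤ c → adj c R0 (MI A0) ⊆ MI B0

/-- uses LD -/
def LOW : Prop := ∀ c : ℝ, 0 ≤ c → c < 4 / 3 → xx 2 ∈ adj c R0 (MI A0)

/-- uses WV MEM SUP ICL FS NFS UP LOW -/
def FIN : Prop := ∃ I : Set KK, I ⊆ R0 ∧ gen R0 I = I ∧ I ≠ {0} ∧ icl R0 I ⊆ I ∧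
  (supp R0 I).Finite ∧ ∀ c : ℝ, 23 / 18 ≤ c → c < 4 / 3 → ¬ (supp R0 (adj c R0 I)).Finite

end Pool.Agent.Lib.FS80
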