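import Pool.Agent.Lib.FS80.Blue

/-! Rows, second part: every exponent `c` with `2c` and `3c` not integers. -/

namespace Pool.Agent.Lib.FS80

def A2 (n m : ℕ) : Set (Fin 3 → ℕ) :=
  {a | n ≤ dot ![1, 1, 1] a ∧ 2 * n - m ≤ dot ![1, 2, 2] a ∧ 3 * n ≤ dot ![2, 3, 4] a ∧
    6 * n ≤ dot ![4, 6, 7] a ∧ 9 * n ≤ dot ![6, 9, 10] a ∧ 12 * n ≤ dot ![8, 12, 13] a}

noncomputable def p2 : KK := xx 2 / xx 1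
noncomputable def s2 : KK := xx 0 ^ 2 * xx 1 ^ 3 / xx 2 ^ 4
noncomputable def t2 : KK := xx 1 ^ 5 / (xx 0 * xx 2 ^ 4)

def NUM : Prop := ∀ c : ℝ, 0 < c → (∀ k : ℤ, 2 * c ≠ k) → (∀ k : ℤ, 3 * c ≠ k) →
  ∃ n m u : ℕ, 1 ≤ c * m ∧ 5 * m ≤ n ∧ (u : ℝ) + 3 / 4 ≤ c * n ∧ c * n < u + 1

/-- uses UNIT STEP -/
def FS2 : Prop := ∀ n m : ℕ, 5 * m ≤ n → (supp R0 (MI (A2 n m))).Finite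

/-- uses WV MEM SUP PW ICL UNIT AUT QT0 TRANS REC TRM -/
def NFSA : Prop := ∀ (J : Set KK) (a : Fin 3 → ℕ), mon a ∈ J →
  J ⊆ MI {b | 1 ≤ dot ![0, 1, 1] b} → ¬ (supp R0 J).Finite

/-- uses WV MEM SUP PW AUT QT0 TRANS REC TRM NFSA -/
def NFSB : Prop := ∀ (J : Set KK) (a : Fin 3 → ℕ) (ρ : ℕ), mon a ∈ J → sz a ≤ ρ →
  J ⊆ MI {b | 12 * ρ + 1 ≤ dot ![8, 12, 13] b} → ¬ (supp R0 J).Finite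

/-- uses MEM -/
def VALA : Prop := ∀ v, IsWV ![8, 12, 13] v → ∃ V : Subring KK,
  (∀ f, f ∈ V ↔ f = 0 ∨ 0 ≤ v f) ∧
  R0 ≤ V ∧ IsDiscreteValuationRing V ∧ v p2 = 1 ∧ v s2 = 0 ∧ v t2 = 0 ∧
  ∀ f ∈ V, ∃ a ∈ Subring.closure ((R0 : Set KK) ∪ {p2, s2, t2}),
    ∃ b ∈ Subring.closure ((R0 : Set KK) ∪ {p2, s2, t2}), b ≠ 0 ∧ b⁻¹ ∈ V ∧ f = a / b

def VALB : Prop := ∀ (V : Subring KK) (h : R0 ≤ V), p2 ∈ V → s2 ∈ V → t2 ∈ V →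
  (∀ f ∈ V, ∃ a ∈ Subring.closure ((R0 : Set KK) ∪ {p2, s2, t2}),
    ∃ b ∈ Subring.closure ((R0 : Set KK) ∪ {p2, s2, t2}), b ≠ 0 ∧ b⁻¹ ∈ V ∧ f = a / b) →
  p2 ^ 32 * s2 ^ 2 * t2 ^ 4 ∈ Jac h

/-- uses WV MEM SUP VALA VALB -/
def UP2 : Prop := ∀ (c : ℝ) (n m u : ℕ), 5 ≤ u → (u : ℝ) + 3 / 4 ≤ c * n →
  adj c R0 (MI (A2 n m)) ⊆ MI {b | 12 * (u - 2) + 1 ≤ dot ![8, 12, 13] b}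

/-- uses LD -/
def LOW2 : Prop := ∀ (c : ℝ) (n m u : ℕ), 5 ≤ u → 1 ≤ c * m → 5 * m ≤ n → c * n < u + 1 →
  mon ![0, u - 5, 3] ∈ adj c R0 (MI (A2 n m))

end Pool.Agent.Lib.FS80
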