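import Mathlib

/-! Quadratic transforms, transforms of ideals, point bases and adjoints, inside a fixed field. -/

namespace Pool.Agent.Lib.FS80

variable {K : Type} [Field K]

/-- the non-units of `S` (the maximal ideal of a local ring) -/
def mx (S : Subring K) : Set K := {a | a ∈ S ∧ (a = 0 ∨ a⁻¹ ∉ S)}

/-- the `S`-module generated by `A` -/
def gen (S : Subring K) (A : Set K) : Set K := (Submodule.span S A : Submodule S K)

/-- the `r`-th power of the `S`-module generated by `A` -/
def pw (S : Subring K) (A : Set K) (r : ℕ) : Set K := (Submodule.span S A ^ r : Submodule S K)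

/-- the order: the largest `r` with `I` inside the `r`-th power of the maximal ideal -/
noncomputable def ord (S : Subring K) (I : Set K) : ℕ := sSup {r | I ⊆ pw S (mx S) r}

/-- the integral closure of the ideal `I` of `S` -/
def icl (S : Subring K) (I : Set K) : Set K :=
  {f | f ∈ S ∧ ∃ (n : ℕ) (c : ℕ → K), (∀ i, c i ∈ pw S I (i + 1)) ∧
    f ^ (n + 1) + ∑ i ∈ Finset.range (n + 1), c i * f ^ (n - i) = 0}

/-- the chart `S[m/x]` of the blowup of the maximal ideal -/
def chart (S : Subring K) (x : K) : Subring K :=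
  Subring.closure ((S : Set K) ∪ (fun a => a / x) '' mx S)

/-- `S'` is a local quadratic transform of `S`, in the chart of `x` -/
def QT (S S' : Subring K) (x : K) : Prop :=
  x ∈ mx S ∧ x ≠ 0 ∧ ringKrullDim S' = ringKrullDim S ∧ ∃ P : Ideal (chart S x), P.IsPrime ∧
    (∀ a : chart S x, (a : K) ∈ mx S → a ∈ P) ∧
    ∀ f, f ∈ S' ↔ ∃ a b : chart S x, b ∉ P ∧ f = (a : K) / (b : K)

/-- the transform of `I` in `S'` -/
def tr (S S' : Subring K) (x : K) (I : Set K) : Set K := gen S' ((fun a => a / x ^ ord S I) '' I)

/-- `S` is an infinitely near point of `R` and `J` is the transform of `I` in `S` -/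
inductive Near (R : Subring K) (I : Set K) : Subring K → Set K → Prop
  | base : Near R I R I
  | step {S S' : Subring K} {J : Set K} {x : K} :
      Near R I S J → QT S S' x → Near R I S' (tr S S' x J)

/-- the infinitely near points where the entry of the point basis is not zero -/
def supp (R : Subring K) (I : Set K) : Set (Subring K) :=
  {S | ∃ J, Near R I S J ∧ ord S (icl S J) ≠ 0}

/-- `V` is the valuation ring of a prime divisor of `R` -/
def PD (R V : Subring K) : Prop :=
  R ≤ V ∧ (∀ a : K, a ∈ V ∨ a⁻¹ ∈ V) ∧ IsDiscreteValuationRing V ∧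
    ∃ T : Set K, T.Finite ∧ T ⊆ V ∧ ∀ f ∈ V, ∃ a ∈ Subring.closure ((R : Set K) ∪ T),
      ∃ b ∈ Subring.closure ((R : Set K) ∪ T), b ≠ 0 ∧ b⁻¹ ∈ V ∧ f = a / b

/-- the generators of the Jacobian ideal (the 0-th Fitting ideal of the differentials):
determinants of square systems of relations among finite generating families -/
def Jac {R V : Subring K} (h : R ≤ V) : Set K :=
  letI := (Subring.inclusion h).toAlgebra
  {j | ∃ (n : ℕ) (g : Fin n → KaehlerDifferential R V) (N : Matrix (Fin n) (Fin n) V),
    Submodule.span V (Set.range g) = ⊤ ∧ (∀ i, ∑ k, N i k • g k = 0) ∧ j = (N.det : V)}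

/-- the adjoint with exponent `c` -/
def adj (c : ℝ) (R : Subring K) (I : Set K) : Set K :=
  {f | f ∈ R ∧ ∀ (V : Subring K) (h : R ≤ V), PD R V → ∀ j ∈ Jac h,
    f * j ∈ pw V (mx V) ⌊c * (ord V I : ℝ)⌋₊}

/-- the field of rational functions in three variables -/
abbrev KK : Type := FractionRing (MvPolynomial (Fin 3) ℚ)

/-- the local ring of the origin -/
noncomputable def R0 : Subring KK := Subring.closure {f | ∃ p q : MvPolynomial (Fin 3) ℚ,
  MvPolynomial.constantCoeff q ≠ 0 ∧ f = algebraMap _ KK p / algebraMap _ KK q}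

end Pool.Agent.Lib.FS80
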