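import Pool.Agent.Lib.FS80.B_WV
import Pool.Agent.Lib.FS80.B_MEM
import Pool.Agent.Lib.FS80.B_SUP
import Pool.Agent.Lib.FS80.B_PW
import Pool.Agent.Lib.FS80.B_ORD
import Pool.Agent.Lib.FS80.B_ICL
import Pool.Agent.Lib.FS80.B_UNIT
import Pool.Agent.Lib.FS80.B_AUT
import Pool.Agent.Lib.FS80.B_QT0
import Pool.Agent.Lib.FS80.B_QTU
import Pool.Agent.Lib.FS80.B_TRANS
import Pool.Agent.Lib.FS80.B_REC
import Pool.Agent.Lib.FS80.B_TRM
import Pool.Agent.Lib.FS80.B_STEP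
import Pool.Agent.Lib.FS80.B_FS
import Pool.Agent.Lib.FS80.B_NFS
import Pool.Agent.Lib.FS80.B_VAL1
import Pool.Agent.Lib.FS80.B_VAL2
import Pool.Agent.Lib.FS80.B_DERb
import Pool.Agent.Lib.FS80.B_LIFT
import Pool.Agent.Lib.FS80.B_LIN
import Pool.Agent.Lib.FS80.B_LD
import Pool.Agent.Lib.FS80.B_UP
import Pool.Agent.Lib.FS80.B_LOW
import Pool.Agent.Lib.FS80.B_FIN

/-! A finitely supported integrally closed ideal of a three-dimensional regular local ring whose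
adjoint with a real exponent is not finitely supported. -/

namespace Pool.Agent.Lib.FS80.OneIdeal

open Pool.Agent.Lib.FS80

theorem one_ideal : ∃ I : Set KK, I ⊆ R0 ∧ gen R0 I = I ∧ I ≠ {0} ∧ icl R0 I ⊆ I ∧
    (supp R0 I).Finite ∧
    ∀ c : ℝ, 23 / 18 ≤ c → c < 4 / 3 → ¬ (supp R0 (adj c R0 I)).Finite := by
  have hSUP := bSUP bMEM
  have hPW := bPW bWV bMEM hSUP
  have hORD := bORD bWV bMEM hSUP hPW
  have hICL := bICL bMEM
  exact bFIN bWV bMEM hSUP hICL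
    (bFS bUNIT (bSTEP hORD bUNIT bAUT (bQTU hPW) bTRANS bREC bTRM))
    (bNFS bWV bMEM hSUP hORD hICL bUNIT bAUT (bQT0 hPW) bTRANS bREC bTRM)
    (bUP bWV bMEM hSUP (bVAL1 bMEM) bVAL2) (bLOW (bLD bDERb bLIFT bLIN))

end Pool.Agent.Lib.FS80.OneIdeal
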